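import Pool.Agent.P.MP_f8f34d_lc.N.Defs

/-! Leftmost points. -/

namespace Pool.Agent.MinDeg

open Pool.Agent.Lib.ComputableProp

/-- `U` is the leftmost point of `P` -/
def Lm (P : Set CS) (U : CS) : Prop :=
  U ∈ P ∧ ∀ i, U i = true → ∀ V ∈ P, (∀ j < i, V j = U j) → V i = true

open Classical in
noncomputable def lm (P : Set CS) : CS := if h : ∃ U, Lm P U then h.choose else zz

theorem Lm.unique {P : Set CS} {U V : CS} (h : Lm P U) (h' : Lm P V) : U = V := by
  funext i
  induction i using Nat.strong_induction_on with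
  | _ i ih =>
    rw [Bool.eq_iff_iff]
    exact ⟨fun e => h.2 i e V h'.1 fun j hj => (ih j hj).symm, fun e => h'.2 i e U h.1 ih⟩

theorem lm_spec {P : Set CS} (hc : IsClosed P) (hne : P.Nonempty) : Lm P (lm P) := by
  classical
  obtain ⟨S, h0, hS⟩ : ∃ S : ℕ → Set CS, S 0 = P ∧ ∀ n, S (n + 1) =
      if ∃ V ∈ S n, V n = false then S n ∩ {V | V n = false} else S n :=
    ⟨fun n => Nat.rec (motive := fun _ => Set CS) P
      (fun n T => if ∃ V ∈ T, V n = false then T ∩ {V | V n = false} else T) n, rfl, fun _ => rfl⟩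
  subst h0
  have sub : ∀ n, S (n + 1) ⊆ S n := fun n => by
    rw [hS]
    split_ifs
    exacts [Set.inter_subset_left, subset_rfl]
  have cl : ∀ n, IsClosed (S n) := fun n => by
    induction n with
    | zero => exact hc
    | succ n ih =>
      rw [hS]
      split_ifs
      exacts [ih.inter (isClosed_eq (continuous_apply n) continuous_const), ih]
  have ne : ∀ n, (S n).Nonempty := fun n => by
    induction n with
    | zero => exact hne
    | succ n ih =>
      rw [hS]
      split_ifs with h
      exacts [h, ih]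
  obtain ⟨U, hU⟩ := IsCompact.nonempty_iInter_of_sequence_nonempty_isCompact_isClosed S sub ne
    hc.isCompact cl
  have hU' := Set.mem_iInter.1 hU
  have ex : ∃ U, Lm (S 0) U := by
    refine ⟨U, hU' 0, fun i hi V hV hj => ?_⟩
    have hV' : ∀ j ≤ i, V ∈ S j := fun j => by
      induction j with
      | zero => exact fun _ => hV
      | succ j ih =>
        intro hji
        have k := hU' (j + 1)
        rw [hS] at k ⊢
        split_ifs at k ⊢
        exacts [⟨ih (by omega), (hj j (by omega)).trans k.2⟩, ih (by omega)]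
    by_contra hn
    have k := hU' (i + 1)
    rw [hS, if_pos ⟨V, hV' i le_rfl, by simpa using hn⟩] at k
    exact Bool.noConfusion (hi.symm.trans k.2)
  rw [lm, dif_pos ex]
  exact ex.choose_spec

theorem measurable_lm {α : Type} [MeasurableSpace α] {P : α → Set CS} (hc : ∀ a, IsClosed (P a))
    (hne : ∀ a, (P a).Nonempty) (hm : ∀ τ, MeasurableSet {a | ∃ V ∈ P a, Ext τ V}) :
    Measurable fun a => lm (P a) := by
  refine measurable_pi_iff.2 fun i => ?_
  induction i using Nat.strong_induction_on with
  | _ i ih =>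
    refine measurable_to_bool ?_
    have e : (fun a => lm (P a) i) ⁻¹' {true} = (⋃ τ : List Bool,
        {_a | τ.length = i + 1 ∧ τ.getD i false = false} ∩
          ((⋂ k, ⋂ (_ : k < i), (fun a => lm (P a) k) ⁻¹' {τ.getD k false}) ∩
            {a | ∃ V ∈ P a, Ext τ V}))ᶜ := by
      ext a
      have hl := lm_spec (hc a) (hne a)
      simp only [Set.mem_preimage, Set.mem_singleton_iff, Set.mem_compl_iff, Set.mem_iUnion,
        Set.mem_inter_iff, Set.mem_iInter, Set.mem_ofPred_eq]
      constructor
      · rintro ht ⟨τ, ⟨h1, h2⟩, h3, V, hV, h4⟩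
        have := hl.2 i ht V hV fun j hj => (h4 j (by omega)).trans (h3 j hj).symm
        exact Bool.noConfusion (this.symm.trans ((h4 i (by omega)).trans h2))
      · intro hn
        by_contra ht
        exact hn ⟨pre (lm (P a)) (i + 1), ⟨pre_length _ _, (pre_getD _ (by omega)).trans
          (by simpa using ht)⟩, fun k hk => (pre_getD _ (by omega)).symm, _, hl.1, ext_pre _ _⟩
    rw [e]
    exact (MeasurableSet.iUnion fun τ => (MeasurableSet.const _).inter ((MeasurableSet.iInter
      fun k => MeasurableSet.iInter fun hk => ih k hk (measurableSet_singleton _)).inter (hm τ))).compl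

theorem de_lm {β : Type} [Primcodable β] {P : CS → CS → β → Prop}
    (h : Pii fun z a => P (lf z) (rt z) a) (Z : CS) :
    DE (jp (jp Z)) fun w : β × ℕ => Lm {V | P Z V w.1} (col Z w.2) := by
  have h1 : Pii fun (z : CS) (w : β × ℕ) => P z (col z w.2) w.1 :=
    (h.map (CM.id.jn (CM.id.col (m := fun w : β × ℕ => w.2) (by fun_prop)))
      (g := fun w : β × ℕ => w.1) (by fun_prop)).of_iff fun _ _ => by simp
  have h2 : Sig fun (z : CS) (u : (β × ℕ) × ℕ) => col z u.1.2 u.2 = true →
      ∀ V, P z V u.1.1 → (∀ j < u.2, V j = col z u.1.2 j) → V u.2 = true :=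
    Sig.imp (Pii.bit (CM.id.col (by fun_prop)) (by fun_prop) (by fun_prop))
      (Sig.all (P := fun z V (u : (β × ℕ) × ℕ) =>
        P z V u.1.1 → (∀ j < u.2, V j = col z u.1.2 j) → V u.2 = true)
        (Sig.imp (h.comp (by fun_prop)) (Sig.imp (Pii.all (Pii.imp
          (Sig.of_re (RE.lt (by fun_prop) (by fun_prop)))
          (Pii.beq CM.id.rt (CM.id.lf.col (by fun_prop)) (by fun_prop) (by fun_prop))))
          (CM.id.rt.bit (by fun_prop) (by fun_prop)))))
  exact ((h1.de Z).up).and (DE.all (h2.de Z))

theorem measurable_jn {α : Type} [MeasurableSpace α] {f g : α → CS} (hf : Measurable f)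
    (hg : Measurable g) : Measurable fun a => jn (f a) (g a) := by
  refine measurable_pi_iff.2 fun i => ?_
  unfold jn
  split_ifs
  exacts [(measurable_pi_apply _).comp hf, (measurable_pi_apply _).comp hg]

theorem measurable_rs {α : Type} [MeasurableSpace α] {f g : α → CS} (hf : Measurable f)
    (hg : Measurable g) : Measurable fun a => rs (f a) (g a) := by
  refine measurable_pi_iff.2 fun i => ?_
  unfold rs
  cases eqb i.unpair.1 0
  exacts [(measurable_pi_apply _).comp hf, (measurable_pi_apply _).comp hg]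

/-- for a Sig relation, a functional that picks one of its values -/
theorem Sig.exists_Ps {D : CS → ℕ × Bool → Prop} (h : Sig D) : ∃ i, (∀ x n b, Ps i x n b → D x (n, b)) ∧
    ∀ x n b, D x (n, b) → ∃ b', Ps i x n b' := by
  obtain ⟨e, he⟩ := h.index
  have k := (Sig.unif (P := fun x (w : ℕ × ℕ) (b : Bool) =>
    Un (Nat.pair w.1 (Encodable.encode (w.2, b))) x) sig_Ps0).choose_spec
  exact ⟨e, fun x n b hb => (he x (n, b)).2 (k.2.1 x (e, n) b hb),
    fun x n b hb => k.2.2.2 x (e, n) b ((he x (n, b)).1 hb)⟩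

end Pool.Agent.MinDeg
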