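import Pool.Agent.P.MP_f8f34d_lc.N.Str
import Pool.Agent.P.MP_f8f34d_lc.N.Left

/-! Chains and coboundary (section 3). -/

namespace Pool.Agent.MinDeg

open Pool.Agent.Lib.ComputableProp
open scoped Classical

abbrev chain_Nd : Type := List (ℕ × Bool)
abbrev chain_E : Type := chain_Nd →₀ ZMod 2

noncomputable def chain_dec : ℕ ≃ chain_E := nonempty_equiv_of_countable.some

def chain_cd (u : chain_Nd) : ℕ := Nat.pair (u.headD (0, false)).1 (u.tail.headD (0, false)).1

def chain_live (r : CS) (u : chain_Nd) : Prop := 2 ≤ u.length ∧ r (chain_cd u) = true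

noncomputable def chain_pi (r : CS) : chain_E →+ chain_E :=
  (Finsupp.mapDomain.addMonoidHom List.tail).comp (Finsupp.filterAddHom (chain_live r))

theorem chain_pi_apply (r : CS) (v : chain_E) :
    chain_pi r v = Finsupp.mapDomain List.tail (v.filter (chain_live r)) := rfl

noncomputable def chain_chiH : chain_E →+ ZMod 2 :=
  Finsupp.liftAddHom fun u => if (u.headD (0, false)).2 = true then AddMonoidHom.id _ else 0

noncomputable def chain_chi (v : chain_E) : Bool := decide (chain_chiH v = 1)

theorem chain_chi_add (v : chain_E) (u : chain_Nd) :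
    chain_chi (v + Finsupp.single u 1) = xor (chain_chi v) (u.headD (0, false)).2 := by
  have h : ∀ (z : ZMod 2) (b : Bool),
      decide (z + (if b = true then 1 else 0) = 1) = xor (decide (z = 1)) b := by decide
  have h2 : chain_chiH (Finsupp.single u 1) = if (u.headD (0, false)).2 = true then 1 else 0 := by
    rw [chain_chiH, Finsupp.liftAddHom_apply_single]
    split_ifs <;> rfl
  rw [chain_chi, chain_chi, map_add, h2, h]

theorem chain_self (u : chain_Nd) :
    (Finsupp.single u 1 + Finsupp.single u 1 : chain_E) = 0 := by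
  rw [← Finsupp.single_add, show (1 + 1 : ZMod 2) = 0 by decide, Finsupp.single_zero]

theorem chain_supp {r : CS} {v : chain_E} {u : chain_Nd} (h : u ∈ (chain_pi r v).support) :
    ∃ u' ∈ v.support, chain_live r u' ∧ u'.tail = u := by
  rw [chain_pi_apply] at h
  obtain ⟨u', h1, h2⟩ := Finset.mem_image.1 (Finsupp.mapDomain_support h)
  rw [Finsupp.support_filter, Finset.mem_filter] at h1
  exact ⟨u', h1.1, h1.2, h2⟩

theorem chain_thread {r : CS} (hr : WF r) {w : ℕ → chain_E}
    (hw : ∀ d, w d + chain_pi r (w (d + 1)) = 0) (d : ℕ) : w d = 0 := by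
  have step : ∀ d u, u ∈ (w d).support →
      ∃ u' ∈ (w (d + 1)).support, chain_live r u' ∧ u'.tail = u := fun d u hu => by
    rw [eq_neg_of_add_eq_zero_left (hw d), Finsupp.support_neg] at hu
    exact chain_supp hu
  have key : ∀ a : ℕ, ∀ d f l, ((a, f) :: l) ∉ (w d).support := fun a => by
    induction a using hr.induction with
    | _ a ih =>
      intro d f l hu
      obtain ⟨u', h1, h2, h3⟩ := step d _ hu
      rcases u' with _ | ⟨⟨a', f'⟩, l'⟩
      · simp at h3
      · rw [List.tail_cons] at h3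
        subst h3
        exact ih a' h2.2 _ _ _ h1
  rw [← Finsupp.support_eq_empty, Finset.eq_empty_iff_forall_notMem]
  intro u hu
  obtain ⟨u', h1, h2, -⟩ := step d _ hu
  rcases u' with _ | ⟨⟨a', f'⟩, l'⟩
  · exact absurd h2.1 (by simp)
  · exact key _ _ _ _ h1

theorem chain_fin (v : chain_E) : ∃ N, ∀ r r' : CS, (∀ k < N, r' k = r k) →
    chain_pi r' v = chain_pi r v := by
  refine ⟨v.support.sup chain_cd + 1, fun r r' h => ?_⟩
  rw [chain_pi_apply, chain_pi_apply]
  refine congrArg _ (Finsupp.ext fun u => ?_)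
  rw [Finsupp.filter_apply, Finsupp.filter_apply]
  by_cases hu : u ∈ v.support
  · have : chain_live r' u ↔ chain_live r u := by
      rw [chain_live, chain_live, h _ (Nat.lt_succ_of_le (Finset.le_sup (f := chain_cd) hu))]
    simp only [this]
  · rw [Finsupp.notMem_support_iff.1 hu]
    simp

theorem chain_lc (v : chain_E) : IsLocallyConstant fun r : CS => chain_pi r v := by
  obtain ⟨N, hN⟩ := chain_fin v
  refine (IsLocallyConstant.iff_exists_open _).2 fun r =>
    ⟨⋂ k ∈ Finset.range N, {r' | r' k = r k}, ?_, by simp, fun r' hr' => hN r r' fun k hk => ?_⟩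
  · exact isOpen_biInter_finset fun k _ =>
      (isOpen_discrete {r k}).preimage (f := fun r' : CS => r' k) (continuous_apply k)
  · exact Set.mem_iInter₂.1 hr' k (Finset.mem_range.2 hk)

noncomputable def chain_c (r : CS) (y : ℕ → ℕ) (d : ℕ) : chain_E :=
  chain_dec (y d) + chain_pi r (chain_dec (y (d + 1)))

noncomputable def chain_c3 (r : CS) (Y : XX) : CS := fun i =>
  decide (chain_dec i.unpair.2 = chain_c r (Y i.unpair.1.unpair.1) i.unpair.1.unpair.2)

noncomputable def chain_lv (y : ℕ → ℕ) : CS :=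
  jn (fun i => decide (y i.unpair.1 = i.unpair.2)) fun d => chain_chi (chain_dec (y d))

noncomputable def chain_Rl : CS := fun i =>
  decide (∃ w : List Bool × ℕ × ℕ × ℕ × Bool, Encodable.encode w = i ∧ ∀ r, Ext w.1 r →
    chain_dec w.2.2.2.1 = chain_dec w.2.1 + chain_pi r (chain_dec w.2.2.1) ∧
      w.2.2.2.2 = chain_chi (chain_dec w.2.1))

def chain_Sol (n : ℕ) (B0 C : CS) : Prop :=
  (∀ u : ℕ × ℕ × ℕ, lf C (Nat.pair u.1 u.2.1) = true → lf C (Nat.pair u.1 u.2.2) = true →
    u.2.1 = u.2.2) ∧
  ∀ d : ℕ, ∃ w : List Bool × ℕ × ℕ × ℕ × Bool, lf C (Nat.pair d w.2.1) = true ∧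
    lf C (Nat.pair (d + 1) w.2.2.1) = true ∧
    col B0 3 (Nat.pair (Nat.pair n d) w.2.2.2.1) = true ∧ Ext w.1 (col B0 2) ∧
    rt C d = w.2.2.2.2 ∧ col (col B0 1) 0 (Encodable.encode w) = true

theorem chain_meas_c3 : Measurable fun p : CS × XX => chain_c3 p.1 p.2 := by
  refine Continuous.measurable (continuous_pi fun i => ?_)
  have h1 : Continuous fun p : CS × ℕ => chain_dec.symm (chain_pi p.1 (chain_dec p.2)) :=
    continuous_prod_of_discrete_right.2 fun b =>
      ((chain_lc (chain_dec b)).comp chain_dec.symm).continuous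
  have h2 : ∀ n d, Continuous fun p : CS × XX => p.2 n d := fun n d => by fun_prop
  have h3 := (continuous_of_discreteTopology (f := fun q : ℕ × ℕ =>
    decide (chain_dec i.unpair.2 = chain_dec q.1 + chain_dec q.2))).comp
    ((h2 i.unpair.1.unpair.1 i.unpair.1.unpair.2).prodMk
      (h1.comp (continuous_fst.prodMk (h2 i.unpair.1.unpair.1 (i.unpair.1.unpair.2 + 1)))))
  refine h3.congr fun p => decide_eq_decide.2 ?_
  simp [chain_c]

theorem chain_meas_lv (n : ℕ) : Measurable fun Y : XX => chain_lv (Y n) := by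
  have h : ∀ d, Measurable fun Y : XX => Y n d := fun d => by fun_prop
  refine measurable_jn (measurable_pi_lambda _ fun i => ?_) (measurable_pi_lambda _ fun d => ?_)
  · exact (measurable_of_countable fun v : ℕ => decide (v = i.unpair.2)).comp (h _)
  · exact (measurable_of_countable fun v : ℕ => chain_chi (chain_dec v)).comp (h _)

theorem chain_de (Z : CS) :
    DE (jp (jp Z)) fun w : ℕ × ℕ × ℕ => chain_Sol w.1 (col Z w.2.1) (col Z w.2.2) := by
  have h1 : Pii fun z (w : ℕ × ℕ × ℕ) => ∀ u : ℕ × ℕ × ℕ,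
      lf (col z w.2.2) (Nat.pair u.1 u.2.1) = true → lf (col z w.2.2) (Nat.pair u.1 u.2.2) = true →
        u.2.1 = u.2.2 := by
    have c : CM fun z (q : (ℕ × ℕ × ℕ) × ℕ × ℕ × ℕ) => lf (col z q.1.2.2) :=
      (CM.id.col (by fun_prop)).lf
    exact Pii.all (P := fun z (w : ℕ × ℕ × ℕ) (u : ℕ × ℕ × ℕ) =>
      lf (col z w.2.2) (Nat.pair u.1 u.2.1) = true → lf (col z w.2.2) (Nat.pair u.1 u.2.2) = true →
        u.2.1 = u.2.2)
      (Pii.imp (c.bit (by fun_prop) (by fun_prop)) (Pii.imp (c.bit (by fun_prop) (by fun_prop))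
        (Pii.of_re (RE.ne (by fun_prop) (by fun_prop)))))
  have h2 : Sig fun z (q : (ℕ × ℕ × ℕ) × ℕ) => ∃ w : List Bool × ℕ × ℕ × ℕ × Bool,
      lf (col z q.1.2.2) (Nat.pair q.2 w.2.1) = true ∧
      lf (col z q.1.2.2) (Nat.pair (q.2 + 1) w.2.2.1) = true ∧
      col (col z q.1.2.1) 3 (Nat.pair (Nat.pair q.1.1 q.2) w.2.2.2.1) = true ∧
      Ext w.1 (col (col z q.1.2.1) 2) ∧ rt (col z q.1.2.2) q.2 = w.2.2.2.2 ∧
      col (col (col z q.1.2.1) 1) 0 (Encodable.encode w) = true := by
    have c : CM fun z (q : ((ℕ × ℕ × ℕ) × ℕ) × List Bool × ℕ × ℕ × ℕ × Bool) =>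
        col z q.1.1.2.2 := CM.id.col (by fun_prop)
    have b : CM fun z (q : ((ℕ × ℕ × ℕ) × ℕ) × List Bool × ℕ × ℕ × ℕ × Bool) =>
        col z q.1.1.2.1 := CM.id.col (by fun_prop)
    exact Sig.ex (Sig.and (c.lf.bit (by fun_prop) (by fun_prop))
      (Sig.and (c.lf.bit (by fun_prop) (by fun_prop))
      (Sig.and ((b.col (m := fun _ => 3) (by fun_prop)).bit (by fun_prop) (by fun_prop))
      (Sig.and ((b.col (m := fun _ => 2) (by fun_prop)).ext (by fun_prop))
      (Sig.and (c.rt.bit (by fun_prop) (by fun_prop))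
      (((b.col (m := fun _ => 1) (by fun_prop)).col (m := fun _ => 0) (by fun_prop)).bit
        (Computable.encode.comp Computable.snd) (by fun_prop)))))))
  exact (h1.de Z).up.and (DE.all (h2.de Z))

theorem chain_sol {r : CS} {Y : XX} {B0 : CS} (hr : WF r) (h1 : col (col B0 1) 0 = chain_Rl)
    (h2 : col B0 2 = r) (h3 : col B0 3 = chain_c3 r Y) (n : ℕ) (C : CS) :
    chain_Sol n B0 C ↔ C = chain_lv (Y n) := by
  rw [chain_Sol, h1, h2, h3]
  constructor
  · rintro ⟨hs, ht⟩
    choose w w1 w2 w3 w4 w5 w6 using ht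
    have e1 : ∀ d, (w d).2.2.1 = (w (d + 1)).2.1 := fun d =>
      hs (d + 1, _, _) (w2 d) (w1 (d + 1))
    have e2 : ∀ d, chain_dec (w d).2.2.2.1 =
        chain_dec (w d).2.1 + chain_pi r (chain_dec (w d).2.2.1) ∧
        (w d).2.2.2.2 = chain_chi (chain_dec (w d).2.1) := fun d => by
      obtain ⟨w', e, H⟩ := of_decide_eq_true (w6 d)
      rw [Encodable.encode_injective e] at H
      exact H r (w4 d)
    have e3 : ∀ d, chain_dec (w d).2.2.2.1 = chain_c r (Y n) d := fun d => by
      simpa [chain_c3] using w3 d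
    have e4 : ∀ d, (w d).2.1 = Y n d := fun d => by
      have := chain_thread hr (w := fun d => chain_dec (w d).2.1 - chain_dec (Y n d)) (fun d => by
        have := (e2 d).1
        rw [e3, e1, chain_c] at this
        rw [map_sub, sub_add_sub_comm, ← this, sub_self]) d
      exact chain_dec.injective (sub_eq_zero.1 this)
    funext i
    rw [chain_lv, jn]
    split_ifs with hi
    · have hc : C i = lf C (Nat.pair (i / 2).unpair.1 (i / 2).unpair.2) := by
        rw [Nat.pair_unpair, lf]
        exact congrArg C (by omega)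
      rw [hc, ← e4]
      by_cases h : (w (i / 2).unpair.1).2.1 = (i / 2).unpair.2
      · rw [decide_eq_true h, ← h]
        exact w1 _
      · rw [decide_eq_false h, Bool.eq_false_iff]
        exact fun h' => h (hs (_, _, _) (w1 _) h')
    · rw [← e4, ← (e2 _).2, ← w5, rt]
      exact congrArg C (by omega)
  · rintro rfl
    rw [chain_lv, lf_jn, rt_jn]
    refine ⟨fun u a b => ?_, fun d => ?_⟩
    · simp only [Nat.unpair_pair, decide_eq_true_eq] at a b
      rw [← a, ← b]
    · obtain ⟨N, hN⟩ := chain_fin (chain_dec (Y n (d + 1)))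
      refine ⟨(pre r N, Y n d, Y n (d + 1), chain_dec.symm (chain_c r (Y n) d),
        chain_chi (chain_dec (Y n d))), by simp, by simp, by simp [chain_c3], ext_pre r N, rfl,
        decide_eq_true ⟨_, rfl, fun r' hr' => ⟨?_, rfl⟩⟩⟩
      rw [Equiv.apply_symm_apply, chain_c, hN r r' (ext_pre_iff.1 hr')]

def chain_path (a : ℕ → ℕ) (t : CS) : ℕ → chain_Nd
  | 0 => [(a 0, t 0)]
  | d + 1 => (a (d + 1), t (d + 1)) :: chain_path a t d

theorem chain_path_head (a : ℕ → ℕ) (t : CS) (d : ℕ) :
    (chain_path a t d).headD (0, false) = (a d, t d) := by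
  cases d <;> rfl

theorem chain_path_lc (a : ℕ → ℕ) (d : ℕ) : IsLocallyConstant fun t => chain_path a t d := by
  have h : ∀ k, IsLocallyConstant fun t : CS => t k := fun k =>
    (IsLocallyConstant.iff_continuous _).2 (continuous_apply k)
  induction d with
  | zero => exact (h 0).comp fun b => [(a 0, b)]
  | succ d ih => exact (h (d + 1)).comp₂ ih fun b l => (a (d + 1), b) :: l

theorem chain_pi_path {r : CS} {a : ℕ → ℕ} (ha : ∀ d, r (Nat.pair (a (d + 1)) (a d)) = true)
    (t : CS) (d : ℕ) : chain_pi r (Finsupp.single (chain_path a t (d + 1)) 1) =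
      Finsupp.single (chain_path a t d) 1 := by
  have h : chain_live r (chain_path a t (d + 1)) := by
    refine ⟨by cases d <;> simp [chain_path], ?_⟩
    have e : (chain_path a t (d + 1)).tail = chain_path a t d := rfl
    rw [chain_cd, e, chain_path_head, chain_path_head]
    exact ha d
  rw [chain_pi_apply, Finsupp.filter_single_of_pos _ h, Finsupp.mapDomain_single]
  rfl

noncomputable def chain_act (a : ℕ → ℕ) (Y : XX) (t : ℕ → CS) : XX := fun n d =>
  chain_dec.symm (chain_dec (Y n d) + Finsupp.single (chain_path a (t n) d) 1)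

theorem exists_chain : Nonempty Chain := by
  refine ⟨⟨chain_Rl, chain_c3, fun Y n => chain_lv (Y n), chain_Sol, chain_meas_c3, chain_meas_lv,
    chain_de, fun r Y B0 hr h1 h2 h3 => chain_sol hr h1 h2 h3, fun r hr => ?_⟩⟩
  obtain ⟨a, ha⟩ : ∃ a : ℕ → ℕ, ∀ d, r (Nat.pair (a (d + 1)) (a d)) = true := by
    by_contra h
    exact hr (wellFounded_iff_isEmpty_descending_chain.2 ⟨fun f => h ⟨f.1, f.2⟩⟩)
  have hc : ∀ t, Continuous fun Y => chain_act a Y t := fun t =>
    continuous_pi fun n => continuous_pi fun d =>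
      (continuous_of_discreteTopology (f := fun v : ℕ =>
        chain_dec.symm (chain_dec v + Finsupp.single (chain_path a (t n) d) 1))).comp
        (show Continuous fun Y : XX => Y n d by fun_prop)
  have hi : ∀ t Y, chain_act a (chain_act a Y t) t = Y := fun t Y => by
    funext n d
    simp only [chain_act, Equiv.apply_symm_apply, add_assoc, chain_self, add_zero,
      Equiv.symm_apply_apply]
  refine ⟨chain_act a, hc, fun t => IsOpenMap.of_inverse (hc t) (hi t) (hi t), fun Y => ?_,
    fun Y t => ?_, fun Y t t' n h => ?_, fun Y t n => ?_⟩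
  · exact continuous_pi fun n => continuous_pi fun d =>
      ((((chain_path_lc a d).comp fun u => chain_dec.symm
        (chain_dec (Y n d) + Finsupp.single u 1)).comp_continuous (continuous_apply n))).continuous
  · have : ∀ n d, chain_c r (chain_act a Y t n) d = chain_c r (Y n) d := fun n d => by
      simp only [chain_c, chain_act, Equiv.apply_symm_apply, map_add, chain_pi_path ha]
      rw [add_add_add_comm, chain_self, add_zero]
    funext i
    simp only [chain_c3, this]
  · have : chain_act a Y t n = chain_act a Y t' n := by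
      funext d
      simp only [chain_act, h]
    simp only [this]
  · funext d
    simp only [chain_lv, rt_jn, xr, chain_act, Equiv.apply_symm_apply, chain_chi_add,
      chain_path_head]

end Pool.Agent.MinDeg
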