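import Pool.Agent.P.MP_f8f34d_lc.N.Defs

/-! Below every point of the base class there is a strictly simpler one with the same columns. -/

namespace Pool.Agent.MinDeg

open Pool.Agent.Lib.ComputableProp

/-- the finite constraints: prescribed bits and avoided values -/
def knQ (X : CS) (L : List (Bool × Bool)) : Prop := X ∈ PP ∧ ∀ k < L.length,
  X k = (L.getD k (false, false)).2 ∧ ¬ Ps k X k (L.getD k (false, false)).1

theorem kn_pii {α : Type} [Primcodable α] {F : CS → α → CS} (hF : CM F) {L : α → List (Bool × Bool)}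
    (hL : Computable L) : Pii (fun z a => knQ (F z a) (L a)) := by
  have hF' := hF.comp (g := fun w : α × ℕ => w.1) (by fun_prop)
  exact (pii_PP hF).and (Pii.all (Pii.imp (Sig.of_re (RE.lt (by fun_prop) (by fun_prop)))
    ((Pii.bit hF' (by fun_prop) (by fun_prop)).and
      (Pii.not (sig_Ps hF' (by fun_prop) (by fun_prop) (by fun_prop))))))

theorem knQ_snoc {X : CS} {L : List (Bool × Bool)} {b c : Bool} :
    knQ X (L ++ [(b, c)]) ↔ knQ X L ∧ X L.length = c ∧ ¬ Ps L.length X L.length b := by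
  unfold knQ
  rw [and_assoc]
  refine and_congr_right fun _ => ⟨fun h => ⟨fun k hk => ?_, ?_⟩, fun h k hk => ?_⟩
  · have := h k (by simp; omega)
    rwa [List.getD_append _ _ _ _ hk] at this
  · simpa using h L.length (by simp)
  · rcases (by simp at hk; omega : k < L.length ∨ k = L.length) with h1 | rfl
    · rw [List.getD_append _ _ _ _ h1]; exact h.1 k h1
    · simpa using h.2

theorem kn {E : CS} (hE : E ∈ PP) :
    ∃ Z ∈ PP, LeT Z E ∧ ¬ LeT E Z ∧ ∀ w, Cl Z (col E w) := by
  have hC : Pii (fun (z : CS) (a : List ℕ × List (Bool × Bool)) => ∃ X, (∀ k < a.1.length,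
      col X (a.1.getD k 0) = col (lf z) k) ∧ ∀ u : Bool × Bool, rt z 0 = u.1 → rt z 1 = u.2 →
        knQ X (a.2 ++ [u])) :=
    Pii.exC (P := fun z X (a : List ℕ × List (Bool × Bool)) => (∀ k < a.1.length,
      col X (a.1.getD k 0) = col (lf z) k) ∧ ∀ u : Bool × Bool, rt z 0 = u.1 → rt z 1 = u.2 →
        knQ X (a.2 ++ [u]))
      (Pii.and (Pii.all (Pii.imp (Sig.of_re (RE.lt (by fun_prop) (by fun_prop)))
        (Pii.eqC (CM.id.rt.col (by fun_prop)) (CM.id.lf.lf.col (by fun_prop)))))
        (Pii.all (Pii.imp (CM.id.lf.rt.bit (by fun_prop) (by fun_prop))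
          (Pii.imp (CM.id.lf.rt.bit (by fun_prop) (by fun_prop))
            (kn_pii CM.id.rt (by fun_prop))))))
  obtain ⟨κ, cκ, hκ⟩ := path_loc (P := fun A Y (a : List ℕ × List (Bool × Bool)) => ∃ X,
      (∀ k < a.1.length, col X (a.1.getD k 0) = col A k) ∧
      ∀ u : Bool × Bool, Y 0 = u.1 → Y 1 = u.2 → knQ X (a.2 ++ [u])) hC
    (μ := fun a => List.range a.1.length) (by fun_prop) (by
      rintro A A' Y a h ⟨X, h1, h2⟩
      exact ⟨X, fun k hk => (h1 k hk).trans (h k (List.mem_range.2 hk)), h2⟩)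
  obtain ⟨φ, cφ, hφ⟩ := exists_flex
  obtain ⟨ι, cι, hι⟩ := (kn_pii (α := List (Bool × Bool)) CM.id.rt Computable.id).index
  have c1 : CF E fun s : List ℕ × List (Bool × Bool) =>
      (s.1, s.2 ++ [(E (Nat.pair (κ s) 0), E (Nat.pair (κ s) 1))]) := by
    have a0 : ∀ j, CF E fun s : List ℕ × List (Bool × Bool) => E (Nat.pair (κ s) j) := fun j =>
      CF.compC (LeT.refl E) (by fun_prop)
    exact (CF.of_computable (f := fun w : (List ℕ × List (Bool × Bool)) × Bool × Bool =>
      (w.1.1, w.1.2 ++ [w.2])) (by fun_prop)).comp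
      ((CF.of_computable Computable.id).pair ((a0 0).pair (a0 1)))
  have c2 : Computable fun s : List ℕ × List (Bool × Bool) =>
      (s.1 ++ [φ (s.1, [], ι s.2)], s.2) :=
    c_pair (c_append (by fun_prop) (c_cons (cφ.comp (c_pair (by fun_prop) (c_pair (by fun_prop)
      (cι.comp (by fun_prop))))) (by fun_prop))) (by fun_prop)
  have c3 := (((CF.of_computable c2).comp c1).compC
    (g := fun w : ℕ × List ℕ × List (Bool × Bool) => w.2) (by fun_prop)).iter ([], [])
  obtain ⟨st, cs, s0, hs⟩ : ∃ st : ℕ → List ℕ × List (Bool × Bool), CF E st ∧ st 0 = ([], []) ∧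
      ∀ t, ∃ u, u = (E (Nat.pair (κ (st t)) 0), E (Nat.pair (κ (st t)) 1)) ∧
        st (t + 1) = ((st t).1 ++ [φ ((st t).1, [], ι ((st t).2 ++ [u]))], (st t).2 ++ [u]) :=
    ⟨_, c3, rfl, fun t => ⟨_, rfl, rfl⟩⟩
  have inv : ∀ t, (st t).1.length = t ∧ (st t).2.length = t ∧ ∃ X, knQ X (st t).2 ∧
      ∀ k < t, col X ((st t).1.getD k 0) = col E k := by
    intro t
    induction t with
    | zero =>
      obtain ⟨X, hX⟩ := PP_nonempty
      rw [s0]
      exact ⟨rfl, rfl, X, ⟨hX, by simp⟩, by simp⟩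
    | succ t ih =>
      obtain ⟨l1, l2, X, x1, x2⟩ := ih
      obtain ⟨u, hu, e⟩ := hs t
      obtain ⟨y, hy⟩ := exists_ag (st t).2.length X
      obtain ⟨X', y1, y2⟩ := hκ E hE (st t)
        ⟨fun n => if n = 0 then !y (st t).2.length else X (st t).2.length, X,
          fun k hk => x2 k (l1 ▸ hk), by
            rintro ⟨b, c⟩ h1 h2
            simp only [if_true, one_ne_zero, if_false] at h1 h2
            refine knQ_snoc.2 ⟨x1, h2, fun k => ?_⟩
            have := hy _ _ k
            rw [← h1] at this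
            simp at this⟩
      have y3 : knQ X' ((st t).2 ++ [u]) := y2 u (by rw [hu]; rfl) (by rw [hu]; rfl)
      obtain ⟨X'', z1, z2, z3, z4⟩ := hφ (st t).1 [] (ι ((st t).2 ++ [u])) (lev (st t).1 X')
        (fun B _ => ⟨X', y3.1, rfl, (hι _ _).2 (by simpa using y3)⟩) (col E t) (ext_nil _)
      rw [e]
      refine ⟨by simp [l1], by simp [l2], X'', by simpa using (hι _ _).1 z3, fun k hk => ?_⟩
      rcases (by omega : k < t ∨ k = t) with h | rfl
      · dsimp only
        rw [List.getD_append _ _ _ _ (by omega), ← y1 k (by omega)]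
        refine lev_eq_iff.1 z2 _ ?_
        rw [List.getD_eq_getElem _ _ (by omega)]
        exact List.getElem_mem _
      · dsimp only
        rw [List.getD_append_right _ _ _ _ l1.le, l1, Nat.sub_self]
        exact z4
  have stab : ∀ k t, k + 1 ≤ t → (st t).1.getD k 0 = (st (k + 1)).1.getD k 0 ∧
      (st t).2.getD k (false, false) = (st (k + 1)).2.getD k (false, false) := by
    intro k t h
    induction t, h using Nat.le_induction with
    | base => exact ⟨rfl, rfl⟩
    | succ t h ih =>
      obtain ⟨u, -, e⟩ := hs t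
      have l1 := (inv t).1
      have l2 := (inv t).2.1
      rw [e]
      dsimp only
      rw [List.getD_append _ _ _ _ (by omega), List.getD_append _ _ _ _ (by omega)]
      exact ih
  let Z : CS := fun k => ((st (k + 1)).2.getD k (false, false)).2
  have near : ∀ s : Set CS, IsClosed s → (∃ t0, ∀ t, t0 ≤ t → ∀ X, knQ X (st t).2 →
      (∀ k < t, col X ((st t).1.getD k 0) = col E k) → X ∈ s) → Z ∈ s := by
    rintro s hs ⟨t0, h⟩
    by_contra hn
    obtain ⟨n, hn'⟩ := exists_pre_of_isOpen hs.isOpen_compl (x := Z) hn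
    obtain ⟨-, l2, X, x1, x2⟩ := inv (n + t0)
    refine hn' n le_rfl X (ext_pre_iff.2 fun k hk => ?_) (h _ (by omega) X x1 x2)
    rw [(x1.2 k (by omega)).1, (stab k _ (by omega)).2]
  have cf : CF E fun k => (st (k + 1)).2.getD k (false, false) :=
    (CF.of_computable (f := fun w : ℕ × List ℕ × List (Bool × Bool) =>
      w.2.2.getD w.1 (false, false)) (by fun_prop)).comp
      ((CF.of_computable Computable.id).pair (cs.compC (by fun_prop)))
  refine ⟨Z, near _ ((pii_PP (α := Unit) CM.id).isClosed ()) ⟨0, fun t _ X h _ => h.1⟩,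
    (CF.of_computable Computable.snd).comp cf, fun h => ?_, fun w => ⟨(st (w + 1)).1.getD w 0, ?_⟩⟩
  · have h1 : LeT (fun k => ((st (k + 1)).2.getD k (false, false)).1) Z :=
      LeT.trans ((CF.of_computable Computable.fst).comp cf) h
    obtain ⟨e, h2, h3⟩ := h1.exists_fun
    obtain ⟨b, hb⟩ := h2 e
    have h4 := near {X | ¬ Ps e X e b} ((Pii.not (sig_Ps (α := Unit) CM.id (Computable.const e)
      (Computable.const e) (Computable.const b))).isClosed ()) ⟨e + 1, fun t ht X x1 _ => by
        have := (x1.2 e (by have := (inv t).2.1; omega)).2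
        have h5 : ((st (e + 1)).2.getD e (false, false)).1 = b := h3 e b hb
        rwa [(stab e t ht).2, h5] at this⟩
    exact h4 hb
  · refine near {X | col X ((st (w + 1)).1.getD w 0) = col E w} (isClosed_eq ?_ continuous_const)
      ⟨w + 1, fun t ht X _ x2 => by rw [← (stab w t ht).1]; exact x2 w ht⟩
    exact continuous_pi fun n => continuous_apply _

end Pool.Agent.MinDeg
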