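import Pool.Agent.P.MP_f8f34d_lc.N.MMa

/-! From a Scott enumeration to a point of the base class with the same columns. -/

namespace Pool.Agent.MinDeg.MM

open Pool.Agent.Lib.ComputableProp Sol Filter

/-- entry: column of the system, node, bound, height -/
abbrev Me : Type := ℕ × List Bool × ℕ × ℕ

def tr (R : CS) (a : Me) : CS := col (col R a.1) (Encodable.encode a.2.1)

theorem cm_tr {α : Type} [Primcodable α] {a : α → Me} (ha : Computable a) :
    CM (fun z w => tr z (a w)) := (CM.id.col (by fun_prop)).col (by fun_prop)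

theorem mm_ext (R : CS) (e0 : Me) : ∃ E : List Bool × List Me → List Bool × ℕ, CF R E ∧
    ∀ w, ∃ b, (E w).1 = w.1 ++ [b] ∧
      (∀ i < (E w).2, tr R (en e0 w.2 i) (Encodable.encode (E w).1) = true) ∧
      ∀ n ≤ w.2.length, ∀ c, (∀ i ≤ n, tr R (en e0 w.2 i) (Encodable.encode (w.1 ++ [c])) = true) →
        n < (E w).2 := by
  have ce : Computable fun w : (((List Bool × List Me) × ℕ) × Bool) × ℕ => en e0 w.1.1.1.2 w.2 := by
    unfold en; fun_prop
  have hD : DE R fun w : ((List Bool × List Me) × ℕ) × Bool => ∀ i < w.1.2,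
      tr R (en e0 w.1.1.2 i) (Encodable.encode (w.1.1.1 ++ [w.2])) = true :=
    DE.forall_lt (l := fun w : ((List Bool × List Me) × ℕ) × Bool => w.1.2) (by fun_prop)
      ⟨((cm_tr ce).bit (by fun_prop) (by fun_prop)).se R,
        (Pii.bit (cm_tr ce) (by fun_prop) (by fun_prop)).neg.se R⟩
  obtain ⟨N, hN, H⟩ := solE_max (x := R) (OK := fun (w : List Bool × List Me) m =>
      (∀ i < m, tr R (en e0 w.2 i) (Encodable.encode (w.1 ++ [true])) = true) ∨
      ∀ i < m, tr R (en e0 w.2 i) (Encodable.encode (w.1 ++ [false])) = true)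
    (l := fun w => w.2.length + 1) (by fun_prop)
    ((hD.comp (f := fun u : (List Bool × List Me) × ℕ => (u, true)) (by fun_prop)).or
      (hD.comp (f := fun u : (List Bool × List Me) × ℕ => (u, false)) (by fun_prop)))
    fun _ => Or.inl (by simp)
  obtain ⟨Bt, hB, HB⟩ := SE.unif (y := R) (R := fun (w : List Bool × List Me) (b : Bool) =>
      ∀ i < N w, tr R (en e0 w.2 i) (Encodable.encode (w.1 ++ [b])) = true)
    (hD.1.compCF (f := fun u : (List Bool × List Me) × Bool => ((u.1, N u.1), u.2))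
      (((CF.of_computable Computable.fst).pair (hN.compC Computable.fst)).pair
        (CF.of_computable Computable.snd)))
    fun w => (H w).1.elim (fun h => ⟨_, h⟩) fun h => ⟨_, h⟩
  refine ⟨fun w => (w.1 ++ [Bt w], N w), CF.pair ((CF.of_computable
    (f := fun u : (List Bool × List Me) × Bool => u.1.1 ++ [u.2]) (by fun_prop)).comp
      ((CF.of_computable Computable.id).pair hB)) hN, fun w => ⟨_, rfl, HB w, fun n hn c hc => ?_⟩⟩
  refine (H w).2 (n + 1) (by omega) ?_
  cases c
  · exact Or.inr fun i hi => hc i (by omega)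
  · exact Or.inl fun i hi => hc i (by omega)

theorem ext_snoc {σ τ : List Bool} {X : CS} (h : Ext σ X) (k : Ext τ (fun n =>
    (σ ++ [X σ.length]).getD n false)) (l : τ.length ≤ σ.length + 1) : Ext τ X := fun i hi => by
  rw [← k i hi]
  rcases (by omega : i < σ.length ∨ i = σ.length) with g | rfl
  · beta_reduce
    rw [List.getD_append _ _ _ _ g, h i g]
  · simp

end Pool.Agent.MinDeg.MM

namespace Pool.Agent.MinDeg

open Pool.Agent.Lib.ComputableProp Sol Filter MM

theorem mm {R : CS} (hR : Scott R) : ∃ E ∈ PP, LeT E R ∧ ∀ w, Cl E (col R w) := by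
  obtain ⟨z, hz⟩ := rich_PP
  obtain ⟨e0, j0, t0⟩ : ∃ e0 : Me, e0.2.2 = (0, 0) ∧ TG z (tr R e0) (fun X => X ∈ PP) 0 [] := by
    obtain ⟨X0, h0⟩ := PP_nonempty
    obtain ⟨T, hT⟩ := exists_TG hz h0 (ext_nil X0)
    obtain ⟨w, hw⟩ := scott_use hR (P := fun _ _ Y (_ : Unit) =>
      TG z (col Y (Encodable.encode ([] : List Bool))) (fun X => X ∈ PP) 0 [])
      (pii_TG z (CM.id.rt.col (by fun_prop)) (C := fun _ _ X => X ∈ PP) (pii_PP CM.id.rt)
        (by fun_prop) (by fun_prop)) 0 0 () ⟨fun p => T p.unpair.2, by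
          have : col (fun p => T p.unpair.2) (Encodable.encode ([] : List Bool)) = T := by
            funext k; simp [col]
          rwa [this]⟩
    exact ⟨(w, [], 0, 0), rfl, hw⟩
  let A : Me → ℕ → Prop := fun a u => Sys z (tr R a) (col R a.2.2.2) (col R u) a.2.2.1
  obtain ⟨G, hG, HG⟩ := limit (x := R) (R := A) ((Pii.de (pii_Sys z (cm_tr Computable.fst)
    (CM.id.col (m := fun w : Me × ℕ => w.1.2.2.2) (by fun_prop))
    (CM.id.col (m := fun w : Me × ℕ => w.2) (by fun_prop))
    (N := fun w : Me × ℕ => w.1.2.2.1) (by fun_prop)) R).1) 0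
  obtain ⟨E, cE, HE⟩ := mm_ext R e0
  obtain ⟨st, cs, s0, hs⟩ := stack_run (val := fun a : Me => a.1) Computable.fst
    (mk := fun w : ℕ × Me × List Bool × ℕ => ((w.1, w.2.2.1, fr z w.2.2.1 w.2.1.2.2.1 + 1, w.2.2.2) : Me))
    (by unfold fr; fun_prop) hG cE e0 []
  let Lim : Me → Me → Prop := fun a c => A a c.1 ∧ ∀ᶠ s in atTop, G (a, s) = c.1
  let W : Me → ℕ → Prop := fun a i => a.2.2.2 = i ∧ Rich z {X | Pth (tr R a) X} a.2.2.1 ∧
    ∀ σ : List Bool, tr R a (Encodable.encode σ) = true → ∃ X, Ext σ X ∧ Pth (tr R a) X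
  let J : List Bool → List Me → Prop := fun σ S => ∀ n, Cr e0 Lim S n → ∀ i ≤ n,
    W (en e0 S i) i ∧ tr R (en e0 S i) (Encodable.encode σ) = true ∧
    ∀ X, Pth (tr R (en e0 S i)) X → ∀ j < i, Pth (tr R (en e0 S j)) X ∧ Cl X (col R j)
  have push : ∀ σ (S : List Me) n u, J σ S → n ≤ S.length →
      J σ (S.take n ++ [(u, σ, fr z σ (en e0 S n).2.2.1 + 1, n + 1)]) := by
    intro σ S n u hJ hn m hm i him
    generalize hb : ((u, σ, fr z σ (en e0 S n).2.2.1 + 1, n + 1) : Me) = b at hm ⊢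
    have hlen : (S.take n).length = n := by simp [hn]
    have e1 : ∀ i ≤ n, en e0 (S.take n ++ [b]) i = en e0 S i := fun i hi => by
      rw [en_append _ _ _ (by omega), en_take _ _ hi]
    have e2 : en e0 (S.take n ++ [b]) (n + 1) = b := by
      have := en_last e0 (S.take n) b
      rwa [hlen] at this
    have hm1 : m ≤ n + 1 := by simpa [hn] using hm.1
    rcases (by omega : i ≤ n ∨ i = n + 1) with h | rfl
    · rw [e1 i h]
      obtain ⟨a1, a2, a3⟩ := hJ i ((hm.mono him).congr (by omega)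
        fun j hj => (e1 j (by omega)).symm) i le_rfl
      exact ⟨a1, a2, fun X hX j hj => by rw [e1 j (by omega)]; exact a3 X hX j hj⟩
    · have c1 : Cr e0 Lim S n := (hm.mono (by omega)).congr hn fun j hj => (e1 j hj).symm
      have c2 := (hm.2 n (by omega)).1
      obtain ⟨⟨c3, -⟩, c4, c5⟩ := hJ n c1 n le_rfl
      rw [e1 n le_rfl, e2, ← hb] at c2
      have c6 := c2 σ c4
      rw [e2, ← hb]
      refine ⟨⟨rfl, c6.rich, fun τ hτ => (c6.2.1 τ hτ).imp fun X h => h.2⟩, c6.1, fun X hX j hj => ?_⟩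
      obtain ⟨d1, d2⟩ := c6.sub ((closed_Pth _).inter (closed_col _ _)) hX
      rw [hb, e1 j (by omega)]
      rcases (by omega : j < n ∨ j = n) with g | rfl
      · exact c5 X d1 j g
      · exact ⟨d1, _, by rw [d2, c3]⟩
  have keep : ∀ σ S, J σ S → ∀ n, Cr e0 Lim S n → n < (E (σ, S)).2 := by
    intro σ S hJ n hn
    obtain ⟨b, -, -, h⟩ := HE (σ, S)
    obtain ⟨⟨-, -, a1⟩, a2, a3⟩ := hJ n hn n le_rfl
    obtain ⟨X, x1, x2⟩ := a1 σ a2
    have x3 : Ext (σ ++ [X σ.length]) X := ext_snoc x1 (fun _ _ => rfl) (by simp)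
    refine h n hn.1 (X σ.length) fun i hi => ?_
    rcases hi.eq_or_lt with rfl | g
    · exact x2 _ x3
    · exact (a3 X x2 i g).1 _ x3
  have inv : ∀ t, (st t).1.length = t ∧ J (st t).1 (st t).2 := by
    intro t
    induction t with
    | zero =>
      rw [s0]
      refine ⟨rfl, fun n hn i hi => ?_⟩
      obtain rfl : i = 0 := by have := hn.1; simp at this; omega
      refine ⟨⟨congrArg Prod.snd j0, ?_, fun τ hτ => (t0.2.1 τ hτ).imp fun X h => h.2⟩, t0.1, by simp⟩
      have : (en e0 [] 0).2.2.1 = 0 := congrArg Prod.fst j0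
      rw [this]
      exact t0.rich
    | succ t ih =>
      obtain ⟨n, b, s1, -, -, rfl, s2⟩ := hs t
      have hJ := push _ _ n (G (en e0 (st t).2 n, t)) ih.2 s1
      rw [s2]
      dsimp only at hJ ⊢
      generalize List.take n (st t).2 ++ [_] = S at hJ ⊢
      obtain ⟨b, b1, b2, -⟩ := HE ((st t).1, S)
      refine ⟨by rw [b1]; simp [ih.1], fun m hm i hi => ?_⟩
      have h1 := hm.1
      rw [List.length_take] at h1
      have h2 : ∀ j ≤ m, en e0 (S.take ((E ((st t).1, S)).2 - 1)) j = en e0 S j := fun j hj =>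
        en_take e0 _ (le_trans hj (le_trans h1 (min_le_left _ _)))
      have hm' := hm.congr (le_trans h1 (min_le_right _ _)) fun j hj => (h2 j hj).symm
      obtain ⟨a1, -, a3⟩ := hJ m hm' i hi
      rw [h2 i hi]
      exact ⟨a1, b2 i (hi.trans_lt (keep _ _ hJ m hm')), fun X hX j hj => by
        rw [h2 j (by omega)]; exact a3 X hX j hj⟩
  obtain ⟨a, ha⟩ := stack e0 (fun a : Me => a.1) G A (fun t => (st t).2) (fun t => by
      obtain ⟨n, b, s1, s2, s3, s4, s5⟩ := hs t
      refine ⟨n, b, s1, s2, s3, by rw [s4], fun m hm => ?_⟩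
      have hJ := push _ _ n (G (en e0 (st t).2 n, t)) (inv t).2 s1
      dsimp only at s4
      rw [← s4] at hJ
      have h1 := keep _ _ hJ m hm
      have h2 := hm.1
      rw [s5]
      exact ⟨by rw [List.length_take]; omega, fun i hi => en_take e0 _ (by omega)⟩)
    fun t n hn => Exists.imp (fun _ h => ⟨h.1, eventually_atTop.2 h.2⟩) (HG _ (by
      obtain ⟨⟨-, a1, a2⟩, -⟩ := (inv t).2 n hn n le_rfl
      exact scott_use hR (P := fun U V Y (w : ℕ × ℕ) => Sys z (col U w.1) V Y w.2)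
        (pii_Sys z (CM.id.lf.lf.col (by fun_prop)) CM.id.lf.rt CM.id.rt (by fun_prop)) _ _
        (Encodable.encode (en e0 (st t).2 n).2.1, (en e0 (st t).2 n).2.2.1) (exists_Sys a1 a2 _)))
  have stab : ∀ k t, k + 1 ≤ t → (st t).1.getD k false = (st (k + 1)).1.getD k false := by
    intro k t h
    induction t, h using Nat.le_induction with
    | base => rfl
    | succ t h ih =>
      obtain ⟨n, b, -, -, -, -, s2⟩ := hs t
      obtain ⟨c, c1, -⟩ := HE ((st t).1, (st t).2.take n ++ [b])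
      rw [s2]
      dsimp only at c1 ⊢
      rw [c1, List.getD_append _ _ _ _ (by have := (inv t).1; omega)]
      exact ih
  have pth : ∀ i, Pth (tr R (a i)) fun k => (st (k + 1)).1.getD k false := by
    intro i σ hσ
    obtain ⟨t, ⟨h1, h2⟩, h3⟩ := ((ha i).and (eventually_ge_atTop σ.length)).exists
    obtain ⟨⟨-, -, a1⟩, a2, -⟩ := (inv t).2 i h1 i le_rfl
    rw [h2 i le_rfl] at a1 a2
    obtain ⟨X, x1, x2⟩ := a1 _ a2
    refine x2 σ fun k hk => ?_
    rw [x1 k (by have := (inv t).1; omega), stab k t (by omega)]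
    exact hσ k hk
  refine ⟨fun k => (st (k + 1)).1.getD k false, ?_, (CF.of_computable
    (f := fun w : ℕ × List Bool × List Me => w.2.1.getD w.1 false) (by fun_prop)).comp
      ((CF.of_computable Computable.id).pair (cs.compC (by fun_prop))), fun w => ?_⟩
  · obtain ⟨t, -, h2⟩ := (ha 0).exists
    have := pth 0
    rw [← h2 0 le_rfl] at this
    exact t0.sub ((pii_PP (α := Unit) CM.id).isClosed ()) this
  · obtain ⟨t, h1, h2⟩ := (ha (w + 1)).exists
    have := pth (w + 1)
    rw [← h2 _ le_rfl] at this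
    exact (((inv t).2 _ h1 _ le_rfl).2.2 _ this w (by omega)).2

end Pool.Agent.MinDeg
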