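import Pool.Agent.P.MP_f8f34d_lc.N.PaCl

/-! The sets represented with parameters in a nonstandard model form a Scott set. -/

namespace Pool.Agent.MinDeg.Pa

open FirstOrder FirstOrder.Language Pool.Agent.Lib.ComputableProp

/-- two new parameters in front -/
def scV {M : Type} (a b : M) (v : ℕ → M) : ℕ → M := fun k =>
  if k = 0 then a else if k = 1 then b else v (k - 2)

theorem Rps.path {M : Type} [LA.Structure M] (h : PM M) (hns : ∃ c : M, ∀ n, c ≠ num n) {O : CS}
    (hO : Rps M O) {a0 : ℕ} (hY : ∃ Y, MinDeg.jn O Y ∈ K a0) :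
    ∃ Y, Rps M Y ∧ MinDeg.jn O Y ∈ K a0 := by
  classical
  obtain ⟨P, v, uP, hP⟩ := hO
  obtain ⟨Y, hY⟩ := hY
  obtain ⟨St, s1, s2, -, s4⟩ := sig_Un.stage
  have u2 : UD fun _ _ w => Bt (w 1) (w 2) (w 0) zM := UD.bt (.var 1) (.var 2) (.var 0) .zero
  obtain ⟨J, uJ, hJ⟩ := rel_jn (P := fun M _ v a => P M (fun i => v (i + 2)) a)
    (P' := fun _ _ v a => Bt (v 0) (v 1) a zM) (uP.app 0 fun i => i + 2 + 1) u2
  obtain ⟨Q, uQ, hQ⟩ := rel uJ
    (E := fun x s β => (St x (a0, s) ∧ β = true) ∨ (¬ St x (a0, s) ∧ β = false))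
    (Sig.or (Sig.and (s1.comp (f := fun w : ℕ × Bool => (a0, w.1)) (by fun_prop))
      (Sig.of_re (RE.eq (by fun_prop) (by fun_prop))))
      (Sig.and (Sig.comp (f := fun w : ℕ × Bool => (a0, w.1)) s2 (by fun_prop))
        (Sig.of_re (RE.eq (by fun_prop) (by fun_prop)))))
  let Z : M → M → CS := fun a b n => decide (Bt a b (num n) zM)
  have hZ : ∀ a b n, Z a b n = true ↔ Bt a b (num n) zM := fun a b n => by simp [Z]
  have key : ∀ a b s, Q M (scV a b v) (num s) ↔ St (MinDeg.jn O (Z a b)) (a0, s) := fun a b s => by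
    have e : (fun i => scV a b v (i + 2)) = v := funext fun i => by simp [scV]
    have := hQ M h.qa (scV a b v) _ (hJ M h.qa (scV a b v) O (Z a b) (by simpa only [e] using hP)
      (fun n => by simpa [scV] using hZ a b n)) s (by simp)
    by_cases e : St (MinDeg.jn O (Z a b)) (a0, s)
    · exact iff_of_true ((this true (Or.inl ⟨e, rfl⟩)).2 rfl) e
    · exact iff_of_false (fun k => by simpa using (this false (Or.inr ⟨e, rfl⟩)).1 k) e
  have uθ : UDq fun M _ v y => ∃ a b, ∀ i, lM i y → ¬ Q M (scV a b v) i := by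
    refine .ex (.ex (.all (.imp (.lt (.var 0) (.var 3)) (.not ?_))))
    refine (uQ.app 0 fun k => if k = 0 then 2 else if k = 1 then 1 else k + 2).of_iff
      fun M _ w => iff_of_eq (congrArg (Q M · (w 0)) (funext fun k => ?_))
    unfold scV
    split_ifs with h0 h1
    · rfl
    · rfl
    · exact congrArg w (by omega)
  obtain ⟨y, hy, a, b, H⟩ := h.spill hns uθ v fun s => by
    have ho : IsOpen {x | ∀ i < s, ¬ St x (a0, i)} :=
      (Sig.forall_lt (P := fun x (_ : ℕ) i => ¬ St x (a0, i)) (l := fun s : ℕ => s) (by fun_prop)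
        (Sig.comp (f := fun w : ℕ × ℕ => (a0, w.2)) s2 (by fun_prop))).isOpen s
    obtain ⟨m, hm⟩ := exists_pre_of_isOpen ho (x := MinDeg.jn O Y)
      fun i _ hi => hY ((s4 _ _).2 ⟨i, hi⟩)
    obtain ⟨a, b, -, H⟩ := h.exists_bt (fun i => if Y i = true then zM else oM) m
    have hz : ∀ k < m, Z a b k = Y k := fun k hk => by
      have := H k hk
      rw [Bool.eq_iff_iff, hZ]
      by_cases e : Y k = true
      · rw [if_pos e] at this
        exact iff_of_true this e
      · rw [if_neg e] at this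
        exact iff_of_false (fun e' => h.one_ne (h.bt_unique this e')) e
    have := hm m le_rfl (MinDeg.jn O (Z a b)) (ext_pre_iff.2 fun k hk => by
      unfold MinDeg.jn
      split_ifs
      · rfl
      · exact hz _ (by omega))
    refine ⟨a, b, fun i hi => ?_⟩
    obtain ⟨k, hk, rfl⟩ := (rep_lt_num h.qa _ _).1 hi
    rw [key]
    exact this k hk
  refine ⟨Z a b, rps_bt a b (hZ a b), fun hU => ?_⟩
  obtain ⟨s, hs⟩ := (s4 _ _).1 hU
  exact H _ (hy s) ((key a b s).2 hs)

end Pool.Agent.MinDeg.Pa
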