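import Pool.Agent.P.MP_f8f34d_lc.N.Defs
import Pool.Agent.P.MP_f8f34d_lc.N.PaSc
import Pool.Agent.P.MP_f8f34d_lc.Val

/-! What is used about models of arithmetic (section 1 of the paper). -/

namespace Pool.Agent.MinDeg

open FirstOrder FirstOrder.Language Pa Pool.Agent.Lib.ComputableProp

theorem n_df (φ : Fm) (M : Type) [LA.Structure M] (n : ℕ) :
    df φ M n = true ↔ Sat (M := M) φ [num n] := by
  simp [df]

theorem n_fm {Q : UQ} (h : UDq Q) : ∃ ρ : Fm, ∀ (M : Type) [LA.Structure M] (n : ℕ),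
    df ρ M n = true ↔ Q M (fun _ => num n) (num n) := by
  obtain ⟨ρ, hρ⟩ := UD.one h
  exact ⟨ρ, fun M _ n => (n_df ρ M n).trans (hρ M _).symm⟩

theorem n_join (φ ψ : Fm) : ∃ χ : Fm, ∀ (M : Type) [LA.Structure M], PM M →
    df χ M = jn (df φ M) (df ψ M) := by
  obtain ⟨Q, uQ, hQ⟩ := rel_jn (UDq.fm φ) (UDq.fm ψ)
  obtain ⟨χ, hχ⟩ := n_fm uQ
  refine ⟨χ, fun M _ h => funext fun n => Bool.eq_iff_iff.2 ((hχ M n).trans ?_)⟩
  exact (hQ M h.qa _ _ _ (n_df φ M) (n_df ψ M) n).symm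

/-- REL without parameters -/
theorem n_rel0 (φ : Fm) {E : CS → ℕ → Bool → Prop} (hE : Sig fun x (w : ℕ × Bool) => E x w.1 w.2) :
    ∃ ρ : Fm, ∀ (M : Type) [LA.Structure M], PM M → ∀ e,
      ¬ (E (df φ M) e true ∧ E (df φ M) e false) → ∀ b, E (df φ M) e b → df ρ M e = b := by
  obtain ⟨Q, uQ, hQ⟩ := rel (UDq.fm φ) hE
  obtain ⟨ρ, hρ⟩ := n_fm uQ
  exact ⟨ρ, fun M _ h e hs b hb => Bool.eq_iff_iff.2
    ((hρ M e).trans (hQ M h.qa _ _ (n_df φ M) e hs b hb))⟩

/-- REL without parameters, for the universal functional -/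
theorem n_rel (φ : Fm) : ∃ ρ : Fm, ∀ (M : Type) [LA.Structure M], PM M →
    ∀ e b, Ps e.unpair.1 (df φ M) e b → df ρ M e = b := by
  obtain ⟨ρ, hρ⟩ := n_rel0 φ (E := fun x e b => Ps e.unpair.1 x e b)
    (sig_Ps CM.id (by fun_prop) (by fun_prop) (by fun_prop))
  exact ⟨ρ, fun M _ h e b hb => hρ M h e ps_single b hb⟩

theorem n_pow {M : Type} (P : Pre M) (k j c : ℕ) (v : ℕ → M) :
    sat P (k + j) (2 ^ j * c) v ↔ sat P k c v := by
  induction j with
  | zero => simp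
  | succ j ih => rw [← add_assoc, pow_succ', mul_assoc, sat_two_mul, ih]

theorem n_lev (φ : Fm) (k0 : ℕ) : ∃ k, k0 ≤ k ∧ ∃ q : ℕ → ℕ,
    ∀ (M : Type) [LA.Structure M], PM M → ∀ e, TK (PreLA M) k (q e) = df φ M e := by
  obtain ⟨k1, c1, h1⟩ := BK.fm φ 1
  obtain ⟨c, hc⟩ := BK.lift h1 k0
  refine ⟨k1 + k0, by omega, fun e => Encodable.encode
    (((true, c, [e + 1]) :: (true, 2 ^ (k1 + k0) * 5, [0]) :: (true, 2 ^ (k1 + k0) * 4, [1]) ::
      (List.range e).map fun i => (true, 2 ^ (k1 + k0) * 2, [i + 1, 0, i + 2])) : List Lt),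
    fun M _ _ e => ?_⟩
  generalize k1 + k0 = k at hc ⊢
  have p0 : ∀ c (v : ℕ → M), sat (PreLA M) k (2 ^ k * c) v ↔ PreLA M c (v 0) (v 1) (v 2) :=
    fun c v => by
      have := n_pow (PreLA M) 0 k c v
      rwa [Nat.zero_add] at this
  rw [Bool.eq_iff_iff, TK_iff, n_df]
  simp only [th, Hold, List.forall_mem_cons, List.forall_mem_map, List.mem_range, iff_true, p0,
    ← hc]
  simp only [PreLA, ren]
  constructor
  · rintro ⟨v, a1, a2, a3, a4⟩
    have key : ∀ i, i ≤ e → v (i + 1) = num i := by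
      intro i
      induction i with
      | zero => intro _; exact (by simpa using a3 : v 1 = zM)
      | succ i ih =>
        intro hi
        have := a4 i (by omega)
        simp at this a2
        rw [← this, ih (by omega), a2]
        rfl
    rw [← key e le_rfl]
    exact a1
  · intro h
    refine ⟨fun i => Nat.casesOn i oM num, ?_, by simp, ?_, fun i _ => ?_⟩
    · exact h
    · simp [num]
    · simp [num]

theorem n_dn {k k' : ℕ} (h : k ≤ k') : ∃ g : ℕ → ℕ,
    ∀ (M : Type) [LA.Structure M], ∀ n, TK (PreLA M) k n = TK (PreLA M) k' (g n) := by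
  obtain ⟨j, rfl⟩ := Nat.exists_eq_add_of_le h
  refine ⟨fun n => Encodable.encode ((decL n).map fun l => ((l.1, 2 ^ j * l.2.1, l.2.2) : Lt)),
    fun M _ n => ?_⟩
  rw [Bool.eq_iff_iff, TK_iff]
  refine (@decide_eq_true_iff _ (_)).trans ?_
  simp only [th, Hold, List.forall_mem_map, n_pow]

theorem n_sent (n : ℕ) : (∀ T, tg T n = false) ∨ ∃ k j, ∀ (M : Type) [LA.Structure M],
    tg (completeTheory LA M) n = TK (PreLA M) k j := by
  by_cases h : ∃ σ : LA.Sentence, gn σ = n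
  · obtain ⟨σ, rfl⟩ := h
    obtain ⟨k, c, hc⟩ := BK.fm (T1 Empty.elim 0 σ) 0
    refine Or.inr ⟨k, Encodable.encode [((true, c, []) : Lt)], fun M _ => ?_⟩
    rw [Bool.eq_iff_iff, TK_iff]
    simp only [th, Hold, List.forall_mem_cons, List.not_mem_nil, false_imp_iff, implies_true,
      and_true, iff_true, ← hc, tg, decide_eq_true_eq]
    constructor
    · rintro ⟨τ, h1, h2⟩
      rw [← enc_T1, ← enc_T1] at h2
      rw [← enc_inj h2]
      exact ⟨fun _ => zM, (sat_T1_sentence τ).2 h1⟩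
    · rintro ⟨_, h1⟩
      exact ⟨σ, (sat_T1_sentence σ).1 h1, rfl⟩
  · refine Or.inl fun T => ?_
    simp only [tg, decide_eq_false_iff_not]
    rintro ⟨σ, -, e⟩
    exact h ⟨σ, e⟩

theorem n_bit {x : CS} (T : Tab x) (φ : Fm) (c : ℕ) :
    x (ix φ.enc [numN c]) = @df φ ℕ (A x) c := by
  have ht := T.truth φ [numN c]
  rw [List.map_singleton, ← T.num_eq] at ht
  rw [Bool.eq_iff_iff, ← ht, @n_df φ ℕ (A x)]

theorem n_limit {F : ℕ → Set CS} (h1 : ∀ n, F (n + 1) ⊆ F n) (h2 : ∀ n, (F n).Nonempty)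
    (h3 : ∀ n, IsClosed (F n)) : ∃ x, ∀ n, x ∈ F n := by
  obtain ⟨x, hx⟩ := IsCompact.nonempty_iInter_of_sequence_nonempty_isCompact_isClosed F h1 h2
    (h3 0).isCompact h3
  exact ⟨x, Set.mem_iInter.1 hx⟩

theorem n_closed_tab : IsClosed {x | Tab x} := ⟨Sig.isOpen pi_tab ()⟩

theorem n_closed_bit (n : ℕ) (b : Bool) : IsClosed {x : CS | x n = b} :=
  isClosed_eq (continuous_apply n) continuous_const

theorem n_closed_all {ι : Sort _} {p : ι → CS → Prop} (h : ∀ i, IsClosed {x | p i x}) :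
    IsClosed {x | ∀ i, p i x} := by
  rw [Set.ofPred_forall]
  exact isClosed_iInter h

/-- initial segments of a string -/
def n_tk (w : List Bool) (j : ℕ) : List Bool := pre (fun i => w.getD i false) j

@[fun_prop] theorem n_ctk {α : Type} [Primcodable α] {f : α → List Bool} {g : α → ℕ}
    (hf : Computable f) (hg : Computable g) : Computable (fun a => n_tk (f a) (g a)) := by
  unfold n_tk pre; fun_prop

theorem n_tk_pre (C : CS) {n j : ℕ} (h : j ≤ n) : n_tk (pre C n) j = pre C j :=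
  pre_congr fun i hi => pre_getD C (by omega)

theorem n_ind : ∃ β : Fm, ∀ C : CS, ∃ (M : Type) (_ : LA.Structure M), PM M ∧ df β M = C := by
  obtain ⟨ρ, hρ⟩ := n_rel .fal
  have hN := c_numN
  obtain ⟨p, hp, ep⟩ : ∃ p : ℕ → ℕ, Computable p ∧ ∀ c, p c = ix ρ.enc [numN c] :=
    ⟨_, by fun_prop, fun _ => rfl⟩
  let w : ℕ → List Bool := fun e => relS (e.unpair.2)
  obtain ⟨i0, hi⟩ := exists_Ps (E := fun _ e b => ∀ y : CS, (Tab y ∧ ∀ j < (w e).length,
      y (p (Nat.pair e.unpair.1 (Nat.pair (Encodable.encode (n_tk (w e) j)) 0))) =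
        (w e).getD j false) → y (p e) = !b)
    (Sig.all (P := fun _ y (u : ℕ × Bool) => (Tab y ∧ ∀ j < (w u.1).length,
      y (p (Nat.pair u.1.unpair.1 (Nat.pair (Encodable.encode (n_tk (w u.1) j)) 0))) =
        (w u.1).getD j false) → y (p u.1) = !u.2)
      (Sig.imp (Pii.and (Pii.map (P := fun x (_ : Unit) => Tab x) pi_tab CM.id.rt
        (g := fun _ => ()) (by fun_prop)) (Pii.all (Pii.imp
          (Sig.of_re (RE.lt (by fun_prop) (by fun_prop)))
          (Pii.bit CM.id.rt (by fun_prop) (by fun_prop)))))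
        (CM.id.rt.bit (by fun_prop) (by fun_prop))))
  let ee : List Bool → ℕ := fun σ => Nat.pair i0 (Nat.pair (Encodable.encode σ) 0)
  obtain ⟨β, hβ⟩ := n_rel0 ρ (E := fun x n b => ∃ σ : List Bool,
      (∀ j < n, x (ee (n_tk σ j)) = σ.getD j false) ∧ x (ee (n_tk σ n)) = b)
    (Sig.ex (Sig.and (Sig.forall_lt (by fun_prop) (Sig.bit (by fun_prop) (by fun_prop)))
      (Sig.bit (by fun_prop) (by fun_prop))))
  refine ⟨β, fun C => ?_⟩
  have hb : ∀ y, Tab y → ∀ c, y (p c) = @df ρ ℕ (A y) c := fun y T c => by rw [ep, n_bit T]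
  obtain ⟨y, hy⟩ := n_limit (F := fun n => {y | Tab y ∧ ∀ j < n, y (p (ee (pre C j))) = C j})
    (fun n y hy => ⟨hy.1, fun j hj => hy.2 j (by omega)⟩) (fun n => by
      induction n with
      | zero =>
        let _ := natS
        have hp := pm_of_model natS_model_PA
        obtain ⟨x, T, -⟩ := exists_tab hp.qa hp.lnp
        exact ⟨x, T, fun j hj => absurd hj (Nat.not_lt_zero j)⟩
      | succ n ih =>
        by_contra hc
        obtain ⟨y, T, hy⟩ := ih
        have e1 : w (ee (pre C n)) = pre C n := by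
          simp only [w, ee, Nat.unpair_pair, relS_pair]
        have e2 : (ee (pre C n)).unpair.1 = i0 := by simp only [ee, Nat.unpair_pair]
        obtain ⟨b, h1⟩ := (hi zz (ee (pre C n))).2 (C n) fun x hx => by
          rw [e1, e2, pre_length] at hx
          rw [Bool.eq_not_iff]
          intro hn
          refine hc ⟨x, hx.1, fun j hj => ?_⟩
          rcases Nat.lt_succ_iff_lt_or_eq.1 hj with hj | rfl
          · have := hx.2 j hj
            rwa [n_tk_pre C hj.le, pre_getD C hj] at this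
          · exact hn
        have h2 := (hi _ _).1 b h1 y (by
          rw [e1, e2, pre_length]
          exact ⟨T, fun j hj => by rw [n_tk_pre C hj.le, pre_getD C hj]; exact hy j hj⟩)
        have h3 := @hρ ℕ (A y) (@PM.mk ℕ (A y) T.qa T.lnp) (ee (pre C n)) b (by
          have e3 : @df .fal ℕ (A y) = zz := funext fun n => by simp [df, zz]
          rw [e2, e3]
          exact h1)
        rw [hb y T, h3] at h2
        simp at h2)
    (fun n => n_closed_tab.inter (n_closed_all fun j => n_closed_all fun _ => n_closed_bit _ _))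
  have T := (hy 0).1
  let _ := A y
  have h : PM ℕ := ⟨T.qa, T.lnp⟩
  have hO : ∀ j, df ρ ℕ (ee (pre C j)) = C j := fun j => by
    rw [← hb y T]; exact (hy (j + 1)).2 j (by omega)
  have key : ∀ n b, (∃ σ : List Bool, (∀ j < n, df ρ ℕ (ee (n_tk σ j)) = σ.getD j false) ∧
      df ρ ℕ (ee (n_tk σ n)) = b) → b = C n := by
    rintro n b ⟨σ, a1, a2⟩
    have : ∀ j, j ≤ n → ∀ i < j, σ.getD i false = C i := by
      intro j
      induction j with
      | zero => intro _ i hi; omega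
      | succ j ih =>
        intro hj i hi
        rcases Nat.lt_succ_iff_lt_or_eq.1 hi with hi | rfl
        · exact ih (by omega) i hi
        · rw [← a1 i (by omega), n_tk, pre_congr (ih (by omega)), hO]
    rw [← a2, n_tk, pre_congr (this n le_rfl), hO]
  refine ⟨ℕ, A y, h, funext fun n => hβ ℕ h n (fun H => ?_) _ ⟨pre C n, fun j hj => ?_, ?_⟩⟩
  · exact absurd ((key n _ H.1).trans (key n _ H.2).symm) (by simp)
  · rw [n_tk_pre C hj.le, hO, pre_getD C hj]
  · rw [n_tk_pre C le_rfl, hO]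

theorem n_inst (φ : Fm) (i : ℕ) : ∃ ψ : Fm, ∀ (M : Type) [LA.Structure M],
    Sat (M := M) ψ [] ↔ Sat (M := M) φ [num i] := by
  obtain ⟨ψ, h⟩ := (UD.app1 (P := fun M _ a => Sat φ [a]) (UD.sat φ 0) (UT.num i)).one
  exact ⟨.all ψ, fun M _ => ⟨fun H => (h M zM).2 (H zM), fun H a => (h M a).1 H⟩⟩

theorem n_cmp (k : ℕ → ℕ) (U : ℕ → CS) (h : ∀ s, ∃ (M : Type) (_ : LA.Structure M), PM M ∧
    ∀ n < s, ∀ i < s, TK (PreLA M) (k n) i = U n i) :
    ∃ (N : Type) (_ : LA.Structure N), PM N ∧ ∀ n, TK (PreLA N) (k n) = U n := by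
  have h0 : ∀ n i, ∃ ψ : Fm, ∀ (M : Type) [LA.Structure M], PM M →
      (Sat (M := M) ψ [] ↔ TK (PreLA M) (k n) i = true) := fun n i => by
    obtain ⟨φ, hφ⟩ := pa_TK (k n)
    obtain ⟨ψ, hψ⟩ := n_inst φ i
    exact ⟨ψ, fun M _ hM => (hψ M).trans (hφ M hM i)⟩
  choose ψ hψ using h0
  obtain ⟨y, hy⟩ := n_limit
    (F := fun s => {y | Tab y ∧ ∀ n < s, ∀ i < s, y (ix (ψ n i).enc []) = U n i})
    (fun s y hy => ⟨hy.1, fun n hn i hi => hy.2 n (by omega) i (by omega)⟩) (fun s => by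
      obtain ⟨M, _, hM, H⟩ := h s
      obtain ⟨x, T, hx⟩ := exists_tab hM.qa hM.lnp
      exact ⟨x, T, fun n hn i hi => by rw [← H n hn i hi, Bool.eq_iff_iff, hx, hψ n i M hM]⟩)
    (fun s => n_closed_tab.inter (n_closed_all fun _ => n_closed_all fun _ => n_closed_all fun _ =>
      n_closed_all fun _ => n_closed_bit _ _))
  have T := (hy 0).1
  let _ := A y
  have hN : PM ℕ := ⟨T.qa, T.lnp⟩
  refine ⟨ℕ, A y, hN, fun n => funext fun i => ?_⟩
  rw [← (hy (n + i + 1)).2 n (by omega) i (by omega), Bool.eq_iff_iff, ← hψ n i ℕ hN, T.truth0]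

/-- CL and SC -/
theorem n_scott : ∃ θ, ScottFun θ := by
  obtain ⟨θ, hθ⟩ := cl
  refine ⟨θ, fun B h hns => ⟨RJ B, fun n => ⟨RJ B n, ?_⟩, fun n b hb => ?_, fun u v a hY => ?_,
    fun φ => ?_⟩⟩
  · have := (hθ B h n.unpair.1 n.unpair.2 _).2 rfl
    rwa [Nat.pair_unpair] at this
  · rw [← Nat.pair_unpair n] at hb
    exact (hθ B h _ _ _).1 hb
  · simp only [col_RJ] at hY ⊢
    obtain ⟨Y, h1, h2⟩ := ((rps_Rw B u).jn h.qa (rps_Rw B v)).path h hns hY
    obtain ⟨w, rfl⟩ := h1.eq_Rw B h hns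
    exact ⟨w, h2⟩
  · obtain ⟨w, hw⟩ := (Rps.fm (n_df φ ℕ)).eq_Rw B h hns
    exact ⟨w, (col_RJ B w).trans hw⟩

end Pool.Agent.MinDeg
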