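import Pool.Agent.P.MP_f8f34d_lc.N.Str
import Pool.Agent.P.MP_f8f34d_lc.N.MMb
import Pool.Agent.P.MP_f8f34d_lc.N.KN
import Pool.Agent.P.MP_f8f34d_lc.N.Pa
import Pool.Agent.P.MP_f8f34d_lc.W.FinA

/-! No minimal element over a well founded relation (section 4). -/

namespace Pool.Agent.MinDeg

open FirstOrder FirstOrder.Language Pool.Agent.Lib.ComputableProp

theorem no_of_ptr (sol : SolovayStmt) {T : LA.Theory} (hT : T.IsMaximal) (hPA : PA ⊆ T)
    (hTA : T ≠ TA) (N : Type) [LA.Structure N] (hN : N ⊨ T)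
    (ptr : ∀ Z, (∀ A, Lst T A → Cl Z A) → ∃ S : ℕ × ℕ → Prop, SE (jp (jp Z)) S ∧
      (∀ k, ∃ m, S (k, m)) ∧ ∀ k m, S (k, m) → col Z m = TK (PreLA N) k) : ¬ Yes T := by
  rintro ⟨_, ⟨B, hB, rfl⟩, hmin⟩
  obtain ⟨θ, hθ⟩ := n_scott
  have hp := @Pa.pm_of_model ℕ B (hB.mono hPA)
  obtain ⟨R, r1, r2, r3, r4⟩ := hθ B hp (by
    by_contra hc
    exact hTA ((@Pa.eq_completeTheory T ℕ B hT hB).trans (@Pa.pa_std ℕ B hp fun a => by
      by_contra h
      exact hc ⟨a, fun n e => h ⟨n, e⟩⟩)))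
  obtain ⟨E, e1, e2, e3⟩ := mm r3
  obtain ⟨Z, z1, z2, z3, z4⟩ := kn e1
  obtain ⟨S, s1, s2, s3⟩ := ptr Z fun A hA => by
    obtain ⟨w, rfl⟩ := hA B hB R r3 r4
    obtain ⟨m, hm⟩ := e3 w
    rw [← hm]
    exact z4 m
  have := Pa.infinite_of_model (hN.mono hPA)
  obtain ⟨M, hM, hMZ⟩ := model_of_records sol N z1
    (R := fun w => w.2.unpair.2 = 0 ∧ S (w.1, w.2.unpair.1))
    ((SE.of_re (RE.eq (by fun_prop) (by fun_prop))).and
      (s1.comp (f := fun w : ℕ × ℕ => (w.1, w.2.unpair.1)) (by fun_prop)))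
    (fun k => by
      obtain ⟨m, hm⟩ := s2 k
      exact ⟨Nat.pair m 0, by simpa using hm⟩)
    fun k a h n => by
      rw [h.1, zero_add, ← s3 k _ h.2]; rfl
  have hEB : LeT E (dg B) := e2.trans (r1.leT r2)
  refine hmin (deg M) ⟨M, @Pa.model_of_TK T N _ hT hN ℕ M hM, rfl⟩ ?_
  rw [deg_eq, deg_eq]
  refine lt_of_le_not_ge (show TuringReducible (hat (dg M)) (hat (dg B)) from
    (hMZ.trans (z2.trans hEB)).turing) fun h => z3 ?_
  exact hEB.trans ((LeT.of_turing h).trans hMZ)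

theorem no_cl_jn {R A A1 A2 : CS} (hR : Scott R) (h1 : Cl R A1) (h2 : Cl R A2)
    (h : LeT A (jn A1 A2)) : Cl R A := by
  obtain ⟨u, rfl⟩ := h1
  obtain ⟨v, rfl⟩ := h2
  exact hR.cl h

theorem lst_U {Rl : CS} (W : Tower Rl) {B : ℕ → CS} (h : col (B 0) 1 = W.H) (n : ℕ) :
    Lst (W.th B) (W.U B n) := by
  intro M hM R _ hd
  obtain ⟨φ, hφ⟩ := @W.repU B h ℕ M hM n
  exact hφ ▸ hd φ

theorem lst_B {Rl : CS} (W : Tower Rl) {B : ℕ → CS} (h : col (B 0) 1 = W.H) (n : ℕ) :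
    Lst (W.th B) (B n) := by
  have h0 : Lst (W.th B) (B 0) := by
    intro M hM R _ hd
    obtain ⟨φ, hφ⟩ := @W.rep0 B h ℕ M hM
    exact hφ ▸ hd φ
  cases n with
  | zero => exact h0
  | succ n =>
    intro M hM R hR hd
    exact no_cl_jn hR (lst_U W h (n + 1) M hM R hR hd) (h0 M hM R hR hd) (W.leB B h n)

theorem lst_TK {Rl : CS} (W : Tower Rl) {B : ℕ → CS} (h : col (B 0) 1 = W.H) (N : Type)
    [LA.Structure N] (hN : N ⊨ W.th B) (k : ℕ) : Lst (W.th B) (TK (PreLA N) k) := by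
  intro M hM R hR hd
  exact no_cl_jn hR (lst_U W h k M hM R hR hd) (lst_B W h 0 M hM R hR hd) (W.leT B h N hN k)

theorem Lst.of_leT {T : LA.Theory} {A A' : CS} (h : Lst T A) (h' : LeT A' A) : Lst T A' := by
  intro M hM R hR hd
  exact no_cl_jn hR (h M hM R hR hd) (h M hM R hR hd) (h'.trans (finA_lf A A))

theorem no_wf (sol : SolovayStmt) (C : Chain) (W : Tower C.Rl) {r : CS} (hr : WF r) (Y : XX) :
    ¬ Yes (W.th (mkB C W r Y)) := by
  have hH : col (mkB C W r Y 0) 1 = W.H := mk0_1 _ _ _ _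
  have hsol : ∀ n D, C.Sol n (mkB C W r Y 0) D ↔ D = mkB C W r Y (n + 1) :=
    C.sol r Y _ hr (by rw [hH, W.hH]) (mk0_2 _ _ _ _) (mk0_3 _ _ _ _)
  have hne := W.ne _ hH (mk0_0 _ _ _ _)
  generalize mkB C W r Y = B at hH hsol hne ⊢
  obtain ⟨hT, hPA⟩ := W.max B hH
  obtain ⟨N, _, hN⟩ := Pa.exists_model hT
  refine no_of_ptr sol hT hPA hne N hN fun Z hZ => ?_
  choose b hb using fun n => hZ _ (lst_B W hH n)
  choose u hu using fun n => hZ _ (lst_U W hH n)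
  refine ⟨fun w => ∃ l : List (ℕ × ℕ), (l.getD 0 (0, 0)).1 = u 0 ∧ (∀ j < w.1,
    C.Sol j (col Z (b 0)) (col Z (l.getD (j + 1) (0, 0)).2) ∧
    W.Left j (col Z (l.getD j (0, 0)).1) (col Z (b 0)) (col Z (l.getD (j + 1) (0, 0)).2)
      (col Z (l.getD (j + 1) (0, 0)).1)) ∧
    W.Down w.1 (col Z (b 0)) (col Z (l.getD w.1 (0, 0)).1) (col Z w.2), ?_, fun k => ?_, ?_⟩
  · refine SE.ex (SE.and (SE.of_re (RE.eq (by fun_prop) (by fun_prop))) (SE.and
      (SE.forall_lt (l := fun w : (ℕ × ℕ) × List (ℕ × ℕ) => w.1.1) (by fun_prop) (SE.and ?_ ?_)) ?_))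
    · exact (C.sol_de Z).1.comp (f := fun w : ((ℕ × ℕ) × List (ℕ × ℕ)) × ℕ =>
        (w.2, b 0, (w.1.2.getD (w.2 + 1) (0, 0)).2)) (by fun_prop)
    · exact (W.left_de Z).1.comp (f := fun w : ((ℕ × ℕ) × List (ℕ × ℕ)) × ℕ =>
        ((w.2, (w.1.2.getD w.2 (0, 0)).1, b 0), (w.1.2.getD (w.2 + 1) (0, 0)).2,
          (w.1.2.getD (w.2 + 1) (0, 0)).1)) (by fun_prop)
    · exact (W.down_de Z).1.comp (f := fun w : (ℕ × ℕ) × List (ℕ × ℕ) =>
        ((w.1.1, b 0), (w.2.getD w.1.1 (0, 0)).1, w.1.2)) (by fun_prop)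
  · obtain ⟨m, hm⟩ := hZ _ (lst_TK W hH N hN k)
    have e : ∀ j ≤ k, ((List.range (k + 1)).map fun j => (u j, b j)).getD j (0, 0) = (u j, b j) :=
      fun j hj => getD_range_map _ _ (by omega)
    refine ⟨m, (List.range (k + 1)).map fun j => (u j, b j), by rw [e 0 (by omega)],
      fun j hj => ?_, ?_⟩
    · rw [e j (le_of_lt hj), e (j + 1) hj]
      simp only [hb, hu]
      exact ⟨(hsol _ _).2 rfl, (W.left B hH _ _).2 rfl⟩
    · dsimp only
      rw [e k le_rfl, hb, hu, hm]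
      exact (W.down B hH N hN _ _).2 rfl
  · rintro k m ⟨l, h0, h1, h2⟩
    have key : ∀ j ≤ k, col Z (l.getD j (0, 0)).1 = W.U B j := by
      intro j
      induction j with
      | zero => intro _; rw [h0, hu]
      | succ j ih =>
        intro hj
        obtain ⟨a1, a2⟩ := h1 j hj
        rw [hb] at a1 a2
        rw [ih (by omega), (hsol _ _).1 a1] at a2
        exact (W.left B hH _ _).1 a2
    dsimp only at h2
    rw [hb, key k le_rfl] at h2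
    exact (W.down B hH N hN _ _).1 h2

end Pool.Agent.MinDeg
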