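import Pool.Agent.P.MP_f8f34d_lc.N.Defs

/-! Category lemmas (section 6). -/

namespace Pool.Agent.MinDeg

open Set Filter Topology

theorem top_ku {A B C : Type} [TopologicalSpace A] [TopologicalSpace B] [TopologicalSpace C]
    [SecondCountableTopology B] (F : A → B → C) (hF : ∀ b, Continuous fun a => F a b) {D : Set C}
    (hD : IsOpen D)
    (hd : ∀ (U : Set A) (V : Set B), IsOpen U → IsOpen V → U.Nonempty → V.Nonempty →
      ∃ a ∈ U, ∃ b ∈ V, F a b ∈ D) : {a | Dense {b | F a b ∈ D}} ∈ residual A := by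
  obtain ⟨bs, hc, hne, hb⟩ := TopologicalSpace.exists_countable_basis B
  have h1 : ∀ V ∈ bs, {a | ∃ b ∈ V, F a b ∈ D} ∈ residual A := by
    intro V hV
    refine residual_of_dense_open ?_ ?_
    · have : {a | ∃ b ∈ V, F a b ∈ D} = ⋃ b ∈ V, (fun a => F a b) ⁻¹' D := by
        ext a; simp
      rw [this]
      exact isOpen_biUnion fun b _ => hD.preimage (hF b)
    · refine dense_iff_inter_open.2 fun U hU hn => ?_
      obtain ⟨a, ha, h⟩ := hd U V hU (hb.isOpen hV) hn
        (nonempty_iff_ne_empty.2 fun e => hne (e ▸ hV))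
      exact ⟨a, ha, h⟩
  refine mem_of_superset ((countable_bInter_mem hc).2 h1) fun a ha => ?_
  refine hb.dense_iff.2 fun V hV _ => ?_
  obtain ⟨b, h1, h2⟩ := mem_iInter₂.1 ha V hV
  exact ⟨b, h1, h2⟩

theorem top_seq {X : Type} [TopologicalSpace X] {G : Set X} (hG : G ∈ residual X) :
    ∃ D : ℕ → Set X, (∀ k, IsOpen (D k)) ∧ (∀ k, Dense (D k)) ∧ ∀ x, (∀ k, x ∈ D k) → x ∈ G := by
  obtain ⟨S, h1, h2, h3, h4⟩ := mem_residual_iff.1 hG
  obtain ⟨D, hD⟩ := (h3.insert univ).exists_eq_range (insert_nonempty _ _)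
  have hm : ∀ k, D k = univ ∨ D k ∈ S := fun k => by
    have : D k ∈ insert univ S := hD ▸ mem_range_self k
    exact this
  refine ⟨D, fun k => ?_, fun k => ?_, fun x hx => h4 fun t ht => ?_⟩
  · rcases hm k with e | e
    · rw [e]; exact isOpen_univ
    · exact h1 _ e
  · rcases hm k with e | e
    · rw [e]; exact dense_univ
    · exact h2 _ e
  · obtain ⟨k, rfl⟩ : t ∈ range D := hD ▸ mem_insert_of_mem _ ht
    exact hx k

def top_glue (n : ℕ) (u x : ℕ → CS) : ℕ → CS := fun m => if m < n then u m else x m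

theorem top_glue_cont (n : ℕ) (u : ℕ → CS) : Continuous (top_glue n u) :=
  continuous_pi fun m => by
    unfold top_glue
    split_ifs
    exacts [continuous_const, continuous_apply m]

theorem top_step (D : ℕ → Set (ℕ → CS)) (ho : ∀ k, IsOpen (D k)) (n : ℕ) (u : ℕ → CS)
    (W : Set (ℕ → CS)) (hW : IsOpen W) (hu : u ∈ W) (hI : ∀ k, Dense {x | top_glue n u x ∈ D k})
    {H : Set CS} (hH : H ∈ residual CS) :
    ∃ (u' : ℕ → CS) (W' : Set (ℕ → CS)), (IsOpen W' ∧ u' ∈ W' ∧
      ∀ k, Dense {x | top_glue (n + 1) u' x ∈ D k}) ∧ (∀ m < n, u' m = u m) ∧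
      closure W' ⊆ W ∩ D n ∧ u' n ∈ H := by
  have hs : top_glue n u u = u := by funext m; simp [top_glue]
  obtain ⟨x, hx1, hx2⟩ := (hI n).inter_open_nonempty _ (hW.preimage (top_glue_cont n u))
    ⟨u, by simpa [hs] using hu⟩
  obtain ⟨t, ht1, ht2, ht3⟩ := exists_mem_nhds_isClosed_subset
    ((hW.inter (ho n)).mem_nhds (show top_glue n u x ∈ W ∩ D n from ⟨hx1, hx2⟩))
  have cu : ∀ w : ℕ → CS, Continuous fun y : CS => Function.update w n y :=
    fun w => continuous_const.update n continuous_id
  have hR : ∀ k, {y : CS | Dense {w : ℕ → CS | top_glue n u (Function.update w n y) ∈ D k}} ∈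
      residual CS := by
    intro k
    refine top_ku (fun (y : CS) (w : ℕ → CS) => top_glue n u (Function.update w n y))
      (fun w => (top_glue_cont n u).comp (cu w)) (ho k) ?_
    rintro U V hU hV ⟨y0, hy0⟩ ⟨x0, hx0⟩
    have c2 : Continuous fun w : ℕ → CS => Function.update w n (x0 n) :=
      continuous_id.update n continuous_const
    obtain ⟨w, ⟨a, b⟩, c⟩ := (hI k).inter_open_nonempty _
      ((hU.preimage (continuous_apply (A := fun _ : ℕ => CS) n)).inter (hV.preimage c2))
      ⟨Function.update x0 n y0, by simpa using hy0, by simpa using hx0⟩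
    exact ⟨w n, a, _, b, by simpa using c⟩
  obtain ⟨y, hy1, hy2, hy3⟩ := (dense_of_mem_residual
    (inter_mem hH (countable_iInter_mem.2 hR))).inter_open_nonempty _
    (isOpen_interior.preimage (cu (top_glue n u x)))
    ⟨top_glue n u x n, by simpa using mem_interior_iff_mem_nhds.2 ht1⟩
  refine ⟨Function.update (top_glue n u x) n y, interior t, ⟨isOpen_interior, hy1, fun k => ?_⟩,
    fun m hm => ?_, ((closure_mono interior_subset).trans ht2.closure_subset).trans ht3,
    by simpa using hy2⟩
  · have e : ∀ w, top_glue (n + 1) (Function.update (top_glue n u x) n y) w =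
        top_glue n u (Function.update w n y) := by
      intro w
      funext m
      rcases lt_trichotomy m n with h | h | h
      · simp [top_glue, h, h.ne, Nat.lt_succ_of_lt h]
      · subst h; simp [top_glue]
      · simp [top_glue, h.ne', not_lt.2 h.le, show ¬ m < n + 1 by omega]
    simp only [e]
    exact mem_iInter.1 hy3 k
  · simp [top_glue, hm, hm.ne]

/-- sequential Baire category -/
theorem seq_baire {GG : Set (ℕ → CS)} (hG : GG ∈ residual (ℕ → CS))
    (Hs : ℕ → (ℕ → CS) → Set CS) (hH : ∀ n x, Hs n x ∈ residual CS)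
    (loc : ∀ n x x', (∀ m < n, x m = x' m) → Hs n x = Hs n x') :
    ∃ x ∈ GG, ∀ n, x n ∈ Hs n x := by
  obtain ⟨D, ho, hd, hD⟩ := top_seq hG
  let S : ℕ → Type := fun n => {p : (ℕ → CS) × Set (ℕ → CS) // IsOpen p.2 ∧ p.1 ∈ p.2 ∧
    ∀ k, Dense {x | top_glue n p.1 x ∈ D k}}
  have st : ∀ n (s : S n), ∃ s' : S (n + 1), (∀ m < n, s'.1.1 m = s.1.1 m) ∧
      closure s'.1.2 ⊆ s.1.2 ∩ D n ∧ s'.1.1 n ∈ Hs n s.1.1 := by
    intro n s
    obtain ⟨u', W', a, b⟩ := top_step D ho n s.1.1 s.1.2 s.2.1 s.2.2.1 s.2.2.2 (hH n s.1.1)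
    exact ⟨⟨(u', W'), a⟩, b⟩
  choose nx h1 h2 h3 using st
  let s0 : S 0 := ⟨(fun _ => zz, univ), isOpen_univ, mem_univ _, fun k => hd k⟩
  let s : ∀ n, S n := fun n => Nat.rec (motive := S) s0 nx n
  have hs : ∀ n, s (n + 1) = nx n (s n) := fun _ => rfl
  have stab : ∀ m j, m < j → (s j).1.1 m = (s (m + 1)).1.1 m := by
    intro m j hj
    induction j, hj using Nat.le_induction with
    | base => rfl
    | succ j hj ih => rw [hs, h1 j _ m hj, ih]
  have nest : ∀ n j, n ≤ j → (s j).1.2 ⊆ (s n).1.2 := by
    intro n j hj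
    induction j, hj using Nat.le_induction with
    | base => exact subset_rfl
    | succ j hj ih =>
      rw [hs]
      exact (subset_closure.trans ((h2 j _).trans inter_subset_left)).trans ih
  have lim : Tendsto (fun j => (s j).1.1) atTop (𝓝 fun m => (s (m + 1)).1.1 m) := by
    refine tendsto_pi_nhds.2 fun m => tendsto_const_nhds.congr' ?_
    filter_upwards [eventually_gt_atTop m] with j hj using (stab m j hj).symm
  refine ⟨fun m => (s (m + 1)).1.1 m, hD _ fun k => ?_, fun n => ?_⟩
  · refine (h2 k (s k) ?_).2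
    refine mem_closure_of_tendsto lim ?_
    filter_upwards [eventually_ge_atTop (k + 1)] with j hj using nest _ j hj (s j).2.2.1
  · rw [loc n _ (s n).1.1 fun m hm => (stab m n hm).symm]
    exact h3 n (s n)

def sel (b : Bool) (z : CS) : CS := cond b (rt z) (lf z)

theorem top_sel_cont (b : Bool) : Continuous (sel b) := by
  cases b <;> exact continuous_pi fun i => continuous_apply _

theorem top_jn_cont : Continuous fun p : CS × CS => jn p.1 p.2 :=
  continuous_pi fun i => by
    unfold jn
    split_ifs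
    exacts [(continuous_apply _).comp continuous_fst, (continuous_apply _).comp continuous_snd]

theorem top_jn_eta (z : CS) : jn (lf z) (rt z) = z := by
  funext i
  unfold jn lf rt
  split_ifs with h <;> congr 1 <;> omega

def top_put (b : Bool) (z y : CS) : CS := cond b (jn (lf z) y) (jn y (rt z))

theorem top_put_cont (b : Bool) (z : CS) : Continuous (top_put b z) := by
  cases b
  · exact top_jn_cont.comp (f := fun y : CS => (y, rt z)) (continuous_id.prodMk continuous_const)
  · exact top_jn_cont.comp (f := fun y : CS => (lf z, y)) (continuous_const.prodMk continuous_id)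

theorem top_put_sel (b : Bool) (z : CS) : top_put b z (sel b z) = z := by
  cases b <;> exact top_jn_eta z

theorem top_sel_put (b : Bool) (z y : CS) : sel b (top_put b z y) = y := by
  cases b <;> simp [sel, top_put]

theorem res_sel {GG : Set (ℕ → CS)} (hG : GG ∈ residual (ℕ → CS)) :
    {x : ℕ → CS | ∀ f : ℕ → Bool, (fun n => sel (f n) (x n)) ∈ GG} ∈ residual (ℕ → CS) := by
  obtain ⟨D, ho, hd, hD⟩ := top_seq hG
  have c1 : ∀ f : ℕ → Bool, Continuous fun (x : ℕ → CS) n => sel (f n) (x n) :=
    fun f => continuous_pi fun n => (top_sel_cont _).comp (continuous_apply n)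
  have o1 : ∀ f : ℕ → Bool, IsOpenMap fun (x : ℕ → CS) n => sel (f n) (x n) := fun f =>
    IsOpenMap.of_sections fun x => ⟨fun y n => top_put (f n) (x n) (y n),
      (continuous_pi fun n => (top_put_cont _ _).comp (continuous_apply n)).continuousAt,
      funext fun n => top_put_sel _ _, fun y => funext fun n => top_sel_put _ _ _⟩
  have c2 : Continuous fun (p : (ℕ → Bool) × (ℕ → CS)) n => sel (p.1 n) (p.2 n) := by
    refine continuous_pi fun n => ?_
    have : Continuous fun q : Bool × CS => sel q.1 q.2 :=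
      continuous_prod_of_discrete_left.2 fun b => top_sel_cont b
    exact this.comp (f := fun p : (ℕ → Bool) × (ℕ → CS) => (p.1 n, p.2 n)) (by fun_prop)
  have key : ∀ k, {x : ℕ → CS | ∀ f : ℕ → Bool, (fun n => sel (f n) (x n)) ∈ D k} ∈
      residual (ℕ → CS) := by
    intro k
    refine residual_of_dense_open ?_ ?_
    · rw [← isClosed_compl_iff]
      have := isClosedMap_snd_of_compactSpace _ ((ho k).preimage c2).isClosed_compl
      have e : {x : ℕ → CS | ∀ f : ℕ → Bool, (fun n => sel (f n) (x n)) ∈ D k}ᶜ = Prod.snd ''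
          ((fun (p : (ℕ → Bool) × (ℕ → CS)) n => sel (p.1 n) (p.2 n)) ⁻¹' D k)ᶜ := by
        ext x; simp
      rw [e]
      exact this
    · refine dense_iff_inter_open.2 ?_
      rintro U hU ⟨x0, hx0⟩
      obtain ⟨I, u, h1, h2⟩ := isOpen_pi_iff.1 hU x0 hx0
      have dn := dense_iInter_of_isOpen
        (fun l : List Bool => (ho k).preimage (c1 fun n => l.getD n false))
        (fun l => (hd k).preimage (o1 fun n => l.getD n false))
      obtain ⟨x, hx1, hx2⟩ := dn.inter_open_nonempty _
        (isOpen_set_pi I.finite_toSet fun i hi => (h1 i hi).1) ⟨x0, fun i hi => (h1 i hi).2⟩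
      refine ⟨fun n => if n < I.sup id + 1 then x n else jn (lf (x n)) (lf (x n)),
        h2 fun i hi => ?_, fun f => ?_⟩
      · have : i ≤ I.sup id := Finset.le_sup (f := id) hi
        simp only [if_pos (Nat.lt_succ_of_le this)]
        exact hx1 i hi
      · have := mem_iInter.1 hx2 (pre f (I.sup id + 1))
        have e : (fun n => sel (f n) (if n < I.sup id + 1 then x n else
            jn (lf (x n)) (lf (x n)))) =
            fun n => sel ((pre f (I.sup id + 1)).getD n false) (x n) := by
          funext n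
          split_ifs with h
          · rw [pre_getD f h]
          · rw [List.getD_eq_default _ _ (by rw [pre_length]; omega)]
            cases f n <;> simp [sel]
        rw [e]
        exact this
  exact mem_of_superset (countable_iInter_mem.2 key) fun x hx f =>
    hD _ fun k => mem_iInter.1 hx k f

theorem res_pair {H : Set CS} (h : H ∈ residual CS) :
    {z | lf z ≠ rt z ∧ ∀ b, sel b z ∈ H} ∈ residual CS := by
  have h1 : ∀ b, sel b ⁻¹' H ∈ residual CS := fun b =>
    tendsto_residual_of_isOpenMap (top_sel_cont b) (IsOpenMap.of_sections fun z =>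
      ⟨top_put b z, (top_put_cont b z).continuousAt, top_put_sel b z, top_sel_put b z⟩) h
  have h2 : {z : CS | lf z ≠ rt z} ∈ residual CS := by
    refine residual_of_dense_open (isOpen_ne_fun (top_sel_cont false) (top_sel_cont true)) ?_
    refine dense_iff_inter_open.2 ?_
    rintro U hU ⟨z, hz⟩
    obtain ⟨n, hn⟩ := exists_pre_of_isOpen hU hz
    refine ⟨Function.update z (2 * n + 1) (!z (2 * n)), hn n le_rfl _ (ext_pre_iff.2 fun k hk => ?_),
      fun e => ?_⟩
    · rw [Function.update_of_ne (by omega)]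
    · have := congrFun e n
      simp [lf, rt] at this
  exact mem_of_superset (inter_mem h2 (countable_iInter_mem.2 h1)) fun z hz =>
    ⟨hz.1, fun b => mem_iInter.1 hz.2 b⟩

theorem res_gen (A g : CS) (z : List Bool) : {t | Gen A z (cat z (xr g t))} ∈ residual CS := by
  have c1 : Continuous fun t : CS => jn A (cat z (xr g t)) := by
    refine top_jn_cont.comp (f := fun t : CS => (A, cat z (xr g t)))
      (continuous_const.prodMk (continuous_pi fun n => ?_))
    unfold cat
    cases Lib.ComputableProp.leb z.length n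
    · exact continuous_const
    · exact (continuous_of_discreteTopology (f := fun b : Bool => xor (g (n - z.length)) b)).comp
        (continuous_apply (A := fun _ : ℕ => Bool) (n - z.length))
  have key : ∀ a, {t | jn A (cat z (xr g t)) ∈ K a →
      ∃ z1, z <+: z1 ∧ ∀ B', Ext z1 B' → jn A B' ∈ K a} ∈ residual CS := by
    intro a
    by_cases h : ∃ z1, z <+: z1 ∧ ∀ B', Ext z1 B' → jn A B' ∈ K a
    · exact univ_mem' fun t _ => h
    · refine mem_of_superset (residual_of_dense_open ((isClosed_K a).isOpen_compl.preimage c1) ?_)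
        fun t ht h' => (ht h').elim
      refine dense_iff_inter_open.2 ?_
      rintro U hU ⟨t, ht⟩
      obtain ⟨n, hn⟩ := exists_pre_of_isOpen hU ht
      have hp : z <+: z ++ pre (xr g t) n := List.prefix_append _ _
      obtain ⟨B, hB1, hB2⟩ : ∃ B, Ext (z ++ pre (xr g t) n) B ∧ jn A B ∉ K a := by
        by_contra hc
        exact h ⟨_, hp, fun B hB => by_contra fun hk => hc ⟨B, hB, hk⟩⟩
      refine ⟨fun d => xor (g d) (B (z.length + d)), hn n le_rfl _ (ext_pre_iff.2 fun k hk => ?_),
        ?_⟩
      · have := hB1 (z.length + k) (by simp; omega)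
        rw [List.getD_append_right _ _ _ _ (by omega), Nat.add_sub_cancel_left,
          pre_getD _ hk] at this
        simp [this, xr]
      · have e : cat z (xr g fun d => xor (g d) (B (z.length + d))) = B := by
          funext m
          by_cases hm : m < z.length
          · rw [ext_cat _ _ m hm, hB1 m (by simp; omega), List.getD_append _ _ _ _ hm]
          · obtain ⟨d, rfl⟩ : ∃ d, m = z.length + d := ⟨m - z.length, by omega⟩
            rw [cat_add]
            simp [xr]
        show jn A (cat z (xr g fun d => xor (g d) (B (z.length + d)))) ∈ (K a)ᶜ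
        rw [e]
        exact hB2
  exact mem_of_superset (countable_iInter_mem.2 key) fun t ht a => mem_iInter.1 ht a

theorem ku0 {X T : Type} [TopologicalSpace X] [BaireSpace X] [Nonempty X] [TopologicalSpace T]
    [SecondCountableTopology T] (act : X → T → X) (h1 : ∀ t, Continuous fun Y => act Y t)
    (h2 : ∀ t, IsOpenMap fun Y => act Y t) (h3 : ∀ Y, Continuous (act Y)) {GG : Set X}
    (hG : GG ∈ residual X) : ∃ Y, {t | act Y t ∈ GG} ∈ residual T := by
  obtain ⟨D, ho, hd, hD⟩ := top_seq hG
  have key : ∀ k, {Y | Dense {t | act Y t ∈ D k}} ∈ residual X := by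
    intro k
    refine top_ku act h1 (ho k) ?_
    rintro U V hU _ hn ⟨t, ht⟩
    obtain ⟨Y, a, b⟩ := ((hd k).preimage (h2 t)).inter_open_nonempty U hU hn
    exact ⟨Y, a, t, ht, b⟩
  obtain ⟨Y, hY⟩ := (dense_of_mem_residual (countable_iInter_mem.2 key)).nonempty
  refine ⟨Y, mem_of_superset (countable_iInter_mem.2 fun k =>
    residual_of_dense_open ((ho k).preimage (h3 Y)) (mem_iInter.1 hY k)) fun t ht => ?_⟩
  exact hD _ fun k => mem_iInter.1 ht k

end Pool.Agent.MinDeg
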