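import Pool.Agent.P.MP_f8f34d_lc.N.YesP
import Pool.Agent.P.MP_f8f34d_lc.N.No
import Pool.Agent.P.MP_f8f34d_lc.N.Top

/-! Over an ill founded relation a minimal element exists non-meagrely often (section 6). -/

namespace Pool.Agent.MinDeg

open FirstOrder FirstOrder.Language Pool.Agent.Lib.ComputableProp

theorem ill_mono {S S' : Set CS} (h : S ⊆ S') : ∀ n, JN S n ⊆ JN S' n
  | 0 => Set.insert_subset_insert h
  | n + 1 => fun _ ⟨B, hB, C, hC, k⟩ => ⟨B, ill_mono h n hB, C, ill_mono h n hC, k⟩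

theorem ill_union {S : ℕ → Set CS} (h : Monotone S) :
    ∀ n, ∀ A ∈ JN (⋃ m, S m) n, ∃ m, A ∈ JN (S m) n
  | 0, A, hA => by
    rcases hA with rfl | hA
    · exact ⟨0, Set.mem_insert _ _⟩
    · obtain ⟨m, hm⟩ := Set.mem_iUnion.1 hA
      exact ⟨m, Set.mem_insert_of_mem _ hm⟩
  | n + 1, A, ⟨B, hB, C, hC, k⟩ => by
    obtain ⟨a, ha⟩ := ill_union h n B hB
    obtain ⟨b, hb⟩ := ill_union h n C hC
    exact ⟨max a b, B, ill_mono (h (le_max_left _ _)) n ha, C,
      ill_mono (h (le_max_right _ _)) n hb, k⟩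

theorem ill_le {S : Set CS} {A B C : CS} (hB : B ∈ S) (hC : C ∈ S) (h : LeT A (jn B C)) :
    A ∈ JJ S :=
  Set.mem_iUnion.2 ⟨1, B, Set.mem_insert_of_mem _ hB, C, Set.mem_insert_of_mem _ hC, h⟩

theorem yes_ill (sol : SolovayStmt) (C : Chain) (W : Tower C.Rl) {r : CS} (hr : ¬ WF r)
    {GG : Set XX} (hG : GG ∈ residual XX) : ∃ Y ∈ GG, Yes (W.th (mkB C W r Y)) := by
  obtain ⟨act, a1, a2, a3, a4, a5, a6⟩ := C.ill r hr
  obtain ⟨Y, hY⟩ := ku0 act a1 a2 a3 hG
  let tt : (ℕ → CS) → (ℕ → Bool) → ℕ → CS := fun x f n => sel (f n) (x n)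
  let BB : (ℕ → CS) → ℕ → CS := fun t => mkB C W r (act Y t)
  have b0 : ∀ t t', BB t 0 = BB t' 0 := fun t t' => by simp only [BB, mkB, a4]
  have bl : ∀ t t' n, (∀ m < n, t m = t' m) → ∀ m ≤ n, BB t m = BB t' m := fun t t' n h m hm => by
    cases m with
    | zero => exact b0 t t'
    | succ m => exact a5 Y t t' m (h m hm)
  have ok : ∀ t, col (BB t 0) 1 = W.H := fun t => mk0_1 _ _ _ _
  let S : ℕ → (ℕ → CS) → Set CS := fun n x => {A | ∃ m ≤ n, ∃ l : List Bool,
    A = BB (tt x fun k => l.getD k false) m ∨ A = W.U (BB (tt x fun k => l.getD k false)) m}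
  have cS : ∀ n x, (S n x).Countable := fun n x =>
    ((Set.countable_range fun p : ℕ × List Bool => BB (tt x fun k => p.2.getD k false) p.1).union
      (Set.countable_range fun p : ℕ × List Bool =>
        W.U (BB (tt x fun k => p.2.getD k false)) p.1)).mono (by
      rintro A ⟨m, -, l, rfl | rfl⟩
      · exact Or.inl ⟨(m, l), rfl⟩
      · exact Or.inr ⟨(m, l), rfl⟩)
  have lS : ∀ n x x', (∀ m < n, x m = x' m) → S n x ⊆ S n x' := by
    rintro n x x' h A ⟨m, hm, l, hA⟩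
    have e := bl (tt x fun k => l.getD k false) (tt x' fun k => l.getD k false) n
      fun k hk => by simp only [tt, h k hk]
    exact ⟨m, hm, l, by rwa [← e m hm, ← W.loc _ _ m fun k hk => e k (hk.trans hm)]⟩
  let Hn : ℕ → (ℕ → CS) → Set CS := fun n x =>
    {y | ∀ A ∈ JJ (S n x), ∀ z, Gen A z (cat z (xr (rt (C.lv Y n)) y))}
  have rH : ∀ n x, Hn n x ∈ residual CS := fun n x =>
    (eventually_countable_ball (countable_JJ (cS n x))).2 fun A _ =>
      eventually_countable_forall.2 fun z => res_gen A _ z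
  obtain ⟨x, hx, hH⟩ := seq_baire (res_sel hY)
    (fun n x => {z | lf z ≠ rt z ∧ ∀ b, sel b z ∈ Hn n x}) (fun n x => res_pair (rH n x))
    fun n x x' h => by
      simp only [Hn, (lS n x x' h).antisymm (lS n x' x fun m hm => (h m hm).symm)]
  have mS : Monotone fun n => S n x := fun a b h A ⟨m, hm, k⟩ => ⟨m, hm.trans h, k⟩
  have inS : ∀ f m, BB (tt x f) m ∈ (⋃ n, S n x) ∧ W.U (BB (tt x f)) m ∈ ⋃ n, S n x := fun f m => by
    have e := bl (tt x f) (tt x fun k => (pre f m).getD k false) m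
      fun k hk => by simp only [tt, pre_getD f hk]
    exact ⟨Set.mem_iUnion.2 ⟨m, m, le_rfl, pre f m, Or.inl (e m le_rfl)⟩,
      Set.mem_iUnion.2 ⟨m, m, le_rfl, pre f m, Or.inr (W.loc _ _ m e)⟩⟩
  by_contra hc
  have hJ := idl_JJ (⋃ n, S n x)
  have h1 := yes_plus sol hJ (countable_JJ (Set.countable_iUnion fun n => cS n x))
  have h2 : (Set.univ : Set (ℕ → Bool)).Countable := by
    refine Set.MapsTo.countable_of_injOn (f := fun f => W.th (BB (tt x f))) ?_ ?_ h1
    · intro f _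
      refine ⟨(W.max _ (ok _)).1, (W.max _ (ok _)).2, W.ne _ (ok _) rfl, fun N _ hN k => ?_,
        fun A hA z => ?_, fun hy => hc ⟨_, hx f, hy⟩⟩
      · exact ill_le (inS f k).2 (inS f 0).1 (W.leT _ (ok _) N hN k)
      · obtain ⟨n, hn⟩ := Set.mem_iUnion.1 hA
        obtain ⟨m, hm⟩ := ill_union mS n A hn
        have e : rt (BB (tt x f) (m + 1)) = xr (rt (C.lv Y m)) (tt x f m) := a6 Y _ m
        have k1 : LeT (rt (BB (tt x f) (m + 1))) (BB (tt x f) (m + 1)) :=
          (CM.id (α := Unit)).rt.leT _ ()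
        refine ⟨rt (BB (tt x f) (m + 1)), (lst_B W (ok _) _).of_leT k1, hJ.cat _ _
          (ill_le (inS f (m + 1)).1 (inS f (m + 1)).1 (k1.trans (finA_lf _ _))), ?_⟩
        rw [e]
        exact (hH m).2 (f m) A (Set.mem_iUnion.2 ⟨n, hm⟩) z
    · intro f _ f' _ h
      funext n
      have e := congrArg rt (congrFun (W.inj _ _ (ok _) (ok _) h) (n + 1))
      have e1 : xr (rt (C.lv Y n)) (tt x f n) = xr (rt (C.lv Y n)) (tt x f' n) :=
        (a6 Y _ n).symm.trans (e.trans (a6 Y _ n))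
      have e2 : sel (f n) (x n) = sel (f' n) (x n) := funext fun d => by
        simpa [xr, tt] using congrFun e1 d
      have e3 := (hH n).1
      revert e2
      cases f n <;> cases f' n <;> simp [sel, e3, e3.symm]
  obtain ⟨g, hg⟩ := @exists_surjective_nat _ _ (Set.countable_univ_iff.1 h2)
  obtain ⟨n, hn⟩ := hg fun k => !(g k k)
  simpa using congrFun hn n

end Pool.Agent.MinDeg
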