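import Pool.Agent.P.MP_f8f34d_lc.N.Str
import Pool.Agent.P.MP_f8f34d_lc.N.Left
import Pool.Agent.P.MP_f8f34d_lc.N.Pa

/-! The map from sequences of points to completions (section 2). -/

namespace Pool.Agent.MinDeg

open FirstOrder FirstOrder.Language Pool.Agent.Lib.ComputableProp Pa

/-- the fixed data of the tower -/
structure TD where
  β : Fm
  K : ℕ → ℕ
  q0 : ℕ → ℕ
  q : ℕ → ℕ → ℕ
  up : ℕ → ℕ → ℕ
  dd : ℕ → ℕ → ℕ
  ind : ∀ C : CS, ∃ (M : Type) (_ : LA.Structure M), PM M ∧ df β M = C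
  h0 : ∀ (M : Type) [LA.Structure M], PM M → ∀ e, TK (PreLA M) (K 0) (q0 e) = df β M e
  hq : ∀ n (M : Type) [LA.Structure M], PM M → ∀ e b,
    Ps e.unpair.1 (jn (TK (PreLA M) (K n)) (df β M)) e b → TK (PreLA M) (K (n + 1)) (q n e) = b
  hup : ∀ n (M : Type) [LA.Structure M], ∀ i,
    TK (PreLA M) (K n) i = TK (PreLA M) (K (n + 1)) (up n i)
  hdd : ∀ n (M : Type) [LA.Structure M], ∀ i, TK (PreLA M) n i = TK (PreLA M) (K n) (dd n i)

theorem tower_df_TK (k : ℕ) : ∃ φ : Fm, ∀ (M : Type) [LA.Structure M], PM M →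
    df φ M = TK (PreLA M) k := by
  obtain ⟨φ, h⟩ := pa_TK k
  refine ⟨φ, fun M _ hM => funext fun n => ?_⟩
  rw [Bool.eq_iff_iff, ← h M hM]
  simp [df]

theorem exists_TD : Nonempty TD := by
  obtain ⟨β, hβ⟩ := n_ind
  obtain ⟨k0, -, q0, h0⟩ := n_lev β 0
  have step : ∀ k, ∃ k', k + 1 ≤ k' ∧ ∃ q : ℕ → ℕ, ∀ (M : Type) [LA.Structure M], PM M → ∀ e b,
      Ps e.unpair.1 (jn (TK (PreLA M) k) (df β M)) e b → TK (PreLA M) k' (q e) = b := by
    intro k
    obtain ⟨φ, hφ⟩ := tower_df_TK k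
    obtain ⟨χ, hχ⟩ := n_join φ β
    obtain ⟨ρ, hρ⟩ := n_rel χ
    obtain ⟨k', hk, q, hq⟩ := n_lev ρ (k + 1)
    refine ⟨k', hk, q, fun M _ hM e b h => ?_⟩
    rw [hq M hM]
    exact hρ M hM e b (by rwa [hχ M hM, hφ M hM])
  choose nk hnk q hq using step
  let K : ℕ → ℕ := fun n => Nat.rec k0 (fun _ k => nk k) n
  have hK : ∀ n, n ≤ K n := by
    intro n
    induction n with
    | zero => exact Nat.zero_le _
    | succ n ih => exact (Nat.succ_le_succ ih).trans (hnk (K n))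
  choose up hup using fun n => n_dn (k := K n) (k' := K (n + 1)) ((Nat.le_succ _).trans (hnk (K n)))
  choose dd hdd using fun n => n_dn (hK n)
  exact ⟨⟨β, K, q0, fun n => q (K n), up, dd, hβ, h0, fun n => hq (K n), hup, hdd⟩⟩

/-- the graph of a function of two arguments -/
def grf (g : ℕ → ℕ → ℕ) : CS := fun p => eqb (g p.unpair.1 p.unpair.2.unpair.1) p.unpair.2.unpair.2
def Gr (c : CS) (n i x : ℕ) : Prop := c (Nat.pair n (Nat.pair i x)) = true

theorem gr_grf (g : ℕ → ℕ → ℕ) (n i x : ℕ) : Gr (grf g) n i x ↔ g n i = x := by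
  simp [Gr, grf]

def InS (h : CS) (n : ℕ) (V : CS) : Prop :=
  ∀ τ, Ext τ V → col h 1 (Nat.pair n (Encodable.encode τ)) = true

def Cg (j n : ℕ) (h C : CS) (l : ℕ) (V : CS) : Prop := ∀ τ, Ext τ C → τ.length < l → ∀ x,
  Gr (col h 3) n (Nat.pair j (Encodable.encode (n, τ))) x → V x = C τ.length

def QQ (j n : ℕ) (U h C : CS) (l : ℕ) (V : CS) : Prop :=
  InS h (n + 1) V ∧ (∀ i x, Gr (col h 2) n i x → V x = U i) ∧ Cg j n h C l V

section
variable {α : Type} [Primcodable α]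

theorem sig_Gr {F : CS → α → CS} (hF : CM F) {n i x : α → ℕ} (hn : Computable n)
    (hi : Computable i) (hx : Computable x) : Sig fun z a => Gr (F z a) (n a) (i a) (x a) :=
  hF.bit (f := fun a => Nat.pair (n a) (Nat.pair (i a) (x a))) (g := fun _ => true)
    (by fun_prop) (by fun_prop)

theorem pii_InS {F G : CS → α → CS} (hF : CM F) (hG : CM G) {n : α → ℕ} (hn : Computable n) :
    Pii fun z a => InS (F z a) (n a) (G z a) :=
  Pii.all (Pii.imp ((hG.comp (g := fun w : α × List Bool => w.1) (by fun_prop)).ext (by fun_prop))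
    (Pii.bit ((hF.comp (g := fun w : α × List Bool => w.1) (by fun_prop)).col (by fun_prop))
      (by fun_prop) (by fun_prop)))

theorem pii_Cg {F G H : CS → α → CS} (hF : CM F) (hG : CM G) (hH : CM H) {j n l : α → ℕ}
    (hj : Computable j) (hn : Computable n) (hl : Computable l) :
    Pii fun z a => Cg (j a) (n a) (F z a) (G z a) (l a) (H z a) :=
  Pii.all (Pii.imp ((hG.comp (g := fun w : α × List Bool => w.1) (by fun_prop)).ext (by fun_prop))
    (Pii.imp (Sig.of_re (RE.lt (by fun_prop) (by fun_prop))) (Pii.all (Pii.imp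
      (sig_Gr ((hF.comp (g := fun w : (α × List Bool) × ℕ => w.1.1) (by fun_prop)).col
        (by fun_prop)) (by fun_prop) (by fun_prop) (by fun_prop))
      (Pii.beq (hH.comp (g := fun w : (α × List Bool) × ℕ => w.1.1) (by fun_prop))
        (hG.comp (g := fun w : (α × List Bool) × ℕ => w.1.1) (by fun_prop))
        (by fun_prop) (by fun_prop))))))

theorem pii_Tr {F G H : CS → α → CS} (hF : CM F) (hG : CM G) (hH : CM H) {n : α → ℕ}
    (hn : Computable n) : Pii fun z a => ∀ i x, Gr (F z a) (n a) i x → G z a x = H z a i :=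
  Pii.all (Pii.all (Pii.imp
    (sig_Gr (hF.comp (g := fun w : (α × ℕ) × ℕ => w.1.1) (by fun_prop))
      (by fun_prop) (by fun_prop) (by fun_prop))
    (Pii.beq (hG.comp (g := fun w : (α × ℕ) × ℕ => w.1.1) (by fun_prop))
      (hH.comp (g := fun w : (α × ℕ) × ℕ => w.1.1) (by fun_prop)) (by fun_prop) (by fun_prop))))

theorem pii_QQ {U h C V : CS → α → CS} (hU : CM U) (hh : CM h) (hC : CM C) (hV : CM V)
    {j n l : α → ℕ} (hj : Computable j) (hn : Computable n) (hl : Computable l) :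
    Pii fun z a => QQ (j a) (n a) (U z a) (h z a) (C z a) (l a) (V z a) :=
  (pii_InS hh hV (by fun_prop)).and ((pii_Tr (hh.col (by fun_prop)) hV hU hn).and
    (pii_Cg hh hC hV hj hn hl))

theorem pii_QI {U h C V : CS → α → CS} (hU : CM U) (hh : CM h) (hC : CM C) (hV : CM V)
    {j n : α → ℕ} (hj : Computable j) (hn : Computable n) :
    Pii fun z a => ∀ l, QQ (j a) (n a) (U z a) (h z a) (C z a) l (V z a) :=
  Pii.all (pii_QQ (hU.comp (g := fun w : α × ℕ => w.1) (by fun_prop))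
    (hh.comp (g := fun w : α × ℕ => w.1) (by fun_prop))
    (hC.comp (g := fun w : α × ℕ => w.1) (by fun_prop))
    (hV.comp (g := fun w : α × ℕ => w.1) (by fun_prop)) (by fun_prop) (by fun_prop) (by fun_prop))

theorem tower_cont (X : CS) : Continuous (jn X) := continuous_pi fun i => by
  unfold jn
  split_ifs
  · exact continuous_const
  · exact continuous_apply _

theorem Pii.closed_sec {P : CS → CS → α → Prop} (h : Pii fun z a => P (lf z) (rt z) a) (X : CS)
    (a : α) : IsClosed {V | P X V a} := by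
  simpa using (h.isClosed a).preimage (tower_cont X)

end

/-- the value `b` at the bit of `e` is impossible -/
def Dd (O : CS) (w : ℕ × Bool) : Prop := ∃ u : ℕ × List Bool, Encodable.encode u = w.1.unpair.2 ∧
  ¬ ∃ V, QQ w.1.unpair.1 u.1 (lf O) (col (rt O) 1) (cat u.2 zz) u.2.length V ∧
    ∀ x, Gr (col (col (rt O) 1) 3) u.1 w.1 x → V x = w.2

theorem sig_Dd : Sig Dd :=
  Sig.ex (Sig.and (Sig.of_re (RE.eq (by fun_prop) (by fun_prop))) (Pii.neg (Pii.exC
    (P := fun O V (a : (ℕ × Bool) × ℕ × List Bool) =>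
      QQ a.1.1.unpair.1 a.2.1 (lf O) (col (rt O) 1) (cat a.2.2 zz) a.2.2.length V ∧
        ∀ x, Gr (col (col (rt O) 1) 3) a.2.1 a.1.1 x → V x = a.1.2)
    ((pii_QQ CM.id.lf.lf (CM.id.lf.rt.col (by fun_prop)) (CM.zz.cat (by fun_prop)) CM.id.rt
      (by fun_prop) (by fun_prop) (by fun_prop)).and (Pii.all (Pii.imp
        (sig_Gr ((CM.id.lf.rt.col (by fun_prop)).col (by fun_prop)) (by fun_prop) (by fun_prop)
          (by fun_prop)) (Pii.bit CM.id.rt (by fun_prop) (by fun_prop))))))))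

noncomputable def iD : ℕ := sig_Dd.exists_Ps.choose

theorem Cg.congr {j n l : ℕ} {h C C' V : CS} (H : Cg j n h C l V) (e : ∀ i < l, C' i = C i) :
    Cg j n h C' l V := fun τ h1 h2 x h3 =>
  (H τ (fun k hk => (e k (by omega)).symm.trans (h1 k hk)) h2 x h3).trans (e _ h2).symm

namespace TD
variable (t : TD) (Rl : CS)

open Classical in
noncomputable def con : CS := fun p => decide (∃ τ : List Bool, Encodable.encode τ = p.unpair.2 ∧
  ∃ (M : Type) (_ : LA.Structure M), PM M ∧ Ext τ (TK (PreLA M) (t.K p.unpair.1)))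

noncomputable def H : CS := rs (rs (rs (rs (rs zz (grf t.dd)) (grf t.q)) (grf t.up)) t.con) Rl

theorem H1 : col (t.H Rl) 1 = t.con := by rw [H, col_rs_succ, col_rs]
theorem H2 : col (t.H Rl) 2 = grf t.up := by rw [H, col_rs_succ, col_rs_succ, col_rs]
theorem H3 : col (t.H Rl) 3 = grf t.q := by rw [H, col_rs_succ, col_rs_succ, col_rs_succ, col_rs]
theorem H4 : col (t.H Rl) 4 = grf t.dd := by
  rw [H, col_rs_succ, col_rs_succ, col_rs_succ, col_rs_succ, col_rs]

theorem inS_iff (n : ℕ) (V : CS) : InS (t.H Rl) n V ↔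
    ∃ (M : Type) (_ : LA.Structure M), PM M ∧ TK (PreLA M) (t.K n) = V := by
  simp only [InS, H1, con, Nat.unpair_pair, decide_eq_true_eq]
  constructor
  · intro h
    obtain ⟨N, _, h1, h2⟩ := n_cmp (fun _ => t.K n) (fun _ => V) fun s => by
      obtain ⟨τ, e, M, _, k1, k2⟩ := h _ (ext_pre V s)
      rw [Encodable.encode_injective e] at k2
      exact ⟨M, inferInstance, k1, fun _ _ i hi => ext_pre_iff.1 k2 i hi⟩
    exact ⟨N, inferInstance, h1, h2 0⟩
  · rintro ⟨M, _, h1, rfl⟩ τ hτ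
    exact ⟨τ, rfl, M, inferInstance, h1, hτ⟩

theorem same_β {M N : Type} [LA.Structure M] [LA.Structure N] (hM : PM M) (hN : PM N) :
    ∀ n, TK (PreLA M) (t.K n) = TK (PreLA N) (t.K n) → df t.β M = df t.β N
  | 0, h => funext fun e => by rw [← t.h0 M hM, ← t.h0 N hN, h]
  | n + 1, h => same_β hM hN n (funext fun i => by rw [t.hup n M, t.hup n N, h])

/-- the level and the first point come from one model -/
def Coh (n : ℕ) (U B0 : CS) : Prop :=
  ∃ (M : Type) (_ : LA.Structure M), PM M ∧ TK (PreLA M) (t.K n) = U ∧ df t.β M = B0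

variable {t Rl}

theorem Coh.succ {n j l : ℕ} {U B0 C V : CS} (h : t.Coh n U B0) (hV : QQ j n U (t.H Rl) C l V) :
    ∃ (M : Type) (_ : LA.Structure M), PM M ∧ TK (PreLA M) (t.K (n + 1)) = V ∧
      TK (PreLA M) (t.K n) = U ∧ df t.β M = B0 := by
  obtain ⟨N, _, h1, h2, h3⟩ := h
  obtain ⟨M, _, k1, k2⟩ := (t.inS_iff Rl _ _).1 hV.1
  have k3 : TK (PreLA M) (t.K n) = U := funext fun i => by
    rw [t.hup n M, k2]
    exact hV.2.1 i _ (by rw [H2, gr_grf])
  exact ⟨M, inferInstance, k1, k2, k3, (t.same_β k1 h1 n (k3.trans h2.symm)).trans h3⟩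

theorem Coh.flex {n : ℕ} {U B0 : CS} (h : t.Coh n U B0) (h1 : col B0 1 = t.H Rl) (C : CS) :
    ∀ l, ∃ V, QQ iD n U (t.H Rl) C l V := by
  intro l
  induction l with
  | zero =>
    obtain ⟨N, _, k1, k2, -⟩ := h
    refine ⟨_, (t.inS_iff Rl _ _).2 ⟨N, inferInstance, k1, rfl⟩, fun i x hx => ?_,
      fun τ _ hτ => absurd hτ (Nat.not_lt_zero _)⟩
    rw [H2, gr_grf] at hx
    rw [← hx, ← k2, t.hup n N]
  | succ l ih =>
    obtain ⟨V, hV⟩ := ih
    by_contra hc
    have e1 : ∀ i < l, cat (pre C l) zz i = C i := fun i hi =>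
      ext_pre_iff.1 (ext_cat (pre C l) zz) i hi
    have hD : Dd (jn U B0) (Nat.pair iD (Encodable.encode (n, pre C l)), C l) := by
      refine ⟨(n, pre C l), by rw [Nat.unpair_pair], ?_⟩
      simp only [Nat.unpair_pair, lf_jn, rt_jn, h1, pre_length]
      rintro ⟨V', k1, k2⟩
      refine hc ⟨V', k1.1, k1.2.1, fun τ h2 h3 x h4 => ?_⟩
      rcases Nat.lt_succ_iff_lt_or_eq.1 h3 with h5 | h5
      · exact k1.2.2.congr (fun i hi => (e1 i hi).symm) τ h2 h5 x h4
      · rw [h5]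
        exact k2 x (by rwa [← h5, h2.eq_pre])
    obtain ⟨b, hb⟩ := sig_Dd.exists_Ps.choose_spec.2 _ _ _ hD
    obtain ⟨u, k1, k2⟩ := sig_Dd.exists_Ps.choose_spec.1 _ _ _ hb
    simp only [Nat.unpair_pair, lf_jn, rt_jn, h1] at k1 k2
    rw [Encodable.encode_injective k1] at k2
    obtain ⟨M, _, m1, m2, m3, m4⟩ := h.succ hV
    refine k2 ⟨V, ⟨hV.1, hV.2.1, ?_⟩, fun x hx => ?_⟩
    · rw [pre_length]
      exact hV.2.2.congr e1
    · rw [H3, gr_grf] at hx
      rw [← hx, ← m2]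
      exact t.hq n M m1 _ b (by rw [Nat.unpair_pair, m3, m4]; exact hb)

theorem closed_QQ (j n l : ℕ) (U h C : CS) : IsClosed {V | QQ j n U h C l V} := by
  simpa using Pii.closed_sec (P := fun X V (_ : Unit) => QQ j n (lf X) (lf (rt X)) (rt (rt X)) l V)
    (pii_QQ CM.id.lf.lf CM.id.lf.rt.lf CM.id.lf.rt.rt CM.id.rt (by fun_prop) (by fun_prop)
      (by fun_prop)) (jn U (jn h C)) ()

theorem closed_QI (j n : ℕ) (U h C : CS) : IsClosed {V | ∀ l, QQ j n U h C l V} := by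
  rw [Set.ofPred_forall]
  exact isClosed_iInter fun l => closed_QQ j n l U h C

theorem Coh.ne {n : ℕ} {U B0 : CS} (h : t.Coh n U B0) (h1 : col B0 1 = t.H Rl) (C : CS) :
    {V | ∀ l, QQ iD n U (t.H Rl) C l V}.Nonempty := by
  rw [Set.ofPred_forall]
  exact IsCompact.nonempty_iInter_of_sequence_nonempty_isCompact_isClosed _
    (fun l V hV => ⟨hV.1, hV.2.1, fun τ k1 k2 => hV.2.2 τ k1 (Nat.lt_succ_of_lt k2)⟩)
    (h.flex h1 C) (closed_QQ _ _ _ _ _ _).isCompact fun l => closed_QQ _ _ _ _ _ _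

variable (t Rl)

def P0 (B0 : CS) : Set CS := {V | InS (t.H Rl) 0 V ∧ ∀ e, V (t.q0 e) = B0 e}

theorem closed_InS (h : CS) (n : ℕ) : IsClosed {V | InS h n V} :=
  Pii.closed_sec (P := fun X V (_ : Unit) => InS X n V)
    (pii_InS CM.id.lf CM.id.rt (by fun_prop)) h ()

theorem closed_P0 (B0 : CS) : IsClosed (t.P0 Rl B0) := by
  refine (closed_InS _ _).inter ?_
  show IsClosed {V : CS | ∀ e, V (t.q0 e) = B0 e}
  rw [Set.ofPred_forall]
  exact isClosed_iInter fun e => isClosed_eq (continuous_apply _) continuous_const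

theorem ne_P0 (B0 : CS) : (t.P0 Rl B0).Nonempty := by
  obtain ⟨M, _, h1, rfl⟩ := t.ind B0
  exact ⟨_, (t.inS_iff Rl _ _).2 ⟨M, inferInstance, h1, rfl⟩, t.h0 M h1⟩

noncomputable def U (B : ℕ → CS) : ℕ → CS
  | 0 => lm (t.P0 Rl (B 0))
  | n + 1 => lm {V | ∀ l, QQ iD n (U B n) (col (B 0) 1) (B (n + 1)) l V}

def th (B : ℕ → CS) : LA.Theory := {σ | ∃ (M : Type) (_ : LA.Structure M), PM M ∧
  (∀ n, TK (PreLA M) (t.K n) = t.U Rl B n) ∧ M ⊨ σ}

variable {t Rl} {B : ℕ → CS}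

theorem coh (h : col (B 0) 1 = t.H Rl) : ∀ n, t.Coh n (t.U Rl B n) (B 0)
  | 0 => by
    obtain ⟨h1, h2⟩ := (lm_spec (t.closed_P0 Rl (B 0)) (t.ne_P0 Rl (B 0))).1
    obtain ⟨M, _, k1, k2⟩ := (t.inS_iff Rl _ _).1 h1
    exact ⟨M, inferInstance, k1, k2, funext fun e => by rw [← t.h0 M k1, k2, h2]⟩
  | n + 1 => by
    have h1 := (lm_spec (closed_QI _ _ _ _ _) ((coh h n).ne h (B (n + 1)))).1
    obtain ⟨M, _, k1, k2, -, k3⟩ := (coh h n).succ (h1 0)
    exact ⟨M, inferInstance, k1, by rw [U, h, k2], k3⟩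

theorem lmU (h : col (B 0) 1 = t.H Rl) (n : ℕ) :
    Lm {V | ∀ l, QQ iD n (t.U Rl B n) (t.H Rl) (B (n + 1)) l V} (t.U Rl B (n + 1)) := by
  rw [U, h]
  exact lm_spec (closed_QI _ _ _ _ _) ((coh h n).ne h (B (n + 1)))

theorem th_eq (h : col (B 0) 1 = t.H Rl) : ∃ (N : Type) (_ : LA.Structure N), PM N ∧
    (∀ n, TK (PreLA N) (t.K n) = t.U Rl B n) ∧ t.th Rl B = completeTheory LA N := by
  obtain ⟨N, _, h1, h2⟩ := n_cmp t.K (t.U Rl B) fun s => by
    obtain ⟨M, _, k1, k2, -⟩ := coh h s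
    have : ∀ n, n ≤ s → TK (PreLA M) (t.K n) = t.U Rl B n := fun n hn => by
      induction hn using Nat.decreasingInduction with
      | self => exact k2
      | of_succ n _ ih =>
        funext i
        rw [t.hup n M, ih]
        exact ((lmU h n).1 0).2.1 i _ (by rw [H2, gr_grf])
    exact ⟨M, inferInstance, k1, fun n hn i _ => congrFun (this n hn.le) i⟩
  refine ⟨N, inferInstance, h1, h2, Set.ext fun σ => ⟨?_, fun k => ⟨N, inferInstance, h1, h2, k⟩⟩⟩
  rintro ⟨M, _, -, k2, k3⟩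
  rw [← nf (M := M) fun k => funext fun i => by rw [t.hdd k M, t.hdd k N, k2, h2] ]
  exact k3

theorem th_max (h : col (B 0) 1 = t.H Rl) : (t.th Rl B).IsMaximal ∧ PA ⊆ t.th Rl B := by
  obtain ⟨N, _, h1, -, h3⟩ := th_eq h
  have : Nonempty N := ⟨zM⟩
  rw [h3]
  exact ⟨completeTheory.isMaximal LA N,
    fun σ hσ => ((model_PA_iff N).2 ⟨h1.qa, h1.lnp⟩).realize_of_mem σ hσ⟩

theorem th_model (h : col (B 0) 1 = t.H Rl) (M : Type) [LA.Structure M] (hM : M ⊨ t.th Rl B) :
    PM M ∧ (∀ n, TK (PreLA M) (t.K n) = t.U Rl B n) ∧ df t.β M = B 0 := by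
  obtain ⟨N, _, -, h2, h3⟩ := th_eq h
  have hN : N ⊨ t.th Rl B := h3 ▸ model_completeTheory
  have k1 := pm_of_model (hM.mono (th_max h).2)
  have k2 := fun n => (TK_eq (th_max h).1 (th_max h).2 hM hN (t.K n)).trans (h2 n)
  obtain ⟨N', _, m1, m2, m3⟩ := coh h 0
  exact ⟨k1, k2, (t.same_β k1 m1 0 ((k2 0).trans m2.symm)).trans m3⟩

theorem cg_unique {j n : ℕ} {C C' V : CS} (h : ∀ l, Cg j n (t.H Rl) C l V)
    (h' : ∀ l, Cg j n (t.H Rl) C' l V) : C' = C := by
  funext i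
  induction i using Nat.strong_induction_on with
  | _ i ih =>
    have e1 := h (i + 1) (pre C i) (ext_pre C i) (by simp) _ (by rw [H3, gr_grf])
    have e2 := h' (i + 1) (pre C i) (ext_pre_iff.2 ih) (by simp) _ (by rw [H3, gr_grf])
    rw [pre_length] at e1 e2
    rw [← e1, ← e2]

theorem down_iff (h : col (B 0) 1 = t.H Rl) (M : Type) [LA.Structure M] (hM : M ⊨ t.th Rl B)
    (k : ℕ) (V : CS) : (∀ x i, Gr (col (col (B 0) 1) 4) k x i → t.U Rl B k i = V x) ↔
      V = TK (PreLA M) k := by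
  simp only [h, H4, gr_grf, forall_eq', ← (th_model h M hM).2.1 k, ← t.hdd k M]
  exact ⟨fun H => funext fun x => (H x).symm, fun H x => H ▸ rfl⟩

theorem meas_U {α : Type} [MeasurableSpace α] {f : α → ℕ → CS} (hf : Measurable f)
    (h : ∀ a, col (f a 0) 1 = t.H Rl) : ∀ n, Measurable fun a => t.U Rl (f a) n
  | 0 => by
    refine measurable_lm (fun a => t.closed_P0 Rl _) (fun a => t.ne_P0 Rl _) fun τ => ?_
    have h1 : IsClosed {V | InS (t.H Rl) 0 V ∧ Ext τ V} := (closed_InS _ _).inter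
      ((Pii.ext (α := Unit) CM.id (Computable.const τ)).isClosed ())
    have h2 := (h1.isCompact.image (f := fun (V : CS) e => V (t.q0 e))
      (continuous_pi fun e => continuous_apply _)).isClosed.measurableSet
    refine (((measurable_pi_apply 0).comp hf) h2).congr (Set.ext fun a => ⟨?_, ?_⟩)
    · rintro ⟨V, ⟨k1, k2⟩, k3⟩
      exact ⟨V, ⟨k1, congrFun k3⟩, k2⟩
    · rintro ⟨V, ⟨k1, k2⟩, k3⟩
      exact ⟨V, ⟨k1, k3⟩, funext k2⟩
  | n + 1 => by
    refine measurable_lm (fun a => closed_QI _ _ _ _ _)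
      (fun a => by rw [h a]; exact (coh (h a) n).ne (h a) _) fun τ => ?_
    have h1 := ((Pii.exC (P := fun X V (_ : Unit) =>
      (∀ l, QQ iD n (lf X) (lf (rt X)) (rt (rt X)) l V) ∧ Ext τ V)
      ((pii_QI CM.id.lf.lf CM.id.lf.rt.lf CM.id.lf.rt.rt CM.id.rt (by fun_prop) (by fun_prop)).and
        (Pii.ext CM.id.rt (by fun_prop)))).isClosed ()).measurableSet
    have h2 := measurable_jn (meas_U hf h n) (measurable_jn (measurable_const (a := t.H Rl))
      ((measurable_pi_apply (n + 1)).comp hf)) h1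
    refine h2.congr (Set.ext fun a => ?_)
    simp [h a]

end TD

theorem exists_tower (Rl : CS) : Nonempty (Tower Rl) := by
  obtain ⟨t⟩ := exists_TD
  refine ⟨{
    H := t.H Rl
    b0 := !(@df t.β ℕ natS 0)
    th := t.th Rl
    U := t.U Rl
    Left := fun n U B0 C V => Lm {V' | ∀ l, QQ iD n U (col B0 1) C l V'} V
    Down := fun k B0 U V => ∀ x i, Gr (col (col B0 1) 4) k x i → U i = V x
    hH := col_rs _ _
    loc := fun B B' n => ?_
    left_de := fun Z => ?_
    down_de := fun Z => ?_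
    meas := fun α _ f hf h => measurable_pi_lambda _ fun n => ?_
    max := fun B h => TD.th_max h
    ne := fun B h h0 e => ?_
    inj := fun B B' h h' e => ?_
    rep0 := fun B h M _ hM => ⟨t.β, (TD.th_model h M hM).2.2⟩
    repU := fun B h M _ hM n => ?_
    leB := fun B h n => ?_
    leT := fun B h M _ hM k => ?_
    left := fun B h n V => ?_
    down := fun B h M _ hM k V => TD.down_iff h M hM k V }⟩
  · induction n with
    | zero => exact fun h => by rw [TD.U, TD.U, h 0 le_rfl]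
    | succ n ih =>
      exact fun h => by
        rw [TD.U, TD.U, ih fun m hm => h m (by omega), h 0 (by omega), h (n + 1) le_rfl]
  · exact DE.comp (f := fun w : (ℕ × ℕ × ℕ) × ℕ × ℕ => ((w.1, w.2.1), w.2.2))
      (de_lm (P := fun Z V (a : (ℕ × ℕ × ℕ) × ℕ) =>
        ∀ l, QQ iD a.1.1 (col Z a.1.2.1) (col (col Z a.1.2.2) 1) (col Z a.2) l V)
        (pii_QI (CM.id.lf.col (by fun_prop)) ((CM.id.lf.col (by fun_prop)).col (by fun_prop))
          (CM.id.lf.col (by fun_prop)) CM.id.rt (by fun_prop) (by fun_prop)) Z) (by fun_prop)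
  · exact ((pii_Tr (((CM.id.col (by fun_prop)).col (by fun_prop)).col (by fun_prop))
      (CM.id.col (by fun_prop)) (CM.id.col (by fun_prop)) (by fun_prop)).de Z).up
  · rcases n_sent n with k | ⟨k, j, H⟩
    · simp only [k]
      exact measurable_const
    · have : (fun a => tg (t.th Rl (f a)) n) = fun a => t.U Rl (f a) k (t.dd k j) :=
        funext fun a => by
          obtain ⟨N, _, -, h2, h3⟩ := TD.th_eq (h a)
          rw [h3, H, t.hdd, h2]
      rw [this]
      exact (measurable_pi_apply _).comp (TD.meas_U hf h k)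
  · have := (@TD.th_model t Rl B h ℕ natS (e ▸ @model_completeTheory LA ℕ natS)).2.2
    rw [this] at h0
    simp at h0
  · obtain ⟨N, _, hN⟩ := exists_model (TD.th_max h).1
    obtain ⟨-, k1, k2⟩ := TD.th_model h N hN
    obtain ⟨-, m1, m2⟩ := TD.th_model h' N (e ▸ hN)
    funext n
    cases n with
    | zero => exact k2.symm.trans m2
    | succ n =>
      exact TD.cg_unique (fun l => ((TD.lmU h' n).1 l).2.2) fun l => by
        rw [← m1, k1]; exact ((TD.lmU h n).1 l).2.2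
  · obtain ⟨φ, hφ⟩ := tower_df_TK (t.K n)
    exact ⟨φ, (hφ M (TD.th_model h M hM).1).trans ((TD.th_model h M hM).2.1 n)⟩
  · refine leT_of_unique (P := fun y C => ∀ l, Cg iD n (col (rt y) 1) C l (lf y))
      (Pii.all (pii_Cg (CM.id.lf.rt.col (by fun_prop)) CM.id.rt CM.id.lf.lf (by fun_prop)
        (by fun_prop) (by fun_prop))) ?_ fun C hC => ?_
    · rw [lf_jn, rt_jn, h]
      exact fun l => ((TD.lmU h n).1 l).2.2
    · rw [lf_jn, rt_jn, h] at hC
      exact TD.cg_unique (fun l => ((TD.lmU h n).1 l).2.2) hC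
  · refine leT_of_unique (P := fun y V => ∀ x i, Gr (col (col (rt y) 1) 4) k x i → lf y i = V x)
      (pii_Tr ((CM.id.lf.rt.col (by fun_prop)).col (by fun_prop)) CM.id.lf.lf CM.id.rt
        (by fun_prop)) ?_ fun V hV => ?_
    · rw [lf_jn, rt_jn]
      exact (TD.down_iff h M hM k _).2 rfl
    · rw [lf_jn, rt_jn] at hV
      exact (TD.down_iff h M hM k _).1 hV
  · rw [h]
    exact ⟨fun k => k.unique (TD.lmU h n), fun k => k ▸ TD.lmU h n⟩

end Pool.Agent.MinDeg
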