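import Pool.Agent.P.MP_f8f34d_lc.N.Defs

/-! The category quantifier preserves Borel sets; well foundedness is not Borel (section 7). -/

namespace Pool.Agent.MinDeg

theorem bor_mono {β : Type} [TopologicalSpace β] {s t : Set β} (hs : IsMeagre s)
    (h : ∀ x, x ∈ t → x ∈ s) : IsMeagre t := IsMeagre.mono h hs

theorem bor_compl {β : Type} [TopologicalSpace β] [SecondCountableTopology β] [BaireSpace β]
    {S W : Set β} (hS : BaireMeasurableSet S) (hW : IsOpen W) :
    IsMeagre (W ∩ Sᶜ) ↔
      ∀ W' ∈ TopologicalSpace.countableBasis β, W' ⊆ W → ¬ IsMeagre (W' ∩ S) := by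
  constructor
  · intro h W' hW' hsub h'
    refine not_isMeagre_of_isOpen (TopologicalSpace.isOpen_of_mem_countableBasis hW')
      (TopologicalSpace.nonempty_of_mem_countableBasis hW') (bor_mono (h.union h') fun x hx => ?_)
    by_cases k : x ∈ S
    · exact Or.inr ⟨hx, k⟩
    · exact Or.inl ⟨hsub hx, k⟩
  · intro h
    obtain ⟨U, hU, e⟩ := hS.compl.residualEq_isOpen
    have hm : IsMeagre {x | ¬ (x ∈ Sᶜ ↔ x ∈ U)} := by
      rw [IsMeagre]
      filter_upwards [e.mem_iff] with x hx
      exact fun k => k hx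
    rcases (W ∩ U).eq_empty_or_nonempty with k | ⟨x, hx⟩
    · refine bor_mono hm fun x hx hi => ?_
      have : x ∈ W ∩ U := ⟨hx.1, hi.1 hx.2⟩
      rw [k] at this
      exact this
    · obtain ⟨W', h1, -, h3⟩ :=
        (TopologicalSpace.isBasis_countableBasis β).exists_subset_of_mem_open hx (hW.inter hU)
      exact absurd (bor_mono hm fun y hy hi => hi.2 (h3 hy.1).2 hy.2) (h W' h1 fun y hy => (h3 hy).1)

theorem mn {α β : Type} [MeasurableSpace α] [TopologicalSpace β] [SecondCountableTopology β]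
    [BaireSpace β] [MeasurableSpace β] [BorelSpace β] {E : Set (α × β)} (hE : MeasurableSet E) :
    MeasurableSet {a | IsMeagre {b | (a, b) ∈ E}} := by
  have key : ∀ W : Set β, IsOpen W → MeasurableSet {a | IsMeagre (W ∩ {b | (a, b) ∈ E})} := by
    rw [← generateFrom_prod] at hE
    induction E, hE using MeasurableSpace.generateFrom_induction with
    | hC E hE _ =>
      obtain ⟨s, hs, t, -, rfl⟩ := hE
      intro W _
      by_cases h : IsMeagre (W ∩ t)
      · have : {a | IsMeagre (W ∩ {b | (a, b) ∈ s ×ˢ t})} = Set.univ :=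
          Set.eq_univ_of_forall fun a => bor_mono h fun b hb => ⟨hb.1, hb.2.2⟩
        rw [this]; exact MeasurableSet.univ
      · have : {a | IsMeagre (W ∩ {b | (a, b) ∈ s ×ˢ t})} = sᶜ := by
          ext a
          refine ⟨fun k ha => h (bor_mono k fun b hb => ⟨hb.1, ha, hb.2⟩), fun ha => ?_⟩
          exact bor_mono IsMeagre.empty fun b hb => ha hb.2.1
        rw [this]; exact MeasurableSet.compl hs
    | empty =>
      intro W _
      have : {a : α | IsMeagre (W ∩ {b | (a, b) ∈ (∅ : Set (α × β))})} = Set.univ :=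
        Set.eq_univ_of_forall fun a => bor_mono IsMeagre.empty fun b hb => hb.2
      rw [this]; exact MeasurableSet.univ
    | compl E hE ih =>
      intro W hW
      rw [generateFrom_prod] at hE
      have : {a | IsMeagre (W ∩ {b | (a, b) ∈ Eᶜ})} = ⋂ W' ∈ TopologicalSpace.countableBasis β,
          ⋂ _ : W' ⊆ W, {a | IsMeagre (W' ∩ {b | (a, b) ∈ E})}ᶜ := by
        ext a
        simp only [Set.mem_iInter]
        exact bor_compl (S := {b | (a, b) ∈ E})
          (measurable_prodMk_left hE).baireMeasurableSet hW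
      rw [this]
      exact MeasurableSet.biInter (TopologicalSpace.countable_countableBasis β) fun W' hW' =>
        MeasurableSet.iInter fun _ =>
          (ih W' (TopologicalSpace.isOpen_of_mem_countableBasis hW')).compl
    | iUnion E _ ih =>
      intro W hW
      have : {a | IsMeagre (W ∩ {b | (a, b) ∈ ⋃ n, E n})} =
          ⋂ n, {a | IsMeagre (W ∩ {b | (a, b) ∈ E n})} := by
        ext a
        simp only [Set.mem_iInter]
        refine ⟨fun h n => bor_mono h fun b hb => ⟨hb.1, Set.mem_iUnion.2 ⟨n, hb.2⟩⟩,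
          fun h => bor_mono (isMeagre_iUnion h) fun b hb => ?_⟩
        obtain ⟨n, hn⟩ := Set.mem_iUnion.1 hb.2
        exact Set.mem_iUnion.2 ⟨n, hb.1, hn⟩
      rw [this]
      exact MeasurableSet.iInter fun n => ih n W hW
  simpa only [Set.univ_inter] using key Set.univ isOpen_univ

/-- `x` extends the finite sequence `s` -/
def borExt (s : List ℕ) (x : ℕ → ℕ) : Prop := ∀ i < s.length, x i = s.getD i 0

/-- the tree of attempts to find a descending chain in some `f x` -/
def borLt (f : (ℕ → ℕ) → CS) (u v : List ℕ × ℕ) : Prop :=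
  v.1.length < u.1.length ∧ (∀ i < v.1.length, u.1.getD i 0 = v.1.getD i 0) ∧
    ∀ x, borExt u.1 x → f x (Nat.pair u.2 v.2) = true

theorem bor_wf {f : (ℕ → ℕ) → CS} (hf : ∀ x, WF (f x)) : WellFounded (borLt f) := by
  refine wellFounded_iff_isEmpty_descending_chain.2 ⟨fun ⟨g, hg⟩ => ?_⟩
  have hlen : ∀ k, k ≤ (g k).1.length := by
    intro k
    induction k with
    | zero => exact Nat.zero_le _
    | succ k ih => exact Nat.succ_le_of_lt (lt_of_le_of_lt ih (hg k).1)
  have hmono : ∀ k l, k ≤ l → (g k).1.length ≤ (g l).1.length ∧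
      ∀ i < (g k).1.length, (g l).1.getD i 0 = (g k).1.getD i 0 := by
    intro k l hkl
    induction l, hkl using Nat.le_induction with
    | base => exact ⟨le_rfl, fun _ _ => rfl⟩
    | succ l _ ih =>
      exact ⟨ih.1.trans (hg l).1.le, fun i hi =>
        ((hg l).2.1 i (lt_of_lt_of_le hi ih.1)).trans (ih.2 i hi)⟩
  have hx : ∀ k, borExt (g k).1 fun i => (g (i + 1)).1.getD i 0 := by
    intro k i hi
    rcases le_total k (i + 1) with h | h
    · exact (hmono _ _ h).2 i hi
    · exact ((hmono _ _ h).2 i (hlen (i + 1))).symm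
  exact (wellFounded_iff_isEmpty_descending_chain.1 (hf _)).false
    ⟨fun k => (g k).2, fun k => (hg k).2.2 _ (hx (k + 1))⟩

theorem bor_step {f : (ℕ → ℕ) → CS} (hf : Continuous f) (x : ℕ → ℕ) (k : ℕ) {a b : ℕ}
    (h : f x (Nat.pair a b) = true) :
    ∃ k', borLt f ((List.range k').map x, a) ((List.range k).map x, b) := by
  have ho : IsOpen {y | f y (Nat.pair a b) = true} :=
    (isOpen_discrete {true}).preimage ((continuous_apply _).comp hf)
  obtain ⟨I, u, h1, h2⟩ := isOpen_pi_iff.1 ho x h
  have hget : ∀ n i, i < n → ((List.range n).map x).getD i 0 = x i := fun n i hi => by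
    simp [List.getD_eq_getElem?_getD, hi]
  refine ⟨k + I.sup id + 1, ?_, fun i hi => ?_, fun y hy => h2 fun i hi => ?_⟩
  · simp only [List.length_map, List.length_range]; omega
  · simp only [List.length_map, List.length_range] at hi
    exact (hget _ i (by omega)).trans (hget _ i hi).symm
  · have h3 : i ≤ I.sup id := Finset.le_sup (f := id) hi
    have h4 := hy i (by simp only [List.length_map, List.length_range]; omega)
    rw [h4, hget _ i (by omega)]
    exact (h1 i hi).2

theorem bd : ¬ MeasurableSet {r : CS | WF r} := by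
  classical
  intro hm
  have : PolishSpace CS := {}
  have ha := hm.analyticSet
  rw [MeasureTheory.AnalyticSet] at ha
  rcases ha with h | ⟨f, hf, hr⟩
  · have : (fun _ => false : CS) ∈ {r : CS | WF r} :=
      ⟨fun a => ⟨a, fun _ h => absurd h Bool.false_ne_true⟩⟩
    rw [h] at this
    exact this
  have hwf : WellFounded (borLt f) := bor_wf fun x => (hr ▸ Set.mem_range_self x : f x ∈ {r | WF r})
  let rel : ℕ → ℕ → Prop := fun a b => ∃ u : List ℕ × ℕ, a = Encodable.encode u + 1 ∧
    (b = 0 ∨ ∃ v : List ℕ × ℕ, b = Encodable.encode v + 1 ∧ borLt f u v)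
  have hacc : ∀ v : List ℕ × ℕ, Acc rel (Encodable.encode v + 1) := by
    intro v
    induction v using hwf.induction with
    | _ v ih =>
      refine ⟨_, ?_⟩
      rintro a ⟨u, rfl, h | ⟨v', h1, h2⟩⟩
      · exact absurd h (Nat.succ_ne_zero _)
      · rw [← Encodable.encode_injective (Nat.succ_injective h1)] at h2
        exact ih u h2
  have hrel : WellFounded rel := ⟨fun b => ⟨b, by rintro a ⟨u, rfl, -⟩; exact hacc u⟩⟩
  have hR : (fun p => decide (rel p.unpair.1 p.unpair.2) : CS) ∈ {r : CS | WF r} :=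
    Subrelation.wf (fun {a b} h => by simpa only [Nat.unpair_pair, decide_eq_true_eq] using h) hrel
  rw [← hr] at hR
  obtain ⟨x, hx⟩ := hR
  have hfx : ∀ a b, rel a b → f x (Nat.pair a b) = true := fun a b h => by
    rw [hx]; simpa only [Nat.unpair_pair, decide_eq_true_eq] using h
  obtain ⟨v, ⟨k, n, rfl, hv⟩, hmin⟩ := hwf.has_min
    {v | ∃ k n, v = ((List.range k).map x, n) ∧ rel (Encodable.encode v + 1) n}
    ⟨_, 0, 0, rfl, _, rfl, Or.inl rfl⟩
  obtain ⟨k', hk'⟩ := bor_step hf x k (hfx _ _ hv)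
  exact hmin _ ⟨k', _, rfl, _, rfl, Or.inr ⟨_, rfl, hk'⟩⟩ hk'

end Pool.Agent.MinDeg
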