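import Pool.Agent.P.MP_f8f34d_lc.N.Defs
import Pool.Agent.P.MP_f8f34d_lc.a.SolV
import Pool.Agent.P.MP_f8f34d_lc.a.SolE

/-! Rich classes and rich trees; a general run of a worker with a stack. -/

namespace Pool.Agent.MinDeg.MM

open Pool.Agent.Lib.ComputableProp Sol

/-- position `p` comes before bit `n` of column `m` -/
def inm (m n p : ℕ) : Bool := leb (p.unpair.1 + 1) m || (eqb p.unpair.1 m && leb (p.unpair.2 + 1) n)

theorem inm_iff {m n p : ℕ} : inm m n p = true ↔ p.unpair.1 < m ∨ (p.unpair.1 = m ∧ p.unpair.2 < n) := by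
  simp [inm]

/-- the bits of free columns can be changed -/
def Rich (e0 : ℕ) (C : Set CS) (N : ℕ) : Prop := ∀ X ∈ C, ∀ m n b, m.unpair.1 = e0 → N ≤ m →
  ∃ X' ∈ C, (∀ p, inm m n p = true → X' p = X p) ∧ X' (Nat.pair m n) = b

def Pth (T X : CS) : Prop := ∀ σ : List Bool, Ext σ X → T (Encodable.encode σ) = true

/-- `T` codes a rich tree without dead ends inside `C` that contains `σ0` -/
def TG (e0 : ℕ) (T : CS) (C : CS → Prop) (N : ℕ) (σ0 : List Bool) : Prop :=
  T (Encodable.encode σ0) = true ∧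
  (∀ σ : List Bool, T (Encodable.encode σ) = true → ∃ X, C X ∧ Ext σ X ∧ Pth T X) ∧
  ∀ w : List Bool × ℕ × ℕ × Bool, T (Encodable.encode w.1) = true → w.2.1.unpair.1 = e0 →
    N ≤ w.2.1 → ∃ X', Pth T X' ∧ (∀ p < w.1.length, inm w.2.1 w.2.2.1 p = true →
      X' p = w.1.getD p false) ∧ X' (Nat.pair w.2.1 w.2.2.1) = w.2.2.2

def fr (e0 : ℕ) (σ : List Bool) (N : ℕ) : ℕ := Nat.pair e0 (σ.length + N)

/-- a system of trees, one for each node of `T`, along which `B` is coded -/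
def Sys (e0 : ℕ) (T B Sg : CS) (N : ℕ) : Prop := ∀ σ0 : List Bool,
  T (Encodable.encode σ0) = true → TG e0 (col Sg (Encodable.encode σ0))
    (fun X => Pth T X ∧ col X (fr e0 σ0 N) = B) (fr e0 σ0 N + 1) σ0

section Eff
variable {α : Type} [Primcodable α]

theorem pii_Pth {F G : CS → α → CS} (hF : CM F) (hG : CM G) :
    Pii (fun z a => Pth (F z a) (G z a)) :=
  Pii.all (Pii.imp ((hG.comp (g := fun w : α × List Bool => w.1) (by fun_prop)).ext (by fun_prop))
    (Pii.bit (hF.comp (g := fun w : α × List Bool => w.1) (by fun_prop)) (by fun_prop) (by fun_prop)))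

theorem cm_lf {F : CS → α → CS} (hF : CM F) : CM (fun z a => F (lf z) a) :=
  Sig.map (P := fun z (w : α × ℕ × Bool) => F z w.1 w.2.1 = w.2.2) hF CM.id.lf Computable.id

theorem pii_TG (e0 : ℕ) {F : CS → α → CS} (hF : CM F) {C : CS → α → CS → Prop}
    (hC : Pii (fun z a => C (lf z) a (rt z))) {N : α → ℕ} {σ0 : α → List Bool} (hN : Computable N)
    (hσ : Computable σ0) : Pii (fun z a => TG e0 (F z a) (C z a) (N a) (σ0 a)) := by
  refine (Pii.bit hF (by fun_prop) (by fun_prop)).and (Pii.and ?_ ?_)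
  · have hF' := hF.comp (g := fun w : α × List Bool => w.1) (by fun_prop)
    refine Pii.all (Pii.imp (hF'.bit (by fun_prop) (by fun_prop)) ?_)
    exact Pii.exC (P := fun z X (w : α × List Bool) => C z w.1 X ∧ Ext w.2 X ∧ Pth (F z w.1) X)
      ((hC.comp Computable.fst).and ((Pii.ext CM.id.rt (by fun_prop)).and
        (pii_Pth (cm_lf hF') CM.id.rt)))
  · have hF' := hF.comp (g := fun w : α × List Bool × ℕ × ℕ × Bool => w.1) (by fun_prop)
    refine Pii.all (Pii.imp (hF'.bit (by fun_prop) (by fun_prop)) (Pii.imp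
      (Sig.of_re (RE.eq (by fun_prop) (by fun_prop))) (Pii.imp
      (Sig.of_re (RE.le (by fun_prop) (by fun_prop))) ?_)))
    refine Pii.exC (P := fun z X' (w : α × List Bool × ℕ × ℕ × Bool) => Pth (F z w.1) X' ∧
      (∀ p < w.2.1.length, inm w.2.2.1 w.2.2.2.1 p = true → X' p = w.2.1.getD p false) ∧
        X' (Nat.pair w.2.2.1 w.2.2.2.1) = w.2.2.2.2)
      ((pii_Pth (cm_lf hF') CM.id.rt).and (Pii.and ?_ (Pii.bit CM.id.rt (by fun_prop) (by fun_prop))))
    refine Pii.all (Pii.imp (Sig.of_re (RE.lt (by fun_prop) (by fun_prop))) (Pii.imp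
      (Sig.of_re (RE.eq ?_ (by fun_prop))) (Pii.bit CM.id.rt (by fun_prop) (by fun_prop))))
    unfold inm; fun_prop

theorem pii_Sys (e0 : ℕ) {F G H : CS → α → CS} (hF : CM F) (hG : CM G) (hH : CM H) {N : α → ℕ}
    (hN : Computable N) : Pii (fun z a => Sys e0 (F z a) (G z a) (H z a) (N a)) := by
  have hF' := hF.comp (g := fun w : α × List Bool => w.1) (by fun_prop)
  have hG' := hG.comp (g := fun w : α × List Bool => w.1) (by fun_prop)
  have hH' := hH.comp (g := fun w : α × List Bool => w.1) (by fun_prop)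
  have hf : Computable fun w : α × List Bool => fr e0 w.2 (N w.1) := by unfold fr; fun_prop
  refine Pii.all (Pii.imp (hF'.bit (by fun_prop) (by fun_prop)) ?_)
  exact pii_TG e0 (hH'.col (by fun_prop))
    (C := fun z (w : α × List Bool) X => Pth (F z w.1) X ∧ col X (fr e0 w.2 (N w.1)) = G z w.1)
    ((pii_Pth (cm_lf hF') CM.id.rt).and (Pii.eqC (CM.id.rt.col hf) (cm_lf hG')))
    (c_add hf (by fun_prop)) (by fun_prop)

theorem scott_use {R : CS} (hR : Scott R) {P : CS → CS → CS → α → Prop}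
    (h : Pii (fun z a => P (lf (lf z)) (rt (lf z)) (rt z) a)) (u v : ℕ) (a : α)
    (hY : ∃ Y, P (col R u) (col R v) Y a) : ∃ w, P (col R u) (col R v) (col R w) a := by
  obtain ⟨s, -, hs⟩ := h.index
  obtain ⟨Y, hY⟩ := hY
  obtain ⟨w, hw⟩ := hR u v (s a) ⟨Y, (hs _ _).2 (by simpa using hY)⟩
  exact ⟨w, by simpa using (hs _ _).1 hw⟩

end Eff

theorem closed_bit (p : ℕ) (b : Bool) : IsClosed {X : CS | X p = b} :=
  isClosed_eq (continuous_apply p) continuous_const

theorem closed_col (m : ℕ) (B : CS) : IsClosed {X : CS | col X m = B} :=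
  isClosed_eq (continuous_pi fun _ => continuous_apply _) continuous_const

theorem closed_Pth (T : CS) : IsClosed {X | Pth T X} := by
  unfold Pth
  rw [Set.ofPred_forall]
  refine isClosed_iInter fun σ => ?_
  by_cases h : T (Encodable.encode σ) = true
  · simp [h]
  · have : {X | Ext σ X → T (Encodable.encode σ) = true} = {X | Ext σ X}ᶜ := by ext X; simp [h]
    rw [this]
    exact (((CM.id (α := Unit)).ext (Computable.const σ)).isOpen ()).isClosed_compl

theorem lim {C : Set CS} (hC : IsClosed C) (D : ℕ → Prop) (Y : CS)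
    (h : ∀ n, ∃ X ∈ C, ∀ p < n, D p → X p = Y p) : ∃ X ∈ C, ∀ p, D p → X p = Y p := by
  have hc : ∀ n, IsClosed {X | X ∈ C ∧ ∀ p < n, D p → X p = Y p} := fun n => by
    refine hC.and ?_
    simp only [Set.ofPred_forall]
    exact isClosed_iInter fun p => isClosed_iInter fun _ => isClosed_iInter fun _ => closed_bit _ _
  obtain ⟨X, hX⟩ := IsCompact.nonempty_iInter_of_sequence_nonempty_isCompact_isClosed
    (fun n => {X | X ∈ C ∧ ∀ p < n, D p → X p = Y p})
    (fun n X hX => ⟨hX.1, fun p hp => hX.2 p (by omega)⟩) h (hc 0).isCompact hc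
  rw [Set.mem_iInter] at hX
  exact ⟨X, (hX 0).1, fun p => (hX (p + 1)).2 p (by omega)⟩

theorem rich_PP : ∃ e0, Rich e0 PP 0 := by
  classical
  obtain ⟨e0, he⟩ := (Sig.of_re (α := (ℕ × ℕ) × Bool) (RE.ne (Computable.const 0)
    (Computable.const 0))).index
  refine ⟨e0, fun X hX m n b hm _ => ?_⟩
  obtain ⟨X', h⟩ := base_rec fun x w => if inm m n (Nat.pair w.1 w.2) = true then X (Nat.pair w.1 w.2)
    else if w = (m, n) then b else decide (Dead1 x w false)
  have h1 : ∀ p, inm m n p = true → X' p = X p := fun p hp => by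
    have := h p.unpair.1 p.unpair.2
    simpa only [Nat.pair_unpair, hp, if_true] using this
  refine ⟨X', fun m' n' k => ?_, h1, by rw [h, if_neg (by simp [inm_iff]), if_pos rfl]⟩
  by_cases c1 : inm m n (Nat.pair m' n') = true
  · have : mask m' n' X' = mask m' n' X := by
      funext p
      show cond (inm m' n' p) _ _ = cond (inm m' n' p) _ _
      cases c : inm m' n' p
      · rfl
      · refine h1 p ?_
        rw [inm_iff] at c c1 ⊢
        simp only [Nat.unpair_pair] at c1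
        omega
    rw [this, h1 _ c1] at k
    exact hX m' n' k
  · by_cases c2 : (m', n') = (m, n)
    · obtain ⟨rfl, rfl⟩ := Prod.mk.inj c2
      have := base_spec.2.1 _ _ _ k
      unfold Dead at this
      rw [hm, ← he] at this
      exact this rfl
    · rw [h, if_neg c1, if_neg c2] at k
      by_cases c3 : Dead1 (mask m' n' X') (m', n') false
      · rw [decide_eq_true c3] at k
        exact Bool.noConfusion (base_spec.2.2.1 _ _ _ _ c3 k)
      · rw [decide_eq_false c3] at k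
        exact c3 k

variable {e0 : ℕ}

theorem exists_TG {C : Set CS} {N : ℕ} (h : Rich e0 C N) {X0 : CS} (h0 : X0 ∈ C) {σ0 : List Bool}
    (hσ : Ext σ0 X0) : ∃ T, TG e0 T (fun X => X ∈ C) N σ0 := by
  classical
  have key : ∃ T : CS, ∀ σ : List Bool, T (Encodable.encode σ) = true ↔ ∃ X ∈ C, Ext σ X :=
    ⟨fun k => decide (∃ σ : List Bool, Encodable.encode σ = k ∧ ∃ X ∈ C, Ext σ X), fun σ => by simp⟩
  obtain ⟨T, hT⟩ := key
  have hp : ∀ X ∈ C, Pth T X := fun X hX σ hσ => (hT σ).2 ⟨X, hX, hσ⟩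
  refine ⟨T, (hT _).2 ⟨X0, h0, hσ⟩, fun σ hσ => ?_, fun w hw h1 h2 => ?_⟩
  · obtain ⟨X, a, b⟩ := (hT σ).1 hσ
    exact ⟨X, a, b, hp X a⟩
  · obtain ⟨X, a, b⟩ := (hT _).1 hw
    obtain ⟨X', c, d, e⟩ := h X a _ w.2.2.1 w.2.2.2 h1 h2
    exact ⟨X', hp X' c, fun p hp k => (d p k).trans (b p hp), e⟩

theorem TG.sub {T : CS} {C : CS → Prop} {N : ℕ} {σ0 : List Bool} (h : TG e0 T C N σ0)
    (hC : IsClosed {X | C X}) {X : CS} (hX : Pth T X) : C X := by
  obtain ⟨Y, a, b⟩ := lim hC (fun _ => True) X fun n => by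
    obtain ⟨Y, a, b, -⟩ := h.2.1 _ (hX _ (ext_pre X n))
    exact ⟨Y, a, fun p hp _ => ext_pre_iff.1 b p hp⟩
  rwa [← (funext fun p => b p trivial : Y = X)]

theorem TG.rich {T : CS} {C : CS → Prop} {N : ℕ} {σ0 : List Bool} (h : TG e0 T C N σ0) :
    Rich e0 {X | Pth T X} N := by
  intro X hX m n b h1 h2
  obtain ⟨Y, a, c⟩ := lim ((closed_Pth T).inter (closed_bit (Nat.pair m n) b))
    (fun p => inm m n p = true) X fun k => by
      obtain ⟨Y, a, c, d⟩ := h.2.2 (pre X k, m, n, b) (hX _ (ext_pre X k)) h1 h2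
      exact ⟨Y, ⟨a, d⟩, fun p hp q => (c p (by simpa using hp) q).trans (pre_getD X hp)⟩
  exact ⟨Y, a.1, c, a.2⟩

theorem Rich.code {C : Set CS} {N m : ℕ} (h : Rich e0 C N) (hC : IsClosed C) (h1 : m.unpair.1 = e0)
    (h2 : N ≤ m) (B : CS) {X0 : CS} (h0 : X0 ∈ C) :
    ∃ X ∈ C, (∀ p, p.unpair.1 < m → X p = X0 p) ∧ col X m = B := by
  have key : ∀ n, ∃ X ∈ C, (∀ p, p.unpair.1 < m → X p = X0 p) ∧ ∀ k < n, X (Nat.pair m k) = B k := by
    intro n
    induction n with
    | zero => exact ⟨X0, h0, fun _ _ => rfl, by simp⟩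
    | succ n ih =>
      obtain ⟨X, a, b, c⟩ := ih
      obtain ⟨X', d, e, f⟩ := h X a m n (B n) h1 h2
      refine ⟨X', d, fun p hp => (e p (inm_iff.2 (Or.inl hp))).trans (b p hp), fun k hk => ?_⟩
      rcases (by omega : k < n ∨ k = n) with g | rfl
      · exact (e _ (inm_iff.2 (by simp [g]))).trans (c k g)
      · exact f
  obtain ⟨X, a, b⟩ := lim hC (fun p => p.unpair.1 ≤ m)
    (fun p => if p.unpair.1 = m then B p.unpair.2 else X0 p) fun n => by
      obtain ⟨X, a, b, c⟩ := key n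
      refine ⟨X, a, fun p hp q => ?_⟩
      by_cases g : p.unpair.1 = m
      · rw [if_pos g, ← c _ ((Nat.unpair_right_le p).trans_lt hp), ← g, Nat.pair_unpair]
      · rw [if_neg g, b p (by omega)]
  refine ⟨X, a, fun p hp => (b p hp.le).trans (if_neg hp.ne), funext fun k => ?_⟩
  simpa [col] using b (Nat.pair m k) (by simp)

theorem exists_Sys {T : CS} {N : ℕ} (h : Rich e0 {X | Pth T X} N)
    (hp : ∀ σ : List Bool, T (Encodable.encode σ) = true → ∃ X, Ext σ X ∧ Pth T X) (B : CS) :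
    ∃ Sg, Sys e0 T B Sg N := by
  have key : ∀ σ0 : List Bool, ∃ T', T (Encodable.encode σ0) = true →
      TG e0 T' (fun X => Pth T X ∧ col X (fr e0 σ0 N) = B) (fr e0 σ0 N + 1) σ0 := by
    intro σ0
    by_cases h0 : T (Encodable.encode σ0) = true
    swap
    · exact ⟨zz, fun k => absurd k h0⟩
    obtain ⟨X0, a, b⟩ := hp σ0 h0
    have hle : σ0.length + N ≤ fr e0 σ0 N := Nat.right_le_pair _ _
    obtain ⟨X, c, d, e⟩ := h.code (m := fr e0 σ0 N) (closed_Pth T) (by simp [fr]) (by omega) B b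
    obtain ⟨T', hT⟩ := exists_TG (e0 := e0) (C := {X | Pth T X ∧ col X (fr e0 σ0 N) = B})
      (N := fr e0 σ0 N + 1) (fun Y hY m n s h1 h2 => by
        obtain ⟨Y', f, g, i⟩ := h Y hY.1 m n s h1 (by omega)
        refine ⟨Y', ⟨f, Eq.trans (funext fun k => g _ (inm_iff.2 (Or.inl ?_))) hY.2⟩, g, i⟩
        simpa using h2) (X0 := X) ⟨c, e⟩ (σ0 := σ0) fun k hk =>
      (d k (by have := Nat.unpair_left_le k; omega)).trans (a k hk)
    exact ⟨T', fun _ => hT⟩
  choose F hF using key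
  refine ⟨fun p => F ((Encodable.decode (α := List Bool) p.unpair.1).getD []) p.unpair.2,
    fun σ0 h0 => ?_⟩
  have : col (fun p => F ((Encodable.decode (α := List Bool) p.unpair.1).getD []) p.unpair.2)
      (Encodable.encode σ0) = F σ0 := by
    funext k
    simp only [col, Nat.unpair_pair, Encodable.encodek, Option.getD_some]
  rw [this]
  exact hF σ0 h0

/-- the run of a worker with a stack -/
theorem stack_run {π ε γ : Type} [Primcodable π] [Primcodable ε] [Primcodable γ] {x : CS}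
    {val : ε → γ} (hv : Computable val) {mk : γ × ε × π × ℕ → ε} (hk : Computable mk)
    {G : ε × ℕ → γ} (hG : CF x G) {E : π × List ε → π × ℕ} (hE : CF x E) (e0 : ε) (p0 : π) :
    ∃ st : ℕ → π × List ε, CF x st ∧ st 0 = (p0, []) ∧ ∀ t, ∃ (n : ℕ) (b : ε),
      n ≤ (st t).2.length ∧ (∀ i < n, G (en e0 (st t).2 i, t) = val (en e0 (st t).2 (i + 1))) ∧
      (n = (st t).2.length ∨ G (en e0 (st t).2 n, t) ≠ val (en e0 (st t).2 (n + 1))) ∧
      b = mk (G (en e0 (st t).2 n, t), en e0 (st t).2 n, (st t).1, n + 1) ∧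
      st (t + 1) = ((E ((st t).1, (st t).2.take n ++ [b])).1,
        ((st t).2.take n ++ [b]).take ((E ((st t).1, (st t).2.take n ++ [b])).2 - 1)) := by
  have ce : Computable fun w : (ℕ × π × List ε) × ℕ => en e0 w.1.2.2 w.2 := by unfold en; fun_prop
  have hf : Computable fun w : (ℕ × π × List ε) × ℕ =>
      ((en e0 w.1.2.2 w.2, w.1.1), val (en e0 w.1.2.2 (w.2 + 1))) :=
    c_pair (c_pair ce (by fun_prop))
      (hv.comp (ce.comp (g := fun w : (ℕ × π × List ε) × ℕ => (w.1, w.2 + 1)) (by fun_prop)))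
  have hD : DE x fun w : (ℕ × π × List ε) × ℕ =>
      G (en e0 w.1.2.2 w.2, w.1.1) = val (en e0 w.1.2.2 (w.2 + 1)) := hG.de.comp hf
  obtain ⟨N, hN, H⟩ := SE.unif (y := x) (R := fun (w : ℕ × π × List ε) (n : ℕ) =>
      n ≤ w.2.2.length ∧ (∀ i < n, G (en e0 w.2.2 i, w.1) = val (en e0 w.2.2 (i + 1))) ∧
      (n = w.2.2.length ∨ G (en e0 w.2.2 n, w.1) ≠ val (en e0 w.2.2 (n + 1))))
    (SE.and (SE.of_re (RE.le (by fun_prop) (by fun_prop))) (SE.and
      (SE.forall_lt (l := fun w : (ℕ × π × List ε) × ℕ => w.2) (by fun_prop)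
        (hD.1.comp (f := fun w : ((ℕ × π × List ε) × ℕ) × ℕ => (w.1.1, w.2)) (by fun_prop)))
      (SE.or (SE.of_re (RE.eq (by fun_prop) (by fun_prop))) hD.2))) (fun w => by
      classical
      have hex : ∃ n, n = w.2.2.length ∨ G (en e0 w.2.2 n, w.1) ≠ val (en e0 w.2.2 (n + 1)) :=
        ⟨_, Or.inl rfl⟩
      refine ⟨Nat.find hex, Nat.find_min' hex (Or.inl rfl), fun i hi => ?_, Nat.find_spec hex⟩
      exact not_not.1 (not_or.1 (Nat.find_min hex hi)).2)
  have h1 : CF x fun w : ℕ × π × List ε => (w, N w) := (CF.of_computable Computable.id).pair hN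
  have h2 : CF x fun w : (ℕ × π × List ε) × ℕ => (w, G (en e0 w.1.2.2 w.2, w.1.1)) :=
    (CF.of_computable Computable.id).pair (hG.compC (c_pair ce (by fun_prop)))
  have h3 : Computable fun w : ((ℕ × π × List ε) × ℕ) × γ =>
      (w.1.1.2.1, w.1.1.2.2.take w.1.2 ++ [mk (w.2, en e0 w.1.1.2.2 w.1.2, w.1.1.2.1, w.1.2 + 1)]) :=
    c_pair (by fun_prop) (c_append (c_take (by fun_prop) (by fun_prop))
      (c_cons (hk.comp (c_pair (by fun_prop) (c_pair (ce.comp Computable.fst) (by fun_prop))))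
        (by fun_prop)))
  have h4 : CF x fun w : π × List ε => (w, E w) := (CF.of_computable Computable.id).pair hE
  have h5 : Computable fun w : (π × List ε) × π × ℕ => (w.2.1, w.1.2.take (w.2.2 - 1)) :=
    c_pair (by fun_prop) (c_take (by fun_prop) (by fun_prop))
  have h6 := (CF.of_computable h5).comp (h4.comp ((CF.of_computable h3).comp (h2.comp h1)))
  refine ⟨_, h6.iter (p0, []), rfl, fun t => ?_⟩
  exact ⟨_, _, (H (t, _)).1, (H (t, _)).2.1, (H (t, _)).2.2, rfl, rfl⟩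

end Pool.Agent.MinDeg.MM

namespace Pool.Agent.MinDeg

open Pool.Agent.Lib.ComputableProp

/-- what a Scott enumeration computes from two columns is a column -/
theorem Scott.cl {R A : CS} (h : Scott R) {u v : ℕ} (hA : LeT A (jn (col R u) (col R v))) :
    Cl R A := by
  obtain ⟨S, h1, h2⟩ := hA
  obtain ⟨w, hw⟩ := MM.scott_use h (P := fun U V Y (_ : Unit) =>
      ∀ a : ℕ × Bool, S (jn U V) a → Y a.1 = a.2)
    (Pii.all (Pii.imp (h1.map (CM.id.lf.lf.jn CM.id.lf.rt) (by fun_prop))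
      (Pii.bit CM.id.rt (by fun_prop) (by fun_prop)))) u v () ⟨A, fun a ha => (h2 a).1 ha⟩
  exact ⟨w, funext fun n => hw (n, A n) ((h2 _).2 rfl)⟩

theorem Tot.leT {e : ℕ} {x y : CS} (h : Tot e x) (h' : Ag e x y) : LeT y x := by
  refine ⟨_, sig_Ps (α := ℕ × Bool) CM.id (Computable.const e) Computable.fst Computable.snd,
    fun a => ⟨h' _ _, fun k => ?_⟩⟩
  obtain ⟨b, hb⟩ := h a.1
  have k' : y a.1 = a.2 := k
  rwa [← k', h' _ _ hb]

end Pool.Agent.MinDeg
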