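import Pool.Agent.P.MP_f8f34d_lc.N.ConsP
import Pool.Agent.P.MP_f8f34d_lc.N.MMa
import Pool.Agent.P.MP_f8f34d_lc.N.Pa
import Pool.Agent.P.MP_f8f34d_lc.W.FinA
import Pool.Agent.P.MP_f8f34d_lc.W.Truth

/-! A criterion for a minimal element over a larger family (section 5). -/

namespace Pool.Agent.MinDeg

open FirstOrder FirstOrder.Language Pool.Agent.Lib.ComputableProp

theorem yesp_md {θ : ℕ} (hθ : ScottFun θ) {T : LA.Theory} (hT : T.IsMaximal) (hP : PA ⊆ T)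
    (hne : T ≠ TA) (B : LA.Structure ℕ) (hB : @Theory.Model LA ℕ B T) :
    Md θ {G | Lst T G} (dg B) := by
  have h := Pa.pm_of_model (hB.mono hP)
  obtain ⟨R, h1, h2, h3, h4⟩ := hθ B h (by
    by_contra hc
    refine hne ((Pa.eq_completeTheory hT hB).trans (Pa.pa_std h fun c => ?_))
    by_contra h2
    exact hc ⟨c, fun n e => h2 ⟨n, e⟩⟩)
  refine ⟨fun w G k => ?_, fun G hG => ?_⟩
  · have e : G = col R w := funext fun n => by
      obtain ⟨b, hb⟩ := h1 (Nat.pair w n)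
      exact (k n b hb).trans (h2 _ b hb).symm
    rw [e]
    exact (((CM.id (α := ℕ)).col Computable.id).leT R w).trans (h1.leT h2)
  · obtain ⟨m, rfl⟩ := hG B hB R h3 h4
    exact ⟨m, fun n b hb => h2 _ b hb⟩

/-- a completion without a minimal degree is read off one condition -/
theorem yesp_exc (sol : SolovayStmt) {J : Set CS} (hJ : Idl J) (hc : J.Countable) {T : LA.Theory}
    (hT : T.IsMaximal) (hPA : PA ⊆ T) (hTA : T ≠ TA) (N : Type) [LA.Structure N] (hN : N ⊨ T)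
    (hK : ∀ k, TK (PreLA N) k ∈ J) (hG : HG J {G | Lst T G}) (hno : ¬ Yes T) :
    ∃ d, IsC J d ∧ ∀ k L, rth J d k L ↔ th (PreLA N) k L := by
  by_contra hx
  obtain ⟨θ, hθ⟩ := n_scott
  obtain ⟨goal, hg, hgoal⟩ := exists_goals hJ (th (PreLA N)) fun d hd => by
    by_contra h
    exact hx ⟨d, hd, fun k L => by_contra fun h' => h ⟨k, L, h'⟩⟩
  obtain ⟨X, hX, ⟨R, h1, h2, h3⟩, hmin, hcap⟩ := constructP θ hJ hc hG (TK (PreLA N)) hK goal hg
  have := Pa.infinite_of_model (hN.mono hPA)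
  obtain ⟨M, hM, hMX⟩ := model_of_records sol N hX h1 h2 h3
  have hMT : @Theory.Model LA ℕ M T := @Pa.model_of_TK T N _ hT hN ℕ M hM
  refine hno ⟨deg M, ⟨M, hMT, rfl⟩, ?_⟩
  rintro _ ⟨B, hB, rfl⟩ hlt
  rw [deg_eq, deg_eq] at hlt
  have hBM : LeT (dg B) (dg M) := LeT.of_turing hlt.le
  obtain ⟨e, he, hag⟩ := (hBM.trans hMX).exists_fun
  rcases hmin e _ he hag with ⟨A, hA, hle⟩ | ⟨c, k1, k2, k3⟩
  · have hAB : LeT A (dg B) := hcap e _ he hag (yesp_md hθ hT hPA hTA B hB) A hA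
    exact hlt.not_ge (show TuringReducible (hat (dg M)) (hat (dg B)) from
      (hMX.trans (hle.trans (hAB.jn (LeT.refl _)))).turing)
  · obtain ⟨k, L, h⟩ := hgoal _ c k1 k2 k3
    apply h
    rw [preD_dg, ← TK_iff, ← TK_iff, @Pa.TK_eq T ℕ B hT hPA hB N _ hN k]

theorem yes_plus (sol : SolovayStmt) {J : Set CS} (hJ : Idl J) (hc : J.Countable) :
    Set.Countable {T : LA.Theory | T.IsMaximal ∧ PA ⊆ T ∧ T ≠ TA ∧
      (∀ (N : Type) [LA.Structure N], N ⊨ T → ∀ k, TK (PreLA N) k ∈ J) ∧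
      HG J {G | Lst T G} ∧ ¬ Yes T} := by
  have hc' := countable_isC hc
  let F : Cd → Set LA.Theory := fun d => {T | T.IsMaximal ∧ ∃ N : Theory.ModelType.{0, 0, 0} T,
    ∀ k L, rth J d k L ↔ th (PreLA N) k L}
  have hF : ∀ d, (F d).Countable := by
    intro d
    refine Set.Subsingleton.countable ?_
    rintro T ⟨hT, N, hN⟩ T' ⟨hT', N', hN'⟩
    rw [Pa.eq_completeTheory hT N.is_model, Pa.eq_completeTheory hT' N'.is_model]
    refine Pa.nf fun k => funext fun n => ?_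
    have : th (PreLA N) k (decL n) ↔ th (PreLA N') k (decL n) := (hN k _).symm.trans (hN' k _)
    unfold TK
    rw [propext this]
  refine (hc'.biUnion fun d _ => hF d).mono ?_
  rintro T ⟨hT, hPA, hTA, hK, hG, hno⟩
  obtain ⟨N⟩ := hT.1
  obtain ⟨d, hd, h⟩ := yesp_exc sol hJ hc hT hPA hTA N N.is_model (hK N N.is_model) hG hno
  exact Set.mem_biUnion hd ⟨hT, N, h⟩

end Pool.Agent.MinDeg
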