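import Pool.Agent.P.MP_f8f34d_lc.N.MachP
import Pool.Agent.P.MP_f8f34d_lc.W.ConsE

/-! The construction with capture (section 5). -/

namespace Pool.Agent.MinDeg

open Pool.Agent.Lib.ComputableProp Filter

variable {J Gd : Set CS} {s : St} {A : CS} {D : ℕ → Set Cd}

theorem consP_pre {ζ z : List Bool} : ζ <+: z ↔
    ζ.length ≤ z.length ∧ ∀ k < ζ.length, ζ.getD k false = z.getD k false := by
  constructor
  · rintro ⟨t, rfl⟩
    exact ⟨by simp, fun k hk => (List.getD_append _ _ _ _ hk).symm⟩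
  · rintro ⟨h1, h2⟩
    rw [List.prefix_iff_eq_take]
    refine List.ext_getElem (by simp [h1]) fun i hi hi' => ?_
    have := h2 i hi
    rw [List.getD_eq_getElem _ _ hi, List.getD_eq_getElem _ _ (hi.trans_le h1)] at this
    rw [this, List.getElem_take]

theorem consP_ext {ζ z : List Bool} (h : ζ <+: z) {B : CS} (hB : Ext z B) : Ext ζ B := fun k hk => by
  obtain ⟨h1, h2⟩ := consP_pre.1 h
  rw [h2 k hk]
  exact hB k (hk.trans_le h1)

theorem consP_above {ζ z : List Bool} {X : CS} (hl : ζ.length = s.len)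
    (hX : Ext ζ (col X s.key)) :
    (s.len ≤ z.length ∧ ∀ k, k < s.len → col X s.key k = z.getD k false) ↔ ζ <+: z := by
  rw [consP_pre, ← hl]
  exact and_congr_right fun _ => forall₂_congr fun k hk => by rw [← hX k hk]

theorem consP_cap (θ : ℕ) (hJ : Idl J) (h : Inv J s A D) {ζ : List Bool} (ha : Arena J s A D ζ)
    (hm : s.mode = 4) (ht : s.todo = []) (d1 : ℕ) (z1 : List Bool) (hz : ζ <+: z1)
    (hfull : ∀ B, Ext z1 B → ∃ X ∈ PS s A, col X s.key = B ∧ (d1 ≠ 0 → CI θ s.own X (d1 - 1) (shf s.len (col X s.key))))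
    (hread : ∀ X ∈ PS s A, Ext z1 (col X s.key) → CRead θ X s (d1, z1))
    {B : CS} (hB : B ∈ J) (hzB : Ext z1 B) :
    ∃ s' : St, LeadsP θ s A s' (rs A B) ∧ s'.act = s.act ∧ Inv J s' (rs A B) D ∧ s'.mode = 0 ∧
      s'.ph = s.ph + 1 ∧ s'.rcd = s.rcd ++ [Nat.pair s.key z1.length] ∧
      ∀ X ∈ PS s' (rs A B), X ∈ PS s A ∧ col X s.key = B ∧ (d1 ≠ 0 → CI θ s.own X (d1 - 1) (shf s.len (col X s.key))) := by
  let s3 : St := nxC θ s (d1, z1)
  have hP : ∀ X, X ∈ PS s3 A ↔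
      X ∈ PS s A ∧ Ext z1 (col X s.key) ∧ (d1 ≠ 0 → CI θ s.own X (d1 - 1) (shf s.len (col X s.key))) := fun X =>
    ⟨fun k => ⟨⟨((mem_iCut θ X s (d1, z1)).1 k.1).1, k.2⟩, ((mem_iCut θ X s (d1, z1)).1 k.1).2⟩,
      fun k => ⟨(mem_iCut θ X s (d1, z1)).2 ⟨k.1.1, k.2⟩, k.1.2⟩⟩
  have full : ∀ B', Ext z1 B' → (Fib s3 A B').Nonempty := fun B' hB' => by
    obtain ⟨X, h1, h2, h3⟩ := hfull B' hB'
    exact ⟨X, (hP X).2 ⟨h1, h2 ▸ hB', h3⟩, h2⟩
  have i3 : Inv J s3 A D := h.shrink rfl (fun X hX => ((mem_iCut θ X s (d1, z1)).1 hX).1)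
    (fun e he => he) ((full B hzB).imp fun X k => k.1)
  have a3 : Arena J s3 A D z1 := by
    refine ⟨fun _ => rfl, full, ha.todo, fun e he hne B' hB' hz' => ?_⟩
    refine (h.pers e).sub _ (ha.sec e he hne B' hB' (consP_ext hz hz')) _ ?_
      (Img.mono e fun X hX => ⟨((hP X).1 hX.1).1, hX.2⟩)
    have hn := full B' hz'
    rw [← ps_nxR s3] at hn ⊢
    exact isC_img e (hJ.rs A h.lev B' hB') hn
  obtain ⟨c4, i4⟩ := raise_step hJ i3 a3 (show 3 ≤ 5 by norm_num) ht hB hzB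
  have e4 : nxR s3 = ((0, s.ph + 1, s3.1.2.2),
      (s.key :: s.mu, s.act, s.todo, s.rcd ++ [Nat.pair s.key z1.length])) := rfl
  have l3 : LeadsP θ s A s3 A := by
    exact ⟨fun X hX => ((hP X).1 hX).1, fun X hX => Relation.ReflTransGen.single
      (Or.inr ⟨⟨hm, ht⟩, (d1, z1), hread X ((hP X).1 hX).1 ((hP X).1 hX).2.1, rfl⟩)⟩
  have l4 : LeadsP θ s3 A (nxR s3) (rs A B) := by
    have m5 : s3.mode = 5 := rfl
    have t5 : s3.todo = [] := ht
    refine ⟨c4.leads.1, fun X hX => Relation.ReflTransGen.single (Or.inl ⟨fun k => by omega,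
      (0, [], 0, []), ⟨fun k => by omega, fun k => by omega, fun _ k => absurd t5 k⟩, ?_⟩)⟩
    simp [nx, nx3, m5, t5, eqb]
  refine ⟨nxR s3, l3.trans l4, by rw [e4], i4, by rw [e4], by rw [e4], by rw [e4], fun X hX => ?_⟩
  rw [ps_nxR] at hX
  exact ⟨((hP X).1 hX.1).1, hX.2, ((hP X).1 hX.1).2.2⟩

theorem consP_end (θ : ℕ) (hJ : Idl J) (hG : HG J Gd) (h : Inv J s A D) {ζ : List Bool}
    (ha : Arena J s A D ζ) (hm : s.mode = 4) (ht : s.todo = []) {T : CS} (hT : T ∈ J) (fl : Bool) :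
    ∃ (s' : St) (A' : CS), LeadsP θ s A s' A' ∧ s'.act = s.act ∧ Inv J s' A' D ∧ s'.mode = 0 ∧
      s'.ph = s.ph + 1 ∧ ∃ m l, s'.rcd = s.rcd ++ [Nat.pair m l] ∧
        (fl = false → ∀ X ∈ PS s' A', ∀ n, X (Nat.pair m (l + n)) = T n) ∧
        (fl = true → ∀ X ∈ PS s' A', ∀ y, Tot s.own X → Ag s.own X y → Md θ Gd y → LeT T y) := by
  have hl := ha.len hm
  have hW : ∀ X ∈ PS s A, Ext ζ (col X s.key) → ∀ u : ℕ × List Bool,
      CW θ X s u ↔ ζ <+: u.2 ∧ CFull θ s A u := fun X hX hx u => by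
    have e : lev s.mu X = A := hX.2
    rw [CW, consP_above hl hx, e]
  have hcat : ∀ (z : List Bool) (X : CS), col X s.key = cat z T →
      ∀ n, X (Nat.pair s.key (z.length + n)) = T n := fun z X hX n => by
    have := congrFun hX (z.length + n)
    rw [cat_add] at this
    exact this
  by_cases hex : ∃ u : ℕ × List Bool, ζ <+: u.2 ∧ CFull θ s A u
  · obtain ⟨u, hu, hmin⟩ := (measure (Encodable.encode : ℕ × List Bool → ℕ)).wf.has_min
      {u | ζ <+: u.2 ∧ CFull θ s A u} hex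
    obtain ⟨s', k1, k2, k3, k4, k5, k6, k7⟩ := consP_cap θ hJ h ha hm ht (u.1 + 1) u.2 hu.1
      (fun B hB => by
        obtain ⟨X, h1, h2, h3⟩ := hu.2 B hB
        exact ⟨X, h1, h2, fun _ => h2 ▸ h3⟩)
      (fun X hX hx => Or.inr ⟨Nat.succ_ne_zero _, (hW X hX (consP_ext hu.1 hx) u).2 hu,
        fun v hv hw => hmin v ((hW X hX (consP_ext hu.1 hx) v).1 hw) hv⟩)
      (hJ.cat u.2 T hT) (ext_cat u.2 T)
    refine ⟨s', _, k1, k2, k3, k4, k5, s.key, u.2.length, k6, fun _ X hX => hcat _ X (k7 X hX).2.1,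
      fun _ X hX y hy1 hy2 hy3 => ?_⟩
    obtain ⟨y', h1, h2⟩ := (k7 X hX).2.2 (Nat.succ_ne_zero _)
    have e : y' = y := funext fun n => by
      obtain ⟨b, hb⟩ := hy1 n
      rw [h1 n b hb, hy2 n b hb]
    rw [e] at h2
    refine LeT.trans ?_ (hy3.1 _ _ h2)
    have h3 := ((CM.id (α := Unit)).re (f := fun _ n => u.2.length - s.len + n)
      (by fun_prop)).leT (shf s.len (col X s.key)) ()
    have h4 : s.len ≤ u.2.length := hl ▸ (consP_pre.1 hu.1).1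
    have e2 : (fun n => shf s.len (col X s.key) (u.2.length - s.len + n)) = T := funext fun n => by
      rw [← hcat _ X (k7 X hX).2.1 n]
      show X (Nat.pair s.key (s.len + (u.2.length - s.len + n))) = _
      rw [← Nat.add_assoc, Nat.add_sub_cancel' h4]
    rw [e2] at h3
    exact h3
  · have key : ∀ B ∈ J, Ext ζ B → ∃ s' : St, LeadsP θ s A s' (rs A B) ∧ s'.act = s.act ∧
        Inv J s' (rs A B) D ∧ s'.mode = 0 ∧ s'.ph = s.ph + 1 ∧
        s'.rcd = s.rcd ++ [Nat.pair s.key ζ.length] ∧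
        ∀ X ∈ PS s' (rs A B), X ∈ PS s A ∧ col X s.key = B ∧ (0 ≠ 0 → CI θ s.own X (0 - 1) (shf s.len (col X s.key))) :=
      fun B hB hz => consP_cap θ hJ h ha hm ht 0 ζ (List.prefix_refl ζ)
        (fun B hB => by
          obtain ⟨X, h1, h2⟩ := ha.full B hB
          exact ⟨X, h1, h2, fun k => absurd rfl k⟩)
        (fun X hX hx => Or.inl ⟨rfl, hl, hx,
          fun v hw => hex ⟨v, (hW X hX hx v).1 hw⟩⟩) hB hz
    cases fl
    · obtain ⟨s', k1, k2, k3, k4, k5, k6, k7⟩ := key _ (hJ.cat ζ T hT) (ext_cat ζ T)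
      exact ⟨s', _, k1, k2, k3, k4, k5, s.key, ζ.length, k6,
        fun _ X hX => hcat _ X (k7 X hX).2.1, fun k => absurd k (by simp)⟩
    · obtain ⟨G, hG1, hG2, hG3⟩ := hG A h.lev ζ
      obtain ⟨s', k1, k2, k3, k4, k5, k6, k7⟩ := key _ hG2 (ext_cat ζ G)
      refine ⟨s', _, k1, k2, k3, k4, k5, s.key, ζ.length, k6, fun k => absurd k (by simp),
        fun _ X hX y _ hy2 hy3 => ?_⟩
      obtain ⟨w, hw⟩ := hy3.2 G hG1
      obtain ⟨a, ha'⟩ := cp_index θ s w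
      have e : shf s.len (cat ζ G) = G := funext fun n => by
        rw [← hl]
        exact cat_add ζ G n
      obtain ⟨z1, h1, h2⟩ := hG3 a ((ha' _ _).2 ⟨X, (k7 X hX).1, (k7 X hX).2.1, y, hy2, e.symm ▸ hw⟩)
      exact absurd ⟨(w, z1), h1, fun B hB => (ha' _ _).1 (h2 B hB)⟩ hex

/-- a system round; with flag `false` it records `T`, with flag `true` it makes `T` computable in
every value of the owner that satisfies `Md` -/
theorem sys_roundP (θ : ℕ) (hJ : Idl J) (hG : HG J Gd) (h : Inv J s A D) (hm : s.mode = 2)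
    {T : CS} (hT : T ∈ J) (fl : Bool) :
    ∃ (s' : St) (A' : CS), LeadsP θ s A s' A' ∧ (∀ e ∈ s'.act, e ∈ s.act) ∧
      (∀ e ∈ s.act, e ∉ s'.act → Settled J e (PS s' A')) ∧ Inv J s' A' D ∧ s'.mode = 0 ∧
      s'.ph = s.ph + 1 ∧ ∃ m l, s'.rcd = s.rcd ++ [Nat.pair m l] ∧
        (fl = false → ∀ X ∈ PS s' A', ∀ n, X (Nat.pair m (l + n)) = T n) ∧
        (fl = true → ∀ X ∈ PS s' A', ∀ y, Tot s.own X → Ag s.own X y → Md θ Gd y → LeT T y) := by
  induction hn : s.act.length using Nat.strong_induction_on generalizing s with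
  | _ N ih =>
  have e1 : nx s (0, default) = nx2 s := by simp [nx, hm, eqb]
  have c1 : Cont J s A (nx2 s) A := by
    refine ⟨?_, fun e he => he, fun e he hne => absurd he hne⟩
    rw [← e1]
    refine Leads.single ?_ fun X _ => ⟨fun h0 => ?_, fun h0 => ?_, fun h0 => ?_⟩
    · rw [e1]; exact subset_rfl
    all_goals omega
  have i1 : Inv J (nx2 s) A D := h.shrink rfl subset_rfl (fun e he => he) h.ne
  have a1 : Arena J (nx2 s) A D [] := by
    refine ⟨fun _ => rfl, fun B hB => ?_, fun e he => he, fun e he hne => absurd he hne⟩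
    obtain ⟨X, -, h2, h3, h4⟩ := flex_spec s.mu [] (iRt s.ix) A (fun B' _ => by
      obtain ⟨X, hX⟩ := h.ne
      exact ⟨X, h.pp hX.1, hX.2, (mem_iRt B' X s.ix).2 hX.1⟩) B hB
    exact ⟨X, ⟨(mem_iRt B X s.ix).1 h3, h2⟩, h4⟩
  obtain ⟨s2, c2, i2, hph, hrc, hc⟩ := loop hJ i1 a1 (show 3 ≤ 4 by norm_num)
  have hph' : s2.ph = s.ph := hph
  have hrc' : s2.rcd = s.rcd := hrc
  have ho : s2.own = s.own := by unfold St.own; rw [hph']
  have c := c1.trans c2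
  have l2 := c.leads.toP θ hph'
  rcases hc with ⟨hm2, hlt⟩ | ⟨hm2, htd, -, -, -, ζ, -, a2⟩
  · have hlt' : s2.act.length < s.act.length := hlt
    obtain ⟨s3, A3, l3, b3, t3, i3, m3, p3, m, l, r3, u3⟩ :=
      ih s2.act.length (hn ▸ hlt') i2 hm2 rfl
    refine ⟨s3, A3, l2.trans l3, fun e he => c.sub e (b3 e he), fun e he hne => ?_, i3, m3,
      by rw [p3, hph'], m, l, by rw [r3, hrc'], ho ▸ u3⟩
    by_cases h1 : e ∈ s2.act
    · exact t3 e h1 hne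
    · exact (c.set e he h1).mono l3.1
  · obtain ⟨s3, A3, l3, b3, i3, m3, p3, m, l, r3, u3⟩ := consP_end θ hJ hG i2 a2 hm2 htd hT fl
    exact ⟨s3, A3, l2.trans l3, fun e he => c.sub e (b3 ▸ he),
      fun e he hne => (c.set e he (b3 ▸ hne)).mono l3.1, i3, m3, by rw [p3, hph'], m, l,
      by rw [r3, hrc'], ho ▸ u3⟩

theorem consP_phase (θ : ℕ) (hJ : Idl J) (hG : HG J Gd) (h : Inv J s A D) (hm : s.mode = 0)
    (hlt : ∀ e ∈ s.act, e < s.ph) {G : Set (Set Cd)} (hg : Goal J G) {T : CS} (hT : T ∈ J)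
    (fl : Bool) :
    ∃ (s' : St) (A' : CS) (D' : ℕ → Set Cd), LeadsP θ s A s' A' ∧ Inv J s' A' D' ∧ s'.mode = 0 ∧
      s'.ph = s.ph + 1 ∧ (∀ e ∈ s'.act, e ∈ s.act ∨ e = s.ph) ∧
      (∀ e, e ∈ s.act ∨ e = s.ph → e ∉ s'.act → Settled J e (PS s' A')) ∧
      (∀ e ∈ s.act, D' e ⊆ D e) ∧ (s.own ∈ s'.act → ∃ E ∈ G, D' s.own ⊆ E) ∧
      ∃ m l, s'.rcd = s.rcd ++ [Nat.pair m l] ∧
        (fl = false → ∀ X ∈ PS s' A', ∀ n, X (Nat.pair m (l + n)) = T n) ∧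
        (fl = true → ∀ X ∈ PS s' A', ∀ y, Tot s.own X → Ag s.own X y → Md θ Gd y → LeT T y) := by
  obtain ⟨s1, D1, l1, i1, m1, p1, r1, d1, a1⟩ := activate hJ h hm hlt
  obtain ⟨s2, A2, D2, c2, i2, m2, p2, r2, d2, g2⟩ := owner_phase hJ i1 m1 hg
  obtain ⟨s3, A3, l3, b3, t3, i3, m3, p3, m, l, r3, u3⟩ := sys_roundP θ hJ hG i2 m2 hT fl
  have ho : s1.own = s.own := by unfold St.own; rw [p1]
  have ho2 : s2.own = s.own := by unfold St.own; rw [p2, p1]
  have l23 := (c2.leads.toP θ p2).trans l3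
  have cset : ∀ e ∈ s1.act, e ∉ s3.act → Settled J e (PS s3 A3) := fun e he hne => by
    by_cases h1 : e ∈ s2.act
    · exact t3 e h1 hne
    · exact (c2.set e he h1).mono l3.1
  refine ⟨s3, A3, D2, (l1.toP θ p1).trans l23, i3, m3, by rw [p3, p2, p1], fun e he => ?_,
    fun e he hne => ?_, fun e he => d1 e he ▸ d2 e, fun hs => ?_, m, l, by rw [r3, r2, r1],
    ho2 ▸ u3⟩
  · have h1 := c2.sub e (b3 e he)
    rcases a1 with a1 | ⟨a1, -⟩
    · rw [a1] at h1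
      exact (List.mem_cons.1 h1).symm
    · exact Or.inl (a1 ▸ h1)
  · rcases a1 with a1 | ⟨a1, st⟩
    · exact cset e (by rw [a1]; exact List.mem_cons.2 he.symm) hne
    · rcases he with he | rfl
      · exact cset e (by rw [a1]; exact he) hne
      · exact st.mono l23.1
  · rw [← ho] at hs ⊢
    exact g2 (b3 _ hs)

/-- what phase `p` achieves -/
def consP_Rel (θ : ℕ) (J Gd : Set CS) (T : ℕ → CS) (fl : ℕ → Bool) (goal : ℕ → Set (Set Cd))
    (p : ℕ) (σ τ : St × CS × (ℕ → Set Cd)) : Prop :=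
  LeadsP θ σ.1 σ.2.1 τ.1 τ.2.1 ∧
    (∀ e, e ∈ σ.1.act ∨ e = p → e ∉ τ.1.act → Settled J e (PS τ.1 τ.2.1)) ∧
    (∀ e ∈ σ.1.act, τ.2.2 e ⊆ σ.2.2 e) ∧
    (p.unpair.1 ∈ τ.1.act → ∃ E ∈ goal p.unpair.2, τ.2.2 p.unpair.1 ⊆ E) ∧
    ∃ m l, τ.1.rcd = σ.1.rcd ++ [Nat.pair m l] ∧
      (fl p = false → ∀ X ∈ PS τ.1 τ.2.1, ∀ n, X (Nat.pair m (l + n)) = T p n) ∧
      (fl p = true → ∀ X ∈ PS τ.1 τ.2.1, ∀ y, Tot p.unpair.1 X → Ag p.unpair.1 X y →
        Md θ Gd y → LeT (T p) y)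

theorem consP_seq (θ : ℕ) (hJ : Idl J) (hG : HG J Gd) (T : ℕ → CS) (hT : ∀ k, T k ∈ J)
    (fl : ℕ → Bool) (goal : ℕ → Set (Set Cd)) (hg : ∀ g, Goal J (goal g)) :
    ∃ σ : ℕ → St × CS × (ℕ → Set Cd), (∀ p, consE_Good J p (σ p)) ∧
      ∀ p, consP_Rel θ J Gd T fl goal p (σ p) (σ (p + 1)) := by
  obtain ⟨σ0, h0, -⟩ := consE_seq hJ T hT goal hg
  have H : ∀ p (σ : {σ // consE_Good J p σ}), ∃ τ : {τ // consE_Good J (p + 1) τ},
      consP_Rel θ J Gd T fl goal p σ.1 τ.1 := by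
    rintro p ⟨⟨s, A, D⟩, h1, h2, h3, h4, h5⟩
    simp only at h1 h2 h3 h4 h5
    subst h3
    obtain ⟨s', A', D', k1, k2, k3, k4, k5, k6, k7, k8, m, l, k9, k10⟩ :=
      consP_phase θ hJ hG h1 h2 h4 (hg s.ph.unpair.2) (hT s.ph) (fl s.ph)
    refine ⟨⟨(s', A', D'), k2, k3, k4, fun e he => ?_, ?_⟩, k1, k6, k7, k8, m, l, k9, k10⟩
    · rcases k5 e he with h | h
      · exact (h4 e h).trans (Nat.lt_succ_self _)
      · rw [h]; exact Nat.lt_succ_self _
    · show s'.rcd.length = _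
      rw [k9, List.length_append, h5]; rfl
  choose f hf using H
  let u : ∀ p, {σ // consE_Good J p σ} := fun p => Nat.rec ⟨_, h0 0⟩ (fun p σ => f p σ) p
  exact ⟨fun p => (u p).1, fun p => (u p).2, fun p => hf p (u p)⟩

theorem consP_odd (e j : ℕ) : ∃ g, Nat.pair e g % 2 = 1 ∧ (g / 2).unpair.1 = j := by
  have h := Nat.right_le_pair j (e + 1)
  rcases Nat.mod_two_eq_zero_or_one e with he | he
  · refine ⟨2 * Nat.pair j (e + 1) + 1, ?_, ?_⟩
    · rw [Nat.pair, if_pos (by omega)]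
      generalize Nat.pair j (e + 1) = m
      have : (2 * m + 1) * (2 * m + 1) = 2 * (2 * m * m + 2 * m) + 1 := by ring
      omega
    · rw [show (2 * Nat.pair j (e + 1) + 1) / 2 = Nat.pair j (e + 1) by omega, Nat.unpair_pair]
  · refine ⟨2 * Nat.pair j (e + 1), ?_, ?_⟩
    · rw [Nat.pair, if_pos (by omega)]
      generalize Nat.pair j (e + 1) = m
      have : 2 * m * (2 * m) = 2 * (2 * m * m) := by ring
      omega
    · rw [show 2 * Nat.pair j (e + 1) / 2 = Nat.pair j (e + 1) by omega, Nat.unpair_pair]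

theorem constructP (θ : ℕ) (hJ : Idl J) (hc : J.Countable) (hG : HG J Gd) (T : ℕ → CS)
    (hT : ∀ k, T k ∈ J) (goal : ℕ → Set (Set Cd)) (hg : ∀ g, Goal J (goal g)) :
    ∃ X ∈ PP, (∃ R : ℕ × ℕ → Prop, SE (jp (jp X)) R ∧ (∀ k, ∃ a, R (k, a)) ∧
        ∀ k a, R (k, a) → ∀ n, X (Nat.pair a.unpair.1 (a.unpair.2 + n)) = T k n) ∧
      (∀ e y, Tot e X → Ag e X y → (∃ A ∈ J, LeT X (jn A y)) ∨
        ∃ c : ℕ → Cd, (∀ p, IsC J (c p)) ∧ (∀ p, y ∈ (c p).2) ∧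
          ∀ g, ∃ D ∈ goal g, ∀ᶠ p in atTop, c p ∈ D) ∧
      ∀ e y, Tot e X → Ag e X y → Md θ Gd y → ∀ A ∈ J, LeT A y := by
  obtain ⟨en, hen⟩ := hc.exists_eq_range ⟨zz, hJ.zz⟩
  let T' : ℕ → CS := fun p => if p % 2 = 1 then en (p.unpair.2 / 2).unpair.1 else T (p / 2)
  have hT' : ∀ p, T' p ∈ J := fun p => by
    by_cases hp : p % 2 = 1
    · simp only [T', hp, if_true]; rw [hen]; exact ⟨_, rfl⟩
    · simp only [T', hp, if_false]; exact hT _
  obtain ⟨σ, hGo, hR⟩ := consP_seq θ hJ hG T' hT' (fun p => decide (p % 2 = 1)) goal hg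
  obtain ⟨X, hX⟩ := IsCompact.nonempty_iInter_of_sequence_nonempty_isCompact_isClosed
    (fun p => PS (σ p).1 (σ p).2.1) (fun p => (hR p).1.1) (fun p => (hGo p).1.ne)
    (consE_closed _ _).isCompact (fun p => consE_closed _ _)
  rw [Set.mem_iInter] at hX
  have run : ∀ p, Relation.ReflTransGen (StepP θ X) (σ 0).1 (σ p).1 := by
    intro p
    induction p with
    | zero => exact Relation.ReflTransGen.refl
    | succ p ih => exact ih.trans ((hR p).1.2 X (hX (p + 1)))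
  have recd : ∀ k, ∃ m l, (σ (2 * k + 1)).1.rcd[2 * k]? = some (Nat.pair m l) ∧
      ∀ n, X (Nat.pair m (l + n)) = T k n := by
    intro k
    obtain ⟨m, l, h1, h2, -⟩ := (hR (2 * k)).2.2.2.2
    have hk : ¬ 2 * k % 2 = 1 := by omega
    have h3 := h2 (by simp) X (hX (2 * k + 1))
    simp only [T', hk, if_false] at h3
    rw [show 2 * k / 2 = k by omega] at h3
    refine ⟨m, l, ?_, h3⟩
    have := (hGo (2 * k)).2.2.2.2
    rw [h1, List.getElem?_append_right this.le, this]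
    simp
  obtain ⟨r1, r2⟩ := run_recordsP θ X (σ 0).1
  refine ⟨X, (hGo 0).1.pp (hX 0).1, ⟨_, r1.comp (f := fun w : ℕ × ℕ => (2 * w.1, w.2))
    (by fun_prop), fun k => ?_, ?_⟩, fun e y hTot hAg => ?_, fun e y hTot hAg hMd A hA => ?_⟩
  · obtain ⟨m, l, h1, -⟩ := recd k
    exact ⟨_, _, run (2 * k + 1), h1⟩
  · rintro k a ⟨s, hs, ha⟩
    obtain ⟨m, l, h1, h2⟩ := recd k
    rw [r2 _ _ (2 * k) a _ hs (run (2 * k + 1)) ha h1, Nat.unpair_pair]
    exact h2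
  · by_cases hS : ∃ q, Settled J e (PS (σ q).1 (σ q).2.1)
    · obtain ⟨q, h | ⟨A, hA, h⟩⟩ := hS
      · exact absurd hTot (h X (hX q))
      · exact Or.inl ⟨A, hA, h X (hX q) y hAg⟩
    have act : ∀ p, e + 1 ≤ p → e ∈ (σ p).1.act := by
      intro p hp
      induction p, hp using Nat.le_induction with
      | base => exact by_contra fun h => hS ⟨_, (hR e).2.1 e (Or.inr rfl) h⟩
      | succ p _ ih => exact by_contra fun h => hS ⟨_, (hR p).2.1 e (Or.inl ih) h⟩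
    have dec : ∀ p q, e + 1 ≤ p → p ≤ q → (σ q).2.2 e ⊆ (σ p).2.2 e := by
      intro p q hp hq
      induction q, hq using Nat.le_induction with
      | base => exact subset_rfl
      | succ q hq ih => exact ((hR q).2.2.1 e (act q (hp.trans hq))).trans ih
    have keep := fun p => (hGo (p + (e + 1))).1.keep e (act _ (Nat.le_add_left _ _))
    refine Or.inr ⟨fun p => ((σ (p + (e + 1))).2.1, Img e (PS (σ (p + (e + 1))).1
      (σ (p + (e + 1))).2.1)), fun p => ((hGo _).1.pers e).isC _ (keep p),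
      fun p => ⟨X, hX _, hAg⟩, fun g => ?_⟩
    have h1 := (hR (Nat.pair e g)).2.2.2.1
    rw [Nat.unpair_pair] at h1
    have h2 : e + 1 ≤ Nat.pair e g + 1 := Nat.succ_le_succ (Nat.left_le_pair e g)
    obtain ⟨E, hE, h3⟩ := h1 (act _ h2)
    refine ⟨E, hE, eventually_atTop.2 ⟨Nat.pair e g, fun p hp => h3 (dec _ _ h2 ?_ (keep p))⟩⟩
    omega
  · rw [hen] at hA
    obtain ⟨j, rfl⟩ := hA
    obtain ⟨g, h1, h2⟩ := consP_odd e j
    obtain ⟨m, l, -, -, h3⟩ := (hR (Nat.pair e g)).2.2.2.2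
    have h4 := h3 (by simp [h1]) X (hX _) y
    simp only [T', h1, if_true, Nat.unpair_pair, h2] at h4
    exact h4 hTot hAg hMd

end Pool.Agent.MinDeg
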