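import Pool.Agent.P.MP_f8f34d_lc.W.HideEff
import Pool.Agent.P.MP_f8f34d_lc.W.Base
import Pool.Agent.P.MP_f8f34d_lc.a.PaBr
import Pool.Agent.P.MP_f8f34d_lc.Deg

/-! Common notions: columns, Scott enumerations, defined sets, the two answers. -/

namespace Pool.Agent.MinDeg

open FirstOrder FirstOrder.Language

/-- `A` is a column of `Z` -/
def Cl (Z A : CS) : Prop := ∃ m, col Z m = A

/-- a nonempty class closed relative to two columns has a member among the columns -/
def Scott (R : CS) : Prop := ∀ u v a, (∃ Y, jn (jn (col R u) (col R v)) Y ∈ K a) →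
  ∃ w, jn (jn (col R u) (col R v)) (col R w) ∈ K a

open Classical in
/-- the set that `φ` defines on the numerals of `M` -/
noncomputable def df (φ : Fm) (M : Type) [LA.Structure M] : CS :=
  fun n => decide (Sat (M := M) φ [num n])

/-- column `w` of the value of functional `θ` at `y` agrees with `G` -/
def Cod (θ : ℕ) (y : CS) (w : ℕ) (G : CS) : Prop := ∀ n b, Ps θ y (Nat.pair w n) b → G n = b

/-- the set of degrees of models of `T` has a minimal element -/
def Yes (T : LA.Theory) : Prop := ∃ d ∈ degrees T, ∀ e ∈ degrees T, ¬ e < d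

/-- the relation coded by `r` is well founded -/
def WF (r : CS) : Prop := WellFounded fun a b : ℕ => r (Nat.pair a b) = true

/-- pointwise sum -/
def xr (g t : CS) : CS := fun d => xor (g d) (t d)

/-- `B` lies outside every class closed relative to `A` that has no cylinder above `z` -/
def Gen (A : CS) (z : List Bool) (B : CS) : Prop :=
  ∀ a, jn A B ∈ K a → ∃ z1, z <+: z1 ∧ ∀ B', Ext z1 B' → jn A B' ∈ K a

/-- functional `θ` turns the diagram of every nonstandard model into a Scott enumeration that
lists all defined sets -/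
def ScottFun (θ : ℕ) : Prop := ∀ B : LA.Structure ℕ, @Pa.PM ℕ B → (∃ c : ℕ, ∀ n, c ≠ @num ℕ B n) →
  ∃ R, Tot θ (dg B) ∧ Ag θ (dg B) R ∧ Scott R ∧ ∀ φ, Cl R (@df φ ℕ B)

end Pool.Agent.MinDeg
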