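import Pool.Agent.P.MP_f8f34d_lc.N.Ill
import Pool.Agent.P.MP_f8f34d_lc.N.Bor
import Pool.Agent.P.MP_f8f34d_lc.N.Chain
import Pool.Agent.P.MP_f8f34d_lc.N.Tower

/-! Assembly. -/

namespace Pool.Agent.MinDeg

open FirstOrder FirstOrder.Language

theorem n_main (sol : SolovayStmt) : ¬ ∃ B : Set (ℕ → Bool), @MeasurableSet _ (borel (ℕ → Bool)) B ∧
    ∀ T : LA.Theory, T.IsMaximal → PA ⊆ T → T ≠ TA →
      ∀ χ : ℕ → Bool, (∀ n, χ n = true ↔ ∃ σ ∈ T, gn σ = n) →
        (χ ∈ B ↔ ∃ d ∈ degrees T, ∀ e ∈ degrees T, ¬ e < d) := by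
  rintro ⟨B, hB, H⟩
  have hB' : MeasurableSet B := by rwa [BorelSpace.measurable_eq (α := ℕ → Bool)]
  obtain ⟨C⟩ := exists_chain
  obtain ⟨W⟩ := exists_tower C.Rl
  have h0 : ∀ r Y, col (mkB C W r Y 0) 1 = W.H := fun r Y => mk0_1 _ _ _ _
  have key : ∀ r Y, tg (W.th (mkB C W r Y)) ∈ B ↔ Yes (W.th (mkB C W r Y)) := fun r Y =>
    H _ (W.max _ (h0 r Y)).1 (W.max _ (h0 r Y)).2 (W.ne _ (h0 r Y) rfl) _ fun n => by simp [tg]
  have hf : Measurable fun p : CS × XX => mkB C W p.1 p.2 := by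
    refine measurable_pi_lambda _ fun n => ?_
    cases n with
    | zero =>
      show Measurable fun p : CS × XX => rs (rs (rs (rs zz (C.c3 p.1 p.2)) p.1) W.H) fun _ => W.b0
      exact measurable_rs (measurable_rs (measurable_rs (measurable_rs measurable_const C.meas_c3)
        measurable_fst) measurable_const) measurable_const
    | succ n => exact (C.meas_lv n).comp measurable_snd
  have hE := mn ((W.meas _ _ hf fun p => h0 p.1 p.2) hB')
  refine bd ?_
  have e : {r : CS | WF r} = {r | IsMeagre {Y | (r, Y) ∈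
      (fun p : CS × XX => tg (W.th (mkB C W p.1 p.2))) ⁻¹' B}} := by
    ext r
    constructor
    · intro hr
      refine IsMeagre.empty.mono fun Y hY => ?_
      exact no_wf sol C W hr Y ((key r Y).1 hY)
    · intro hm
      by_contra hr
      obtain ⟨Y, hY, hy⟩ := yes_ill sol C W hr hm
      exact hY ((key r Y).2 hy)
  rwa [e]

end Pool.Agent.MinDeg
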