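import Pool.Agent.P.MP_f8f34d_lc.N.Str
import Pool.Agent.P.MP_f8f34d_lc.W.Mach

/-! The machine with one more step at the end of a system round. -/

namespace Pool.Agent.MinDeg

open Pool.Agent.Lib.ComputableProp

/-- shift -/
def shf (l : ℕ) (B : CS) : CS := fun n => B (l + n)

/-- a value of functional `e` at `X` codes `G` in column `w` -/
def CI (θ e : ℕ) (X : CS) (w : ℕ) (G : CS) : Prop := ∃ y, Ag e X y ∧ Cod θ y w G

section
variable {α : Type} [Primcodable α]

theorem CM.shf {F : CS → α → CS} (h : CM F) {l : α → ℕ} (hl : Computable l) :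
    CM (fun z a => shf (l a) (F z a)) :=
  h.re (f := fun a n => l a + n) (by fun_prop)

theorem pii_Cod (θ : ℕ) {F G : CS → α → CS} (hF : CM F) (hG : CM G) {w : α → ℕ}
    (hw : Computable w) : Pii fun z a => Cod θ (F z a) (w a) (G z a) :=
  Pii.all (Pii.all (Pii.imp
    (sig_Ps (hF.comp (g := fun w : (α × ℕ) × Bool => w.1.1) (by fun_prop)) (by fun_prop)
      (by fun_prop) (by fun_prop))
    (Pii.bit (hG.comp (g := fun w : (α × ℕ) × Bool => w.1.1) (by fun_prop)) (by fun_prop)
      (by fun_prop))))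

theorem machp_ci0 (θ : ℕ) : Pii fun z (u : ℕ × ℕ) => CI θ u.1 (lf z) u.2 (rt z) :=
  Pii.exC (P := fun z y (u : ℕ × ℕ) => Ag u.1 (lf z) y ∧ Cod θ y u.2 (rt z))
    ((pii_Ag CM.id.lf.lf CM.id.rt (by fun_prop)).and
      (pii_Cod θ CM.id.rt CM.id.lf.rt (by fun_prop)))

theorem pii_CI (θ : ℕ) {F G : CS → α → CS} (hF : CM F) (hG : CM G) {e w : α → ℕ}
    (he : Computable e) (hw : Computable w) : Pii fun z a => CI θ (e a) (F z a) (w a) (G z a) :=
  ((machp_ci0 θ).map (hF.jn hG) (g := fun a => (e a, w a)) (by fun_prop)).of_iff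
    fun z a => by rw [lf_jn, rt_jn]

end

theorem ex_iCut (θ : ℕ) : ∃ c : St × ℕ × List Bool → ℕ, Computable c ∧ ∀ x a, x ∈ K (c a) ↔
    (x ∈ K a.1.ix ∧ Ext a.2.2 (col x a.1.key) ∧
      (a.2.1 ≠ 0 → CI θ a.1.own x (a.2.1 - 1) (shf a.1.len (col x a.1.key)))) :=
  Pii.index ((pii_K CM.id (mach_c_ix Computable.fst)).and
    ((Pii.ext (CM.id.col (mach_c_key Computable.fst)) (c_snd Computable.snd)).and
      (Pii.imp (Sig.of_re (RE.ne (c_fst Computable.snd) (Computable.const 0)))
        (pii_CI θ CM.id ((CM.id.col (mach_c_key Computable.fst)).shf (mach_c_len Computable.fst))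
          (mach_c_own Computable.fst) (c_sub (c_fst Computable.snd) (Computable.const 1))))))

noncomputable def iCut (θ : ℕ) : St × ℕ × List Bool → ℕ := (ex_iCut θ).choose

theorem mem_iCut (θ : ℕ) (x : CS) (s : St) (d : ℕ × List Bool) : x ∈ K (iCut θ (s, d)) ↔
    (x ∈ K s.ix ∧ Ext d.2 (col x s.key) ∧
      (d.1 ≠ 0 → CI θ s.own x (d.1 - 1) (shf s.len (col x s.key)))) :=
  (ex_iCut θ).choose_spec.2 x _

/-- the key column `B` can be coded in column `w` of a value of the owner -/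
def CP (θ : ℕ) (s : St) (A : CS) (w : ℕ) (B : CS) : Prop :=
  ∃ X ∈ PS s A, col X s.key = B ∧ CI θ s.own X w (shf s.len B)

def CFull (θ : ℕ) (s : St) (A : CS) (u : ℕ × List Bool) : Prop := ∀ B, Ext u.2 B → CP θ s A u.1 B

def CW (θ : ℕ) (X : CS) (s : St) (u : ℕ × List Bool) : Prop :=
  (s.len ≤ u.2.length ∧ ∀ k, k < s.len → col X s.key k = u.2.getD k false) ∧
    CFull θ s (lev s.mu X) u

/-- what the decoder reads at the new step -/
def CRead (θ : ℕ) (X : CS) (s : St) (d : ℕ × List Bool) : Prop :=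
  (d.1 = 0 ∧ d.2.length = s.len ∧ Ext d.2 (col X s.key) ∧ ∀ u, ¬ CW θ X s u) ∨
  (d.1 ≠ 0 ∧ CW θ X s (d.1 - 1, d.2) ∧
    ∀ u, Encodable.encode u < Encodable.encode (d.1 - 1, d.2) → ¬ CW θ X s u)

/-- the new step -/
noncomputable def nxC (θ : ℕ) (s : St) (d : ℕ × List Bool) : St :=
  ((5, s.ph, iCut θ (s, d), s.key, d.2.length), s.2)

def StepP (θ : ℕ) (X : CS) (s s' : St) : Prop :=
  (¬ (s.mode = 4 ∧ s.todo = []) ∧ Step X s s') ∨
    ((s.mode = 4 ∧ s.todo = []) ∧ ∃ d, CRead θ X s d ∧ s' = nxC θ s d)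

theorem pii_CP (θ : ℕ) : Pii fun z (u : St × ℕ) => CP θ u.1 (lf z) u.2 (rt z) :=
  Pii.exC (P := fun z X (u : St × ℕ) => X ∈ UU u.1.mu u.1.ix (lf z) ∧ col X u.1.key = rt z ∧
      CI θ u.1.own X u.2 (shf u.1.len (rt z)))
    ((pii_UU CM.id.rt CM.id.lf.lf (mach_c_mu Computable.fst) (mach_c_ix Computable.fst)).and
      ((Pii.eqC (CM.id.rt.col (mach_c_key Computable.fst)) CM.id.lf.rt).and
        (pii_CI θ CM.id.rt (CM.id.lf.rt.shf (mach_c_len Computable.fst))
          (mach_c_own Computable.fst) Computable.snd)))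

theorem cp_index (θ : ℕ) (s : St) (w : ℕ) : ∃ a, ∀ A B, jn A B ∈ K a ↔ CP θ s A w B := by
  obtain ⟨c, -, hc⟩ := (pii_CP θ).index
  exact ⟨c (s, w), fun A B => by rw [hc, lf_jn, rt_jn]⟩

theorem machp_full (θ : ℕ) : Pii fun A (u : St × ℕ × List Bool) => CFull θ u.1 A u.2 :=
  Pii.allC (P := fun A B (u : St × ℕ × List Bool) => Ext u.2.2 B → CP θ u.1 A u.2.1 B)
    (Pii.imp (CM.id.rt.ext (c_snd Computable.snd))
      ((pii_CP θ).comp (f := fun u : St × ℕ × List Bool => (u.1, u.2.1))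
        (Computable.fst.pair (c_fst Computable.snd))))

theorem pii_CW (θ : ℕ) : Pii fun X (u : St × ℕ × List Bool) => CW θ X u.1 u.2 := by
  refine Pii.and (Pii.and (Pii.of_re ((RE.lt (c_length (c_snd Computable.snd))
    (mach_c_len Computable.fst)).of_iff fun _ => not_le.symm)) (Pii.all (Pii.imp
      (Sig.of_re (RE.lt Computable.snd (mach_c_len (c_fst Computable.fst))))
      (Pii.bit (CM.id.col (mach_c_key (c_fst Computable.fst))) Computable.snd
        (c_getD false (c_snd (c_snd Computable.fst)) Computable.snd))))) ?_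
  exact (machp_full θ).map (CM.id.lev (mach_c_mu Computable.fst)) Computable.id

theorem de_CRead (θ : ℕ) (X : CS) :
    DE (jp (jp X)) fun w : St × ℕ × List Bool => CRead θ X w.1 w.2 := by
  have h1 : Computable fun w : St × ℕ × List Bool => w.2.1 := c_fst Computable.snd
  have h2 : Computable fun w : St × ℕ × List Bool => w.2.2 := c_snd Computable.snd
  have h3 : Computable fun w : St × ℕ × List Bool => (w.2.1 - 1, w.2.2) :=
    (c_sub h1 (Computable.const 1)).pair h2
  have hW := (pii_CW θ).de X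
  refine DE.or (DE.and (DE.eq h1 (Computable.const _)) (DE.and
    (DE.eq (c_length h2) (mach_c_len Computable.fst)) (DE.and
      ((Pii.ext (CM.id.col (mach_c_key Computable.fst)) h2).de X).up ?_)))
    (DE.and (DE.eq h1 (Computable.const _)).not (DE.and ?_ ?_))
  · exact DE.comp (f := fun w : St × ℕ × List Bool => w.1)
      (DE.all (P := fun (s : St) (u : ℕ × List Bool) => ¬ CW θ X s u) hW.not) Computable.fst
  · exact DE.comp (f := fun w : St × ℕ × List Bool => (w.1, w.2.1 - 1, w.2.2)) hW.up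
      (Computable.fst.pair h3)
  · exact DE.forall_enc (P := fun (w : St × ℕ × List Bool) (u : ℕ × List Bool) => ¬ CW θ X w.1 u)
      (Computable.encode.comp h3)
      (DE.comp (f := fun u : (St × ℕ × List Bool) × ℕ × List Bool => (u.1.1, u.2)) hW.up.not
        ((c_fst Computable.fst).pair Computable.snd))

theorem CRead.unique {θ : ℕ} {X : CS} {s : St} {d d' : ℕ × List Bool} (H : CRead θ X s d)
    (H' : CRead θ X s d') : d = d' := by
  rcases H with ⟨a1, a2, a3, a4⟩ | ⟨a1, a2, a3⟩ <;> rcases H' with ⟨b1, b2, b3, b4⟩ | ⟨b1, b2, b3⟩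
  · exact Prod.ext (a1.trans b1.symm) (by rw [← a3.eq_pre, ← b3.eq_pre, a2, b2])
  · exact absurd b2 (a4 _)
  · exact absurd a2 (b4 _)
  · have h1 : ¬ _ < _ := fun k => b3 _ k a2
    have h2 : ¬ _ < _ := fun k => a3 _ k b2
    have e := Encodable.encode_injective (le_antisymm (not_lt.1 h2) (not_lt.1 h1))
    obtain ⟨e1, e2⟩ := Prod.mk.inj e
    exact Prod.ext (by omega) e2

theorem StepP.unique {θ : ℕ} {X : CS} {s s' s'' : St} (h : StepP θ X s s') (h' : StepP θ X s s'') :
    s' = s'' := by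
  rcases h with ⟨a, b⟩ | ⟨a, d, b, rfl⟩ <;> rcases h' with ⟨a', b'⟩ | ⟨a', d', b', rfl⟩
  · exact b.unique b'
  · exact absurd a' a
  · exact absurd a a'
  · rw [b.unique b']

theorem machp_c_nxC (θ : ℕ) {α : Type} [Primcodable α] {s : α → St} {d : α → ℕ × List Bool}
    (h : Computable s) (hd : Computable d) : Computable fun a => nxC θ (s a) (d a) :=
  ((Computable.const _).pair ((mach_c_ph h).pair
    (((ex_iCut θ).choose_spec.1.comp (h.pair hd)).pair
      ((mach_c_key h).pair (c_length (c_snd hd)))))).pair (c_snd h)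

theorem machp_se_step (θ : ℕ) (X : CS) : SE (jp (jp X)) fun w : St × St => StepP θ X w.1 w.2 := by
  have hS : SE (jp (jp X)) fun w : St × St => Step X w.1 w.2 :=
    SE.ex (P := fun (w : St × St) (d : ℕ × Tr3) => Read X w.1 d ∧ w.2 = nx w.1 d)
      (SE.and (SE.comp (f := fun u : (St × St) × ℕ × Tr3 => (u.1.1, u.2)) (de_Read X).1
          ((c_fst Computable.fst).pair Computable.snd))
        (SE.of_re (RE.eq (f := fun u : (St × St) × ℕ × Tr3 => u.1.2)
          (g := fun u : (St × St) × ℕ × Tr3 => nx u.1.1 u.2) (c_snd Computable.fst)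
          (mach_c_nx (c_fst Computable.fst) Computable.snd))))
  have hm : DE (jp (jp X)) fun w : St × St => w.1.mode = 4 ∧ w.1.todo = [] :=
    DE.and (DE.eq (mach_c_mode Computable.fst) (Computable.const _))
      (DE.eq (mach_c_todo Computable.fst) (Computable.const _))
  exact SE.or (SE.and hm.2 hS) (SE.and hm.1
    (SE.ex (P := fun (w : St × St) (d : ℕ × List Bool) => CRead θ X w.1 d ∧ w.2 = nxC θ w.1 d)
      (SE.and (SE.comp (f := fun u : (St × St) × ℕ × List Bool => (u.1.1, u.2)) (de_CRead θ X).1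
          ((c_fst Computable.fst).pair Computable.snd))
        (SE.of_re (RE.eq (f := fun u : (St × St) × ℕ × List Bool => u.1.2)
          (g := fun u : (St × St) × ℕ × List Bool => nxC θ u.1.1 u.2) (c_snd Computable.fst)
          (machp_c_nxC θ (c_fst Computable.fst) Computable.snd))))))

/-- the records of the run are enumerable in the double jump and do not depend on the state -/
theorem run_recordsP (θ : ℕ) (X : CS) (s0 : St) : SE (jp (jp X)) (fun w : ℕ × ℕ =>
    ∃ s, Relation.ReflTransGen (StepP θ X) s0 s ∧ s.rcd[w.1]? = some w.2) ∧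
    ∀ (s s' : St) (k a b : ℕ), Relation.ReflTransGen (StepP θ X) s0 s →
      Relation.ReflTransGen (StepP θ X) s0 s' →
      s.rcd[k]? = some a → s'.rcd[k]? = some b → a = b := by
  have hp : ∀ {s s' : St}, Relation.ReflTransGen (StepP θ X) s s' → ∀ {k a : ℕ},
      s.rcd[k]? = some a → s'.rcd[k]? = some a := by
    intro s s' h
    induction h with
    | refl => exact fun h => h
    | tail _ h ih =>
      intro k a hk
      have h1 := ih hk
      rcases h with ⟨-, d, -, rfl⟩ | ⟨-, d, -, rfl⟩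
      · obtain ⟨l, hl⟩ := nx_rcd _ d
        rw [hl, List.getElem?_append_left (List.getElem?_eq_some_iff.1 h1).1]
        exact h1
      · exact h1
  refine ⟨SE.ex (P := fun (w : ℕ × ℕ) (s : St) =>
      Relation.ReflTransGen (StepP θ X) s0 s ∧ s.rcd[w.1]? = some w.2)
    (SE.and (SE.comp (f := fun u : (ℕ × ℕ) × St => u.2) (mach_se_run (machp_se_step θ X) s0)
        Computable.snd)
      (SE.of_re (RE.eq (f := fun u : (ℕ × ℕ) × St => u.2.rcd[u.1.1]?)
        (g := fun u : (ℕ × ℕ) × St => some u.1.2)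
        (c_getElem? (mach_c_rcd Computable.snd) (c_fst Computable.fst))
        (c_some (c_snd Computable.fst))))), fun s s' k a b h h' ha hb => ?_⟩
  have ru : Relator.RightUnique (StepP θ X) := fun _ _ _ u v => StepP.unique u v
  rcases Relation.ReflTransGen.total_of_right_unique ru h h' with u | u
  · exact Option.some.inj ((hp u ha).symm.trans hb)
  · exact Option.some.inj (ha.symm.trans (hp u hb))

theorem machp_cond_ph {p : ℕ} {c : Bool} {u v : St} (hu : p ≤ u.ph) (hv : p ≤ v.ph) :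
    p ≤ St.ph (cond c u v) := by
  cases c
  · exact hv
  · exact hu

theorem machp_ph {X : CS} {s s' : St} (h : Step X s s') :
    s.ph ≤ s'.ph ∧ (s.mode = 4 ∧ s.todo = [] → s.ph < s'.ph) := by
  obtain ⟨d, -, rfl⟩ := h
  refine ⟨?_, fun k => ?_⟩
  · unfold nx
    refine machp_cond_ph ?_ (machp_cond_ph ?_ (machp_cond_ph le_rfl ?_))
    · exact machp_cond_ph le_rfl le_rfl
    · exact machp_cond_ph (machp_cond_ph le_rfl le_rfl) le_rfl
    · exact machp_cond_ph (machp_cond_ph le_rfl (Nat.le_succ _)) (machp_cond_ph le_rfl le_rfl)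
  · simp [nx, nx3, nxR, k.1, k.2, eqb]

/-- a run inside one phase does not meet the new step -/
theorem machp_run (θ : ℕ) {X : CS} {s s' : St} (h : Relation.ReflTransGen (Step X) s s') :
    s.ph ≤ s'.ph ∧ (s'.ph = s.ph → Relation.ReflTransGen (StepP θ X) s s') := by
  induction h with
  | refl => exact ⟨le_rfl, fun _ => Relation.ReflTransGen.refl⟩
  | tail _ h ih =>
    obtain ⟨k1, k2⟩ := machp_ph h
    refine ⟨ih.1.trans k1, fun e => (ih.2 (by omega)).tail (Or.inl ⟨fun k => ?_, h⟩)⟩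
    have := k2 k
    omega

def LeadsP (θ : ℕ) (s : St) (A : CS) (s' : St) (A' : CS) : Prop :=
  PS s' A' ⊆ PS s A ∧ ∀ X ∈ PS s' A', Relation.ReflTransGen (StepP θ X) s s'

theorem Leads.toP (θ : ℕ) {s s' : St} {A A' : CS} (h : Leads s A s' A') (e : s'.ph = s.ph) :
    LeadsP θ s A s' A' := ⟨h.1, fun X hX => (machp_run θ (h.2 X hX)).2 e⟩

theorem LeadsP.trans {θ : ℕ} {s s' s'' : St} {A A' A'' : CS} (h : LeadsP θ s A s' A')
    (k : LeadsP θ s' A' s'' A'') : LeadsP θ s A s'' A'' :=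
  ⟨k.1.trans h.1, fun X hX => (h.2 X (k.1 hX)).trans (k.2 X hX)⟩

end Pool.Agent.MinDeg
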