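import Pool.Agent.P.MP_f8f34d_lc.N.PaRel

/-! The coded sets of a nonstandard model. -/

namespace Pool.Agent.MinDeg.Pa

open FirstOrder FirstOrder.Language Pool.Agent.Lib.ComputableProp

section
variable {M : Type} [LA.Structure M]

theorem PM.exists_rem (h : PM M) {m : M} (hm : lM zM m) (a : M) :
    ∃ x, lM x m ∧ ∃ q, a = aM x (mM m q) := by
  let _ := h.cs
  refine h.ind (P := fun _ _ v a => ∃ x, lM x (v 0) ∧ ∃ q, a = aM x (mM (v 0) q))
    (.ex (.and (.lt (.var 0) (.var 2)) (.ex (.eq (.var 2) (.add (.var 1) (.mul (.var 3) (.var 0)))))))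
    (fun _ => m) ⟨zM, hm, zM, ?_⟩ ?_ a
  · show (0 : M) = 0 + m * 0
    ring
  · rintro a ⟨x, hx, q, rfl⟩
    obtain ⟨u, hu⟩ := h.lt_ex _ _ hx
    change m = x + u + 1 at hu
    rcases h.qa.pred u with rfl | ⟨u, rfl⟩
    · refine ⟨zM, hm, q + 1, ?_⟩
      change m = x + 0 + 1 at hu
      show x + m * q + 1 = 0 + m * (q + 1)
      rw [hu]; ring
    · refine ⟨x + 1, ?_, q, ?_⟩
      · have := h.lt_add (x + 1) u
        rwa [show aM (aM (x + 1) u) oM = m from by
          change m = x + (u + 1) + 1 at hu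
          show x + 1 + u + 1 = m
          rw [hu]; ring] at this
      · show x + m * q + 1 = x + 1 + m * q
        ring

theorem PM.bt_total (h : PM M) (a b i : M) : ∃ x, Bt a b i x := by
  let _ := h.cs
  have hm : lM zM (aM oM (mM (aM i oM) b)) := by
    have := h.lt_add zM (mM (aM i oM) b)
    rwa [h.zero_add, h.add_comm] at this
  obtain ⟨x, hx, q, e⟩ := h.exists_rem hm a
  exact ⟨x, hx, zM, q, by rw [h.qa.a5, h.qa.a3]; exact e⟩

/-- overspill with parameters -/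
theorem PM.spill (h : PM M) (hns : ∃ c : M, ∀ n, c ≠ num n) {θ : UQ} (hθ : UDq θ) (v : ℕ → M)
    (std : ∀ n : ℕ, θ M v (num n)) : ∃ y, (∀ n : ℕ, lM (num n) y) ∧ θ M v y := by
  have big : ∀ y : M, (∀ n, y ≠ num n) → ∀ n, lM (num n) y := fun y hy n => by
    rcases h.qa.tri (num n) y with e | e | e
    · exact e
    · exact (hy n e.symm).elim
    · obtain ⟨k, -, e⟩ := (rep_lt_num h.qa _ _).1 e
      exact (hy k e).elim
  by_cases e : ∃ y, ¬ θ M v y
  · obtain ⟨y, h1, h2⟩ := h.least (P := fun M _ v a => ¬ θ M v a) (UD.not hθ) v e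
    rcases h.qa.pred y with rfl | ⟨z, rfl⟩
    · exact (h1 (std 0)).elim
    · refine ⟨z, big z ?_, not_not.1 (h2 z ((h.qa.a8 _ _).2 (Or.inr rfl)))⟩
      rintro n rfl
      exact h1 (std (n + 1))
  · obtain ⟨c, hc⟩ := hns
    exact ⟨c, big c hc, not_not.1 fun h1 => e ⟨c, h1⟩⟩

theorem PM.one_ne (h : PM M) : (oM : M) ≠ zM := fun e => h.qa.a1 zM ((h.zero_add _).trans e)

/-- a set represented with parameters has a code -/
theorem Rps.code (h : PM M) (hns : ∃ c : M, ∀ n, c ≠ num n) {O : CS} (hO : Rps M O) :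
    ∃ a b : M, ∀ n, O n = true ↔ Bt a b (num n) zM := by
  classical
  obtain ⟨P, v, uP, hP⟩ := hO
  obtain ⟨y, hy, a, b, H⟩ := h.spill hns (θ := fun M _ v y => ∃ a b, ∀ i, lM i y →
      (P M v i ↔ Bt a b i zM))
    (.ex (.ex (.all (.imp (.lt (.var 0) (.var 3)) (.iff (uP.app 0 fun k => k + 1 + 1 + 1 + 1)
      (.bt (.var 2) (.var 1) (.var 0) .zero)))))) v (fun n => by
    obtain ⟨a, b, -, H⟩ := h.exists_bt (fun i => if P M v (num i) then zM else oM) n
    refine ⟨a, b, fun i hi => ?_⟩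
    obtain ⟨k, hk, rfl⟩ := (rep_lt_num h.qa _ _).1 hi
    have := H k hk
    by_cases e : P M v (num k)
    · rw [if_pos e] at this
      exact iff_of_true e this
    · rw [if_neg e] at this
      exact iff_of_false e fun e' => h.one_ne (h.bt_unique this e'))
  exact ⟨a, b, fun n => (hP n).trans (H _ (hy n))⟩

theorem rps_bt (a b : M) {O : CS} (h : ∀ n, O n = true ↔ Bt a b (num n) zM) : Rps M O := by
  have u : UD fun _ _ w => Bt (w 1) (w 2) (w 0) zM := UD.bt (.var 1) (.var 2) (.var 0) .zero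
  refine ⟨fun _ _ v a => Bt (v 0) (v 1) a zM, fun i => if i = 0 then a else b, u, fun n => ?_⟩
  simpa using h n

end

open Classical in
/-- the set with code `w` in a structure on the natural numbers -/
noncomputable def Rw (B : LA.Structure ℕ) (w : ℕ) : CS := fun n =>
  decide (@Bt ℕ B w.unpair.1 w.unpair.2 (@num ℕ B n) (@zM ℕ B))

theorem Rw_iff (B : LA.Structure ℕ) (w n : ℕ) :
    Rw B w n = true ↔ @Bt ℕ B w.unpair.1 w.unpair.2 (@num ℕ B n) (@zM ℕ B) := by
  simp [Rw]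

theorem rps_Rw (B : LA.Structure ℕ) (w : ℕ) : Rps ℕ (Rw B w) :=
  rps_bt _ _ (Rw_iff B w)

theorem Rps.eq_Rw (B : LA.Structure ℕ) (h : @PM ℕ B) (hns : ∃ c : ℕ, ∀ n, c ≠ @num ℕ B n) {O : CS}
    (hO : Rps ℕ O) : ∃ w, Rw B w = O := by
  obtain ⟨a, b, H⟩ := hO.code h hns
  refine ⟨Nat.pair a b, funext fun n => Bool.eq_iff_iff.2 ?_⟩
  rw [Rw_iff, Nat.unpair_pair, H]

/-- a functional that follows an effectively open relation -/
theorem exists_Ps {E : CS → ℕ → Bool → Prop} (hE : Sig fun x (w : ℕ × Bool) => E x w.1 w.2) :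
    ∃ e, ∀ x n, (∀ b, Ps e x n b → E x n b) ∧ ∀ b, E x n b → ∃ b', Ps e x n b' := by
  obtain ⟨e, he⟩ := hE.index
  obtain ⟨-, h2, -, h4⟩ := (Sig.unif (P := fun x (w : ℕ × ℕ) (b : Bool) =>
    Un (Nat.pair w.1 (Encodable.encode (w.2, b))) x) sig_Ps0).choose_spec
  exact ⟨e, fun x n => ⟨fun b hb => (he x (n, b)).2 (h2 x (e, n) b hb),
    fun b hb => h4 x (e, n) b ((he x (n, b)).1 hb)⟩⟩

theorem ps_single {e : ℕ} {x : CS} {n : ℕ} : ¬ (Ps e x n true ∧ Ps e x n false) := fun h =>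
  absurd ((Sig.unif (P := fun x (w : ℕ × ℕ) (b : Bool) =>
    Un (Nat.pair w.1 (Encodable.encode (w.2, b))) x) sig_Ps0).choose_spec.2.2.1 x (e, n) _ _ h.1 h.2)
    (by simp)

/-- the coded sets are computed from the diagram by one relation -/
theorem cl_sig : ∃ E : CS → ℕ → Bool → Prop, (Sig fun x (w : ℕ × Bool) => E x w.1 w.2) ∧
    ∀ B : LA.Structure ℕ, @PM ℕ B → ∀ w n b, E (dg B) (Nat.pair w n) b ↔ Rw B w n = b := by
  let m : ℕ → ℕ → LA.Term ℕ := fun b n => addT oneT (mulT (addT (nT n) oneT) (Term.var b))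
  obtain ⟨g, hm, hg⟩ : ∃ g : ℕ × ℕ → ℕ, Computable g ∧ ∀ b n, code (m b n) = g (b, n) := by
    refine ⟨fun z => code (m z.1 z.2), ?_, fun _ _ => rfl⟩
    simp only [m, code_add, code_mul, code_one, code_var]
    exact c_add (c_mul (Computable.const _) (c_natPair (Computable.const _) (c_add (c_mul
      (Computable.const _) (c_natPair (c_add (c_mul (Computable.const _) (c_natPair
      (c_nT.comp Computable.snd) (Computable.const _))) (Computable.const _)) (by fun_prop)))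
      (Computable.const _)))) (Computable.const _)
  refine ⟨fun y k β => ∃ u : ℕ × ℕ × ℕ,
      (y (2 * Nat.pair (3 * u.1 + 2) (g (k.unpair.1.unpair.2, k.unpair.2)) + 1) = true ∧
        y (2 * Nat.pair (3 * Nat.pair (3 * k.unpair.1.unpair.1 + 2)
            (3 * Nat.pair (g (k.unpair.1.unpair.2, k.unpair.2)) (3 * u.2.1 + 2) + 4) + 3)
          (3 * Nat.pair (3 * u.1 + 2) (3 * Nat.pair (g (k.unpair.1.unpair.2, k.unpair.2))
            (3 * u.2.2 + 2) + 4) + 3)) = true) ∧ y (2 * Nat.pair (3 * u.1 + 2) 0) = β,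
    Sig.ex (Sig.and (Sig.and (Sig.bit (by fun_prop) (by fun_prop))
      (Sig.bit (by fun_prop) (by fun_prop))) (Sig.bit (by fun_prop) (by fun_prop))),
    fun B h w n β => ?_⟩
  simp only [Nat.unpair_pair]
  have key : ∀ x : ℕ, (∃ s t : ℕ,
      dg B (2 * Nat.pair (3 * x + 2) (g (w.unpair.2, n)) + 1) = true ∧
        dg B (2 * Nat.pair (3 * Nat.pair (3 * w.unpair.1 + 2)
            (3 * Nat.pair (g (w.unpair.2, n)) (3 * s + 2) + 4) + 3)
          (3 * Nat.pair (3 * x + 2) (3 * Nat.pair (g (w.unpair.2, n)) (3 * t + 2) + 4) + 3)) =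
            true) ↔ Bt w.unpair.1 w.unpair.2 (num n) x := fun x => by
    have e2 := mem_diagram_lt B (Term.var x) (m w.unpair.2 n)
    have e3 := fun s t => mem_diagram_eq B
      (addT (Term.var w.unpair.1) (mulT (m w.unpair.2 n) (Term.var s)))
      (addT (Term.var x) (mulT (m w.unpair.2 n) (Term.var t)))
    have e4 : (m w.unpair.2 n).realize id = aM oM (mM (aM (num n) oM) w.unpair.2) := by
      simp [m, realize_nT]
    simp only [code_add, code_mul, code_var, hg, e4, realize_addT, realize_mulT,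
      Term.realize_var, id] at e2 e3
    simp only [dg, decide_eq_true_eq, e2, e3, exists_and_left, Bt]
  have k2 : ∀ x : ℕ, Bt w.unpair.1 w.unpair.2 (num n) x →
      dg B (2 * Nat.pair (3 * x + 2) 0) = Rw B w n := fun x hx => by
    have e := mem_diagram_eq B (Term.var x) zeroT
    simp only [code_var, code_zero, Term.realize_var, realize_zeroT, id] at e
    rw [Bool.eq_iff_iff, Rw_iff]
    simp only [dg, decide_eq_true_eq, e]
    exact ⟨fun e => e ▸ hx, fun e => h.bt_unique hx e⟩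
  constructor
  · rintro ⟨⟨x, s, t⟩, h1, h2⟩
    rw [← h2, k2 x ((key x).1 ⟨s, t, h1⟩)]
  · rintro rfl
    obtain ⟨x, hx⟩ := h.bt_total w.unpair.1 w.unpair.2 (num n)
    obtain ⟨s, t, h1⟩ := (key x).2 hx
    exact ⟨(x, s, t), h1, k2 x hx⟩

/-- one functional computes all coded sets from the diagram -/
theorem cl : ∃ θ : ℕ, ∀ B : LA.Structure ℕ, @PM ℕ B → ∀ w n b,
    Ps θ (dg B) (Nat.pair w n) b ↔ Rw B w n = b := by
  obtain ⟨E, hE, H⟩ := cl_sig
  obtain ⟨θ, hθ⟩ := exists_Ps hE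
  refine ⟨θ, fun B h w n b => ⟨fun k => (H B h w n b).1 ((hθ _ _).1 b k), fun k => ?_⟩⟩
  obtain ⟨b', hb⟩ := (hθ _ _).2 b ((H B h w n b).2 k)
  rwa [← k, (H B h w n b').1 ((hθ _ _).1 b' hb)]

/-- the join of the coded sets -/
noncomputable def RJ (B : LA.Structure ℕ) : CS := fun p => Rw B p.unpair.1 p.unpair.2

theorem col_RJ (B : LA.Structure ℕ) (w : ℕ) : col (RJ B) w = Rw B w := by
  funext n
  simp [col, RJ]

theorem RJ_le (B : LA.Structure ℕ) (h : @PM ℕ B) : LeT (RJ B) (dg B) := by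
  obtain ⟨E, hE, H⟩ := cl_sig
  refine ⟨_, hE, fun w => ?_⟩
  have := H B h w.1.unpair.1 w.1.unpair.2 w.2
  rwa [Nat.pair_unpair] at this

end Pool.Agent.MinDeg.Pa
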