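import Pool.Agent.P.MP_f8f34d_lc.a.PaBr
import Pool.Agent.P.MP_f8f34d_lc.W.HideDefs

/-! Sets represented with parameters are closed under relative computability. -/

namespace Pool.Agent.MinDeg.Pa

open FirstOrder FirstOrder.Language Pool.Agent.Lib.ComputableProp

/-- properties of an element with parameters, in every structure -/
abbrev UQ : Type 1 := ∀ (M : Type) [LA.Structure M], (ℕ → M) → M → Prop

def UDq (P : UQ) : Prop := UD fun M _ w => P M (fun i => w (i + 1)) (w 0)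

/-- `p` represents `O` on the numerals -/
def Rp {M : Type} [LA.Structure M] (p : M → Prop) (O : CS) : Prop :=
  ∀ n, O n = true ↔ p (num n)

/-- represented with parameters -/
def Rps (M : Type) [LA.Structure M] (O : CS) : Prop := ∃ (P : UQ) (v : ℕ → M), UDq P ∧ Rp (P M v) O

theorem UDq.app {P : UQ} (h : UDq P) (j : ℕ) (r : ℕ → ℕ) :
    UD fun M _ w => P M (fun i => w (r i)) (w j) :=
  UD.ren h fun i => Nat.casesOn i j r

theorem UDq.fm (φ : Fm) : UDq fun _ _ _ a => Sat φ [a] := UD.sat φ 0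

/-- a computable relation of two arguments is represented on numerals -/
theorem rep_dec2 {f : ℕ → ℕ → Bool} (hf : Computable fun z : ℕ => f z.unpair.1 z.unpair.2) :
    ∃ D : ∀ (M : Type) [LA.Structure M], M → M → Prop,
      (∀ i j, UD fun M _ v => D M (v i) (v j)) ∧
      ∀ (M : Type) [LA.Structure M], QA M → ∀ c d : ℕ, D M (num c) (num d) ↔ f c d = true := by
  obtain ⟨G, uG, hG⟩ := rep_fun2 (f := fun c d => cond (f c d) 0 1) (by fun_prop)
  refine ⟨fun M _ c d => ∃ z, z = zM ∧ G M c d z, fun i j =>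
    .ex (.and (.eq (.var 0) .zero) (uG (i + 1) (j + 1) 0)), fun M _ h c d => ?_⟩
  simp only [exists_eq_left, hG M h]
  cases f c d
  · exact iff_of_false (fun e => absurd (rep_num_inj h 0 1 e) (by decide)) (by simp)
  · exact iff_of_true rfl rfl

/-- the string inside a witness -/
def relS (w : ℕ) : List Bool := (Encodable.decode (α := List Bool) w.unpair.1).getD []

@[fun_prop] theorem c_relS {α : Type} [Primcodable α] {f : α → ℕ} (hf : Computable f) :
    Computable (fun a => relS (f a)) :=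
  Computable.option_getD (by fun_prop) (Computable.const _)

theorem relS_pair (σ : List Bool) (k : ℕ) : relS (Nat.pair (Encodable.encode σ) k) = σ := by
  rw [relS, Nat.unpair_pair, Encodable.encodek]; rfl

/-- relativized representation: a formula that follows a functional applied to the set that
`P` represents -/
theorem rel {P : UQ} (hP : UDq P) {E : CS → ℕ → Bool → Prop}
    (hE : Sig fun x (w : ℕ × Bool) => E x w.1 w.2) :
    ∃ Q : UQ, UDq Q ∧ ∀ (M : Type) [LA.Structure M], QA M → ∀ (v : ℕ → M) (O : CS),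
      Rp (P M v) O → ∀ e, ¬ (E O e true ∧ E O e false) → ∀ b, E O e b →
        (Q M v (num e) ↔ b = true) := by
  obtain ⟨R, ⟨t, ht, h1⟩, -, h3⟩ := hE
  obtain ⟨G, uG, hG⟩ := rep_fun1 (f := fun w => (relS w).length) (by fun_prop)
  obtain ⟨D, uD, hD⟩ := rep_dec2 (f := fun w i => (relS w).getD i false) (by fun_prop)
  have hT := fun b : Bool => rep_dec2 (f := fun e w => t ((relS w, (e, b)), w.unpair.2))
    (by fun_prop)
  choose T uT hT using hT
  let W : Bool → ∀ (M : Type) [LA.Structure M], (ℕ → M) → M → M → Prop := fun b M _ v e w =>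
    T b M e w ∧ ∀ l, G M w l → ∀ i, lM i l → (D M w i ↔ P M v i)
  have uW : ∀ b i j (r : ℕ → ℕ), UD fun M _ w => W b M (fun k => w (r k)) (w i) (w j) :=
    fun b i j r => .and (uT b i j) (.all (.imp (uG.app2 (.var (j + 1)) (.var 0))
      (.all (.imp (.lt (.var 0) (.var 1)) (.iff (uD (j + 1 + 1) 0)
        (hP.app 0 fun k => r k + 1 + 1))))))
  refine ⟨fun M _ v e => ∃ w, W true M v e w ∧ ∀ w', lM w' w → ¬ W false M v e w',
    .ex (.and (uW true 1 0 fun k => k + 1 + 1) (.all (.imp (.lt (.var 0) (.var 1))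
      (.not (uW false 2 0 fun k => k + 1 + 1 + 1))))), fun M _ h v O hO e hs b hb => ?_⟩
  have k1 : ∀ b w, W b M v (num e) (num w) ↔
      t ((relS w, (e, b)), w.unpair.2) = true ∧ Ext (relS w) O := fun b w => by
    simp only [W, hT b M h, hG M h, forall_eq]
    refine and_congr_right fun _ => ⟨fun H k hk => ?_, fun H i hi => ?_⟩
    · have := H (num k) ((rep_lt_num_num h _ _).2 hk)
      rw [hD M h, ← hO k] at this
      exact (Bool.eq_iff_iff.2 this).symm
    · obtain ⟨k, hk, rfl⟩ := (rep_lt_num h _ _).1 hi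
      rw [hD M h, ← hO k, H k hk]
  have k2 : ∀ b, E O e b ↔ ∃ w, W b M v (num e) (num w) := fun b => by
    refine (h3 O (e, b)).trans ?_
    constructor
    · rintro ⟨n, hn⟩
      obtain ⟨k, hk⟩ := (h1 (_, (e, b))).1 hn
      refine ⟨Nat.pair (Encodable.encode (pre O n)) k, (k1 _ _).2 ?_⟩
      rw [relS_pair, Nat.unpair_pair]
      exact ⟨hk, ext_pre _ _⟩
    · rintro ⟨w, hw⟩
      obtain ⟨a1, a2⟩ := (k1 _ _).1 hw
      exact ⟨(relS w).length, by rw [a2.eq_pre]; exact (h1 (_, (e, b))).2 ⟨_, a1⟩⟩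
  cases b
  · refine iff_of_false ?_ (by simp)
    rintro ⟨a, ha, hl⟩
    obtain ⟨w, hw⟩ := (k2 _).1 hb
    have hstd : ∀ k : ℕ, a ≠ num k := by
      rintro k rfl
      exact hs ⟨(k2 _).2 ⟨k, ha⟩, hb⟩
    rcases h.tri a (num w) with e | e | e
    · obtain ⟨k, -, e⟩ := (rep_lt_num h a w).1 e
      exact hstd k e
    · exact hstd w e
    · exact hl _ e hw
  · obtain ⟨w, hw⟩ := (k2 _).1 hb
    refine iff_of_true ⟨num w, hw, fun a ha hW => ?_⟩ rfl
    obtain ⟨k, -, rfl⟩ := (rep_lt_num h _ _).1 ha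
    exact hs ⟨hb, (k2 _).2 ⟨k, hW⟩⟩

/-- the total case -/
theorem rel_leT {P : UQ} (hP : UDq P) {O C : CS} (hC : LeT C O) :
    ∃ Q : UQ, UDq Q ∧ ∀ (M : Type) [LA.Structure M], QA M → ∀ v : ℕ → M,
      Rp (P M v) O → Rp (Q M v) C := by
  obtain ⟨S, h1, h2⟩ := hC
  obtain ⟨Q, uQ, hQ⟩ := rel hP (E := fun x n b => S x (n, b)) h1
  refine ⟨Q, uQ, fun M _ h v hO n => (hQ M h v O hO n (fun H => ?_) _ ((h2 (n, _)).2 rfl)).symm⟩
  exact absurd (((h2 (n, true)).1 H.1).symm.trans ((h2 (n, false)).1 H.2)) (by simp)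

/-- joins -/
theorem rel_jn {P P' : UQ} (hP : UDq P) (hP' : UDq P') :
    ∃ Q : UQ, UDq Q ∧ ∀ (M : Type) [LA.Structure M], QA M → ∀ (v : ℕ → M) (O O' : CS),
      Rp (P M v) O → Rp (P' M v) O' → Rp (Q M v) (jn O O') := by
  obtain ⟨G, uG, hG⟩ := rep_fun1 (f := fun n => n / 2) (by fun_prop)
  obtain ⟨D, uD, hD⟩ := rep_dec2 (f := fun n _ => eqb (n % 2) 0) (by fun_prop)
  refine ⟨fun M _ v n => ∃ h, G M n h ∧ ((D M n n ∧ P M v h) ∨ (¬ D M n n ∧ P' M v h)),
    .ex (.and (uG.app2 (.var 1) (.var 0)) (.or (.and (uD 1 1) (hP.app 0 fun k => k + 1 + 1))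
      (.and (uD 1 1).not (hP'.app 0 fun k => k + 1 + 1)))), fun M _ h v O O' hO hO' n => ?_⟩
  simp only [hG M h, hD M h, exists_eq_left, ← hO (n / 2), ← hO' (n / 2)]
  by_cases e : n % 2 = 0 <;> simp [jn, eqb, e]

variable {M : Type} [LA.Structure M]

theorem Rps.leT (h : QA M) {O C : CS} (hO : Rps M O) (hC : LeT C O) : Rps M C := by
  obtain ⟨P, v, uP, hP⟩ := hO
  obtain ⟨Q, uQ, hQ⟩ := rel_leT uP hC
  exact ⟨Q, v, uQ, hQ M h v hP⟩

theorem Rps.jn (h : QA M) {O O' : CS} (hO : Rps M O) (hO' : Rps M O') : Rps M (jn O O') := by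
  obtain ⟨P, v, uP, hP⟩ := hO
  obtain ⟨P', v', uP', hP'⟩ := hO'
  obtain ⟨Q, uQ, hQ⟩ := rel_jn (P := fun M _ v a => P M (fun i => v (2 * i)) a)
    (P' := fun M _ v a => P' M (fun i => v (2 * i + 1)) a)
    (uP.app 0 fun i => 2 * i + 1) (uP'.app 0 fun i => 2 * i + 1 + 1)
  refine ⟨Q, fun i => if i % 2 = 0 then v (i / 2) else v' (i / 2), uQ, hQ M h _ _ _ ?_ ?_⟩
  · have : (fun i => if 2 * i % 2 = 0 then v (2 * i / 2) else v' (2 * i / 2)) = v := by
      funext i
      rw [if_pos (by omega), Nat.mul_div_cancel_left _ (by omega)]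
    simpa only [this] using hP
  · have : (fun i => if (2 * i + 1) % 2 = 0 then v ((2 * i + 1) / 2) else v' ((2 * i + 1) / 2)) =
        v' := by
      funext i
      rw [if_neg (by omega), (by omega : (2 * i + 1) / 2 = i)]
    simpa only [this] using hP'

theorem Rps.fm {φ : Fm} {O : CS} (hO : ∀ n, O n = true ↔ Sat (M := M) φ [num n]) : Rps M O :=
  ⟨_, fun _ => zM, UDq.fm φ, hO⟩

theorem rps_TK (h : PM M) (k : ℕ) : Rps M (TK (PreLA M) k) := by
  obtain ⟨φ, hφ⟩ := pa_TK k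
  exact Rps.fm fun n => (hφ M h n).symm

end Pool.Agent.MinDeg.Pa
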