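import Pool.Agent.P.MP_f8f34d_lc.N.Defs

/-! The interfaces of sections 2 and 3. -/

namespace Pool.Agent.MinDeg

open FirstOrder FirstOrder.Language

/-- a map from sequences of points to completions that codes the points level by level -/
structure Tower (Rl : CS) where
  H : CS
  b0 : Bool
  th : (ℕ → CS) → LA.Theory
  U : (ℕ → CS) → ℕ → CS
  Left : ℕ → CS → CS → CS → CS → Prop
  Down : ℕ → CS → CS → CS → Prop
  hH : col H 0 = Rl
  loc : ∀ B B' n, (∀ m ≤ n, B m = B' m) → U B n = U B' n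
  left_de : ∀ Z, DE (jp (jp Z)) fun w : (ℕ × ℕ × ℕ) × ℕ × ℕ =>
    Left w.1.1 (col Z w.1.2.1) (col Z w.1.2.2) (col Z w.2.1) (col Z w.2.2)
  down_de : ∀ Z, DE (jp (jp Z)) fun w : (ℕ × ℕ) × ℕ × ℕ =>
    Down w.1.1 (col Z w.1.2) (col Z w.2.1) (col Z w.2.2)
  meas : ∀ (α : Type) [MeasurableSpace α] (f : α → ℕ → CS), Measurable f →
    (∀ a, col (f a 0) 1 = H) → Measurable fun a => tg (th (f a))
  max : ∀ B, col (B 0) 1 = H → (th B).IsMaximal ∧ PA ⊆ th B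
  ne : ∀ B, col (B 0) 1 = H → B 0 0 = b0 → th B ≠ TA
  inj : ∀ B B', col (B 0) 1 = H → col (B' 0) 1 = H → th B = th B' → B = B'
  rep0 : ∀ B, col (B 0) 1 = H → ∀ (M : Type) [LA.Structure M], M ⊨ th B → ∃ φ, df φ M = B 0
  repU : ∀ B, col (B 0) 1 = H → ∀ (M : Type) [LA.Structure M], M ⊨ th B → ∀ n,
    ∃ φ, df φ M = U B n
  leB : ∀ B, col (B 0) 1 = H → ∀ n, LeT (B (n + 1)) (jn (U B (n + 1)) (B 0))
  leT : ∀ B, col (B 0) 1 = H → ∀ (M : Type) [LA.Structure M], M ⊨ th B → ∀ k,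
    LeT (TK (PreLA M) k) (jn (U B k) (B 0))
  left : ∀ B, col (B 0) 1 = H → ∀ n V, Left n (U B n) (B 0) (B (n + 1)) V ↔ V = U B (n + 1)
  down : ∀ B, col (B 0) 1 = H → ∀ (M : Type) [LA.Structure M], M ⊨ th B → ∀ k V,
    Down k (B 0) (U B k) V ↔ V = TK (PreLA M) k

abbrev XX : Type := ℕ → ℕ → ℕ

/-- chains and their coboundaries -/
structure Chain where
  Rl : CS
  c3 : CS → XX → CS
  lv : XX → ℕ → CS
  Sol : ℕ → CS → CS → Prop
  meas_c3 : Measurable fun p : CS × XX => c3 p.1 p.2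
  meas_lv : ∀ n, Measurable fun Y => lv Y n
  sol_de : ∀ Z, DE (jp (jp Z)) fun w : ℕ × ℕ × ℕ => Sol w.1 (col Z w.2.1) (col Z w.2.2)
  sol : ∀ r Y B0, WF r → col (col B0 1) 0 = Rl → col B0 2 = r → col B0 3 = c3 r Y →
    ∀ n C, Sol n B0 C ↔ C = lv Y n
  ill : ∀ r, ¬ WF r → ∃ act : XX → (ℕ → CS) → XX, (∀ t, Continuous fun Y => act Y t) ∧
    (∀ t, IsOpenMap fun Y => act Y t) ∧ (∀ Y, Continuous (act Y)) ∧
    (∀ Y t, c3 r (act Y t) = c3 r Y) ∧
    (∀ Y t t' n, t n = t' n → lv (act Y t) n = lv (act Y t') n) ∧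
    ∀ Y t n, rt (lv (act Y t) n) = xr (rt (lv Y n)) (t n)

theorem col_rs_succ (A B : CS) (m : ℕ) : col (rs A B) (m + 1) = col A m := by
  funext p; simp [col, rs, Lib.ComputableProp.eqb]

/-- the first point: a bit, the fixed oracle, the relation, the coboundary -/
def mk0 (b : Bool) (H r c : CS) : CS := rs (rs (rs (rs zz c) r) H) fun _ => b

theorem mk0_0 (b : Bool) (H r c : CS) : mk0 b H r c 0 = b := rfl
theorem mk0_1 (b : Bool) (H r c : CS) : col (mk0 b H r c) 1 = H := by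
  rw [mk0, col_rs_succ, col_rs]
theorem mk0_2 (b : Bool) (H r c : CS) : col (mk0 b H r c) 2 = r := by
  rw [mk0, col_rs_succ, col_rs_succ, col_rs]
theorem mk0_3 (b : Bool) (H r c : CS) : col (mk0 b H r c) 3 = c := by
  rw [mk0, col_rs_succ, col_rs_succ, col_rs_succ, col_rs]

/-- the sequence of points of a relation and a chain -/
def mkB (C : Chain) (W : Tower C.Rl) (r : CS) (Y : XX) : ℕ → CS
  | 0 => mk0 W.b0 W.H r (C.c3 r Y)
  | n + 1 => C.lv Y n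

/-- every Scott enumeration that lists the defined sets of a model of `T` lists `A` -/
def Lst (T : LA.Theory) (A : CS) : Prop := ∀ B : LA.Structure ℕ, @Theory.Model LA ℕ B T →
  ∀ R, Scott R → (∀ φ, Cl R (@df φ ℕ B)) → Cl R A

/-- hypothesis (G) of section 5 -/
def HG (J Gd : Set CS) : Prop := ∀ A ∈ J, ∀ z, ∃ G ∈ Gd, cat z G ∈ J ∧ Gen A z (cat z G)

/-- `y` computes what it codes and codes every member of `Gd` -/
def Md (θ : ℕ) (Gd : Set CS) (y : CS) : Prop :=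
  (∀ w G, Cod θ y w G → LeT G y) ∧ ∀ G ∈ Gd, ∃ w, Cod θ y w G

end Pool.Agent.MinDeg
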